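import Mathlib

set_option autoImplicit false

/-! # AMU conjecture in genus 0, part (V): periodic diagrams of positive pure braid words

Text: proofs 350. A positive pure braid word is repeated periodically; times are integers. At the
crossing at time `t` the strand `lm t` (left mover) and the strand `rm t` (right mover) exchange
their places; before the crossing `lm t` is directly to the right of `rm t`. -/

namespace Pool.Agent.H70.AG

open Polynomial

/-- A positive pure braid word, repeated periodically, seen through its strands. -/
structure Dia (n : ℕ) where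
  /-- the period -/
  T : ℕ
  hT : 0 < T
  /-- the position of a strand at a time -/
  pos : ℤ → Fin n → ℕ
  /-- the strand which moves to the left at time `t` -/
  lm : ℤ → Fin n
  /-- the strand which moves to the right at time `t` -/
  rm : ℤ → Fin n
  lt : ∀ t a, pos t a < n
  inj : ∀ t, Function.Injective (pos t)
  adj : ∀ t, pos t (lm t) = pos t (rm t) + 1
  step_lm : ∀ t, pos (t + 1) (lm t) = pos t (rm t)
  step_rm : ∀ t, pos (t + 1) (rm t) = pos t (lm t)
  step : ∀ t a, a ≠ lm t → a ≠ rm t → pos (t + 1) a = pos t a
  per_pos : ∀ t, pos (t + T) = pos t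
  per_lm : ∀ t, lm (t + T) = lm t
  per_rm : ∀ t, rm (t + T) = rm t

namespace Dia

variable {n : ℕ} (D : Dia n)

/-- At time `t` the strand `b` moves to the left over the strand `a`. -/
def ev (b a : Fin n) (t : ℤ) : Prop := D.lm t = b ∧ D.rm t = a

/-- At time `t` the strands `a` and `b` cross. -/
def cr (a b : Fin n) (t : ℤ) : Prop := D.ev a b t ∨ D.ev b a t

instance (b a : Fin n) (t : ℤ) : Decidable (D.ev b a t) := by unfold ev; infer_instance

instance (a b : Fin n) (t : ℤ) : Decidable (D.cr a b t) := by unfold cr; infer_instance

/-- The linking number: the number of times in one period at which `b` moves left over `a`. -/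
def lk (a b : Fin n) : ℕ := ((Finset.range D.T).filter fun i : ℕ => D.ev b a (i : ℤ)).card

/-- The last crossing of `k` with `y` or `z` before time `t` is a crossing with `y`. -/
def last (k y z : Fin n) (t : ℤ) : Prop :=
  ∃ u : ℤ, u < t ∧ D.cr k y u ∧ ∀ v : ℤ, u < v → v < t → ¬ D.cr k y v ∧ ¬ D.cr k z v

/-- The one step matrix of the walk (read backwards in time) at time `t` with colours `s`: a walker
on `rm t` stays with weight `s (lm t)` and goes to `lm t` with weight `1 - s (lm t)`. -/
noncomputable def E (s : Fin n → ℝ) (t : ℤ) : Matrix (Fin n) (Fin n) ℝ := fun i j =>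
  if i = D.rm t then (if j = D.rm t then s (D.lm t) else 0) + (if j = D.lm t then 1 - s (D.lm t) else 0)
  else if i = j then 1 else 0

/-- The matrix of the walk over the times `t, ..., t + m - 1`. -/
noncomputable def W (s : Fin n → ℝ) (t : ℤ) : ℕ → Matrix (Fin n) (Fin n) ℝ
  | 0 => 1
  | m + 1 => D.E s (t + m) * W s t m

/-- Rigid diagrams: the characteristic polynomial of the walk matrix over `m` periods is a product
of linear factors `X - s ^ (m e)` with fixed exponent vectors `e`. -/
def Rigid : Prop :=
  ∃ Ex : Multiset (Fin n → ℕ), ∀ m : ℕ, ∀ s : Fin n → ℝ, (∀ i, 0 ≤ s i) → (∀ i, s i ≤ 1) →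
    (D.W s 0 (m * D.T)).charpoly = (Ex.map fun e => (X - C (∏ i, s i ^ (m * e i)) : ℝ[X])).prod

/-- `(y, z)` is a zero pair with outsider `k`: `y` is always to the left of `z`, they never cross,
and `k` is linked with both in the same way. -/
structure ZP (y z k : Fin n) : Prop where
  left : ∀ t, D.pos t y < D.pos t z
  zero : D.lk y z = 0
  same : D.lk k y = D.lk k z
  pos : 0 < D.lk k y

end Dia

end Pool.Agent.H70.AG
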