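import Mathlib

set_option autoImplicit false

/-! # Blocks of matrices and their characteristic polynomials (Mathlib only)

`sb M U`: the square block of `M` with rows and columns in the finite set `U`.
PROOF of `charpoly_split`: the equivalence `{x // x ∈ U} ⊕ {x // x ∈ V} ≃ {x // x ∈ U ∪ V}`
(`Equiv.Finset.union` or `Equiv.ofBijective`) turns `sb M (U ∪ V)` into
`Matrix.fromBlocks (sb M U) 0 C (sb M V)`; `Matrix.charpoly_reindex`,
`Matrix.charpoly_fromBlocks_zero₁₂`.
`charpoly_univ`: reindex with `{x // x ∈ univ} ≃ ι`. `charpoly_diag`: the block is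
`Matrix.diagonal`, `Matrix.charpoly_diagonal`, product over a subtype (`Finset.prod_coe_sort`).
`trace_sb`: `Finset.sum_coe_sort`. `isRoot_one`: `sb M U - 1` (or `1 - sb M U`) kills the constant
vector `1 ≠ 0`, so `det (1 - sb M U) = 0` (`Matrix.exists_mulVec_eq_zero_iff`),
`Matrix.eval_charpoly`. `isRoot_row`: the row `r` of `scalar (M r r) - sb M U` is zero
(`Matrix.det_eq_zero_of_row_eq_zero`), `Matrix.eval_charpoly`.
`trace_le`: `sb M U` has a characteristic polynomial `p` with `p * q = ∏ (X - C x)`, so `p` splits,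
`p.roots + q.roots = L` (`Polynomial.roots_mul`, `Polynomial.roots_multiset_prod_X_sub_C`),
`trace = p.roots.sum` (`Matrix.trace_eq_sum_roots_charpoly_of_splits`), `1 ∈ q.roots`, and all
elements of `q.roots` are `≥ 0`; so `p.roots.sum = L.sum - q.roots.sum ≤ L.sum - 1`. -/

namespace Pool.Agent.H70.AG

open Polynomial

variable {ι : Type*} [Fintype ι] [DecidableEq ι] {R : Type*} [CommRing R]

/-- The square block with rows and columns in `U`. -/
def sb {S : Type*} (M : Matrix ι ι S) (U : Finset ι) : Matrix {x // x ∈ U} {x // x ∈ U} S :=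
  M.submatrix Subtype.val Subtype.val

theorem charpoly_split (M : Matrix ι ι R) {U V : Finset ι} (hUV : Disjoint U V)
    (h : ∀ i ∈ U, ∀ j ∈ V, M i j = 0) :
    (sb M (U ∪ V)).charpoly = (sb M U).charpoly * (sb M V).charpoly := by
  let e : {x // x ∈ U} ⊕ {x // x ∈ V} ≃ {x // x ∈ U ∪ V} :=
    Equiv.ofBijective
      (Sum.elim (fun x => ⟨x.1, Finset.mem_union_left _ x.2⟩)
        (fun x => ⟨x.1, Finset.mem_union_right _ x.2⟩)) (by
      constructor
      · rintro (⟨x, hx⟩ | ⟨x, hx⟩) (⟨y, hy⟩ | ⟨y, hy⟩) hxy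
        · simp only [Sum.elim_inl, Subtype.mk.injEq] at hxy
          subst hxy
          rfl
        · simp only [Sum.elim_inl, Sum.elim_inr, Subtype.mk.injEq] at hxy
          subst hxy
          exact absurd hy (Finset.disjoint_left.mp hUV hx)
        · simp only [Sum.elim_inl, Sum.elim_inr, Subtype.mk.injEq] at hxy
          subst hxy
          exact absurd hx (Finset.disjoint_left.mp hUV hy)
        · simp only [Sum.elim_inr, Subtype.mk.injEq] at hxy
          subst hxy
          rfl
      · rintro ⟨x, hx⟩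
        rcases Finset.mem_union.mp hx with h1 | h1
        · exact ⟨Sum.inl ⟨x, h1⟩, rfl⟩
        · exact ⟨Sum.inr ⟨x, h1⟩, rfl⟩)
  have h1 : Matrix.reindex e.symm e.symm (sb M (U ∪ V))
      = Matrix.fromBlocks (sb M U) 0
        (Matrix.of fun (i : {x // x ∈ V}) (j : {x // x ∈ U}) => M i j) (sb M V) := by
    ext i j
    rcases i with i | i <;> rcases j with j | j
    · rfl
    · show M i j = 0
      exact h _ i.2 _ j.2
    · rfl
    · rfl
  rw [← Matrix.charpoly_reindex e.symm (sb M (U ∪ V)), h1, Matrix.charpoly_fromBlocks_zero₁₂]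

theorem charpoly_univ (M : Matrix ι ι R) : (sb M Finset.univ).charpoly = M.charpoly := by
  let e : {x // x ∈ (Finset.univ : Finset ι)} ≃ ι :=
    ⟨fun x => x.1, fun x => ⟨x, Finset.mem_univ x⟩, fun _ => rfl, fun _ => rfl⟩
  have h1 : Matrix.reindex e e (sb M Finset.univ) = M := by
    ext i j
    rfl
  rw [← Matrix.charpoly_reindex e (sb M Finset.univ), h1]

theorem charpoly_diag (M : Matrix ι ι R) {U : Finset ι}
    (h : ∀ i ∈ U, ∀ j ∈ U, i ≠ j → M i j = 0) :
    (sb M U).charpoly = ∏ i ∈ U, (X - C (M i i)) := by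
  have h1 : sb M U = Matrix.diagonal fun i : {x // x ∈ U} => M i i := by
    ext i j
    by_cases hij : i = j
    · subst hij
      rw [Matrix.diagonal_apply_eq]
      rfl
    · rw [Matrix.diagonal_apply_ne _ hij]
      exact h _ i.2 _ j.2 fun he => hij (Subtype.ext he)
  rw [h1, Matrix.charpoly_diagonal]
  exact Finset.prod_coe_sort U fun i => X - C (M i i)

theorem trace_sb (M : Matrix ι ι R) (U : Finset ι) : (sb M U).trace = ∑ i ∈ U, M i i := by
  unfold Matrix.trace
  exact Finset.sum_coe_sort U fun i => M i i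

theorem isRoot_one (M : Matrix ι ι ℝ) {U : Finset ι} (hU : U.Nonempty)
    (h : ∀ i ∈ U, ∑ j ∈ U, M i j = 1) : (sb M U).charpoly.IsRoot 1 := by
  rw [Polynomial.IsRoot.def, Matrix.eval_charpoly]
  apply Matrix.exists_mulVec_eq_zero_iff.mp
  refine ⟨fun _ => 1, ?_, ?_⟩
  · obtain ⟨x, hx⟩ := hU
    intro h0
    have := congrFun h0 ⟨x, hx⟩
    simp at this
  · funext i
    have h1 : ∑ j : {x // x ∈ U}, M i j = 1 := by
      rw [← h i i.2]
      exact Finset.sum_coe_sort U fun j => M i j
    rw [Matrix.sub_mulVec]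
    simp only [Pi.sub_apply, Pi.zero_apply, Matrix.scalar_apply, Matrix.mulVec_diagonal]
    simp only [Matrix.mulVec, dotProduct, mul_one]
    rw [sub_eq_zero]
    exact h1.symm

theorem isRoot_row (M : Matrix ι ι R) {U : Finset ι} {r : ι} (hr : r ∈ U)
    (h : ∀ j ∈ U, j ≠ r → M r j = 0) : (sb M U).charpoly.IsRoot (M r r) := by
  rw [Polynomial.IsRoot.def, Matrix.eval_charpoly]
  apply Matrix.det_eq_zero_of_row_eq_zero ⟨r, hr⟩
  intro j
  rw [Matrix.sub_apply, Matrix.scalar_apply]
  by_cases hj : (j : ι) = r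
  · have : j = ⟨r, hr⟩ := Subtype.ext hj
    subst this
    rw [Matrix.diagonal_apply_eq]
    exact sub_self _
  · rw [Matrix.diagonal_apply_ne _ (fun he => hj (by rw [← he])), zero_sub, neg_eq_zero]
    exact h _ j.2 hj

theorem trace_le (M : Matrix ι ι ℝ) {U : Finset ι} {q : ℝ[X]} {L : Multiset ℝ}
    (hL : ∀ x ∈ L, 0 ≤ x) (hq : q.IsRoot 1)
    (h : (sb M U).charpoly * q = (L.map fun x => (X - C x : ℝ[X])).prod) :
    ∑ i ∈ U, M i i ≤ L.sum - 1 := by
  have hne : (L.map fun x => (X - C x : ℝ[X])).prod ≠ 0 :=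
    (monic_multiset_prod_of_monic _ _ fun x _ => monic_X_sub_C x).ne_zero
  have hne' : (sb M U).charpoly * q ≠ 0 := by rw [h]; exact hne
  have hq0 : q ≠ 0 := right_ne_zero_of_mul hne'
  have hroots : (sb M U).charpoly.roots + q.roots = L := by
    rw [← Polynomial.roots_mul hne', h, Polynomial.roots_multiset_prod_X_sub_C]
  have hsplit : (sb M U).charpoly.Splits := by
    refine Polynomial.Splits.of_dvd (g := (L.map fun x => (X - C x : ℝ[X])).prod) ?_ hne ?_
    · apply Polynomial.Splits.multisetProd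
      intro f hf
      rw [Multiset.mem_map] at hf
      obtain ⟨x, _, rfl⟩ := hf
      exact Polynomial.Splits.X_sub_C _
    · exact ⟨q, h.symm⟩
  have htr := Matrix.trace_eq_sum_roots_charpoly_of_splits hsplit
  rw [trace_sb] at htr
  have h1 : (1 : ℝ) ∈ q.roots := (Polynomial.mem_roots hq0).mpr hq
  obtain ⟨q', hq'⟩ := Multiset.exists_cons_of_mem h1
  have h2 : 0 ≤ q'.sum := by
    apply Multiset.sum_nonneg
    intro x hx
    apply hL
    rw [← hroots, hq']
    exact Multiset.mem_add.mpr (Or.inr (Multiset.mem_cons_of_mem hx))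
  rw [htr, ← hroots, Multiset.sum_add, hq', Multiset.sum_cons]
  linarith

end Pool.Agent.H70.AG
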