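import Mathlib
import Pool.Agent.H70.AG.Def

set_option autoImplicit false

/-! # Order of the strands, periodicity, linking numbers

`D.ev b a t`: `D.lm t = b`, `D.rm t = a` (at time `t` the strand `b` moves left over `a`).
PROOF. `pos_ne`: injectivity. `lm_ne_rm`: `adj`. `ev_pos`: `adj`, `step_lm`, `step_rm`.
`keep`: case analysis: whether `a`, `b` are `lm t` or `rm t` (not both by hypothesis); a strand that
moves changes its position by one and meets only the position of its partner; `omega` after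
instantiating `pos_ne` for the partner. `keep_Ico`: induction on the length of the interval
(`Int.le_induction`). `ev_per`, `cr_per`, `pos_per`: induction on the integer `z` from `per_pos`,
`per_lm`, `per_rm` (both directions; or first natural `z`, then subtract).
`lk_shift`: the number of `i < T` with `ev b a (t + i)` does not depend on `t`: it is enough to
compare `t` and `t + 1` (`Finset.sum_range_succ` and `Finset.sum_range_succ'` for the indicator
function `f (t + i)`, with `f (t + T) = f t`), induction over `t` in both directions.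
`lk_mul`: the number of `i < m * T` is `m * lk a b` (induction on `m`).
`lk_symm`: let `x t = 1` if `pos t a < pos t b`, else `0` (integers). For `a ≠ b`:
`x (t+1) - x t = (if ev a b t then 1 else 0) - (if ev b a t then 1 else 0)` (`keep`, `ev_pos`); sum
over a period: telescoping and `x T = x 0`. For `a = b` trivial.
`exists_ev`: by `lk_shift` the filtered set of the window is not empty. `no_cr`: if `lk a b = 0`
then the window `[t, t + T)` contains no `ev b a`, and by `lk_symm` no `ev a b`.
`exists_first`, `exists_last`: well-ordering of the integers bounded below / above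
(`Int.exists_least_of_bdd`, `Int.exists_greatest_of_bdd`). -/

namespace Pool.Agent.H70.AG

namespace Dia

variable {n : ℕ} (D : Dia n)

theorem pos_ne {a b : Fin n} (h : a ≠ b) (t : ℤ) : D.pos t a ≠ D.pos t b := by
  exact fun h1 => h (D.inj t h1)

theorem lm_ne_rm (t : ℤ) : D.lm t ≠ D.rm t := by
  intro h
  have h1 := D.adj t
  rw [h] at h1
  omega

variable {D}

theorem ev.ne {a b : Fin n} {t : ℤ} (h : D.ev b a t) : b ≠ a := by
  rw [← h.1, ← h.2]
  exact D.lm_ne_rm t

theorem ev.pos_lt {a b : Fin n} {t : ℤ} (h : D.ev b a t) : D.pos t a < D.pos t b := by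
  rw [← h.1, ← h.2, D.adj t]
  exact Nat.lt_succ_self _

theorem ev.adj {a b : Fin n} {t : ℤ} (h : D.ev b a t) : D.pos t b = D.pos t a + 1 := by
  rw [← h.1, ← h.2]
  exact D.adj t

theorem ev.pos_lt' {a b : Fin n} {t : ℤ} (h : D.ev b a t) : D.pos (t + 1) b < D.pos (t + 1) a := by
  rw [← h.1, ← h.2, D.step_lm, D.step_rm, D.adj t]
  exact Nat.lt_succ_self _

theorem cr_comm {a b : Fin n} {t : ℤ} : D.cr a b t ↔ D.cr b a t := by
  unfold cr
  exact or_comm

/-- Two crossings at the same time with a common strand are the same. -/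
theorem cr_unique {a b c : Fin n} {t : ℤ} (h1 : D.cr a b t) (h2 : D.cr a c t) : b = c := by
  have h3 := D.lm_ne_rm t
  rcases h1 with ⟨e1, e2⟩ | ⟨e1, e2⟩ <;> rcases h2 with ⟨e3, e4⟩ | ⟨e3, e4⟩
  · exact e2.symm.trans e4
  · exact absurd (e1.trans e4.symm) h3
  · exact absurd (e3.trans e2.symm) h3
  · exact e1.symm.trans e3

theorem cr_unique' {a b c d : Fin n} {t : ℤ} (h1 : D.ev a b t) (h2 : D.cr c d t) :
    (c = a ∧ d = b) ∨ (c = b ∧ d = a) := by
  obtain ⟨e1, e2⟩ := h1
  rcases h2 with ⟨e3, e4⟩ | ⟨e3, e4⟩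
  · exact Or.inl ⟨e3.symm.trans e1, e4.symm.trans e2⟩
  · exact Or.inr ⟨e4.symm.trans e2, e3.symm.trans e1⟩

/-- Strands which do not cross keep their order. -/
theorem keep {a b : Fin n} (hab : a ≠ b) {t : ℤ} (h : ¬ D.cr a b t) :
    D.pos (t + 1) a < D.pos (t + 1) b ↔ D.pos t a < D.pos t b := by
  have h0 := D.adj t
  have h1 := D.step_lm t
  have h2 := D.step_rm t
  have hp := D.pos_ne hab t
  by_cases a1 : a = D.lm t
  · by_cases b1 : b = D.rm t
    · exact absurd (Or.inl ⟨a1.symm, b1.symm⟩) h
    · have hb : b ≠ D.lm t := fun hb => hab (a1.trans hb.symm)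
      have h4 := D.step t b hb b1
      have h5 := D.pos_ne b1 t
      rw [a1, h1, h4]
      rw [a1] at hp
      omega
  · by_cases a2 : a = D.rm t
    · by_cases b1 : b = D.lm t
      · exact absurd (Or.inr ⟨b1.symm, a2.symm⟩) h
      · have hb : b ≠ D.rm t := fun hb => hab (a2.trans hb.symm)
        have h4 := D.step t b b1 hb
        have h5 := D.pos_ne b1 t
        rw [a2, h2, h4]
        rw [a2] at hp
        omega
    · have h4 := D.step t a a1 a2
      have h5 := D.pos_ne a1 t
      have h6 := D.pos_ne a2 t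
      by_cases b1 : b = D.lm t
      · rw [b1, h1, h4]
        omega
      · by_cases b2 : b = D.rm t
        · rw [b2, h2, h4]
          omega
        · rw [h4, D.step t b b1 b2]

theorem keep_Ico {a b : Fin n} (hab : a ≠ b) {t u : ℤ} (htu : t ≤ u)
    (h : ∀ v, t ≤ v → v < u → ¬ D.cr a b v) :
    D.pos u a < D.pos u b ↔ D.pos t a < D.pos t b := by
  induction u, htu using Int.leInduction with
  | base => rfl
  | succ u hu ih =>
    rw [keep hab (h u hu (by omega))]
    exact ih fun v h1 h2 => h v h1 (by omega)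

/-- A crossing of two strands in a known order. -/
theorem cr_of_lt {a b : Fin n} {t : ℤ} (h : D.cr a b t) (hp : D.pos t a < D.pos t b) :
    D.ev b a t := by
  rcases h with h | h
  · have h1 := h.pos_lt
    omega
  · exact h

variable (D)

theorem pos_per (t z : ℤ) : D.pos (t + z * D.T) = D.pos t := by
  have h : Function.Periodic D.pos (D.T : ℤ) := D.per_pos
  exact h.int_mul z t

theorem lm_per (t z : ℤ) : D.lm (t + z * D.T) = D.lm t := by
  have h : Function.Periodic D.lm (D.T : ℤ) := D.per_lm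
  exact h.int_mul z t

theorem rm_per (t z : ℤ) : D.rm (t + z * D.T) = D.rm t := by
  have h : Function.Periodic D.rm (D.T : ℤ) := D.per_rm
  exact h.int_mul z t

theorem ev_per (b a : Fin n) (t z : ℤ) : D.ev b a (t + z * D.T) ↔ D.ev b a t := by
  unfold ev
  rw [lm_per, rm_per]

theorem cr_per (b a : Fin n) (t z : ℤ) : D.cr b a (t + z * D.T) ↔ D.cr b a t := by
  unfold cr
  rw [ev_per, ev_per]

theorem lk_shift_one (a b : Fin n) (t : ℤ) :
    ((Finset.range D.T).filter fun i : ℕ => D.ev b a (t + 1 + i)).card =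
      ((Finset.range D.T).filter fun i : ℕ => D.ev b a (t + i)).card := by
  rw [Finset.card_filter, Finset.card_filter]
  have h1 := Finset.sum_range_succ (fun i : ℕ => if D.ev b a (t + i) then 1 else 0) D.T
  have h2 := Finset.sum_range_succ' (fun i : ℕ => if D.ev b a (t + i) then 1 else 0) D.T
  have h3 : (if D.ev b a (t + (D.T : ℕ)) then 1 else 0) =
      (if D.ev b a (t + ((0 : ℕ) : ℤ)) then 1 else 0) := by
    have h4 := D.ev_per b a t 1
    rw [one_mul] at h4
    rw [Nat.cast_zero, add_zero]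
    exact if_congr h4 rfl rfl
  have h4 : (∑ i ∈ Finset.range D.T, if D.ev b a (t + 1 + i) then 1 else 0) =
      ∑ i ∈ Finset.range D.T, if D.ev b a (t + ((i + 1 : ℕ) : ℤ)) then 1 else 0 := by
    refine Finset.sum_congr rfl fun i _ => ?_
    have h5 : t + 1 + (i : ℤ) = t + ((i + 1 : ℕ) : ℤ) := by
      push_cast
      ring
    rw [h5]
  rw [h4]
  omega

theorem lk_shift (a b : Fin n) (t : ℤ) :
    ((Finset.range D.T).filter fun i : ℕ => D.ev b a (t + i)).card = D.lk a b := by
  induction t using Int.induction_on with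
  | zero =>
    unfold lk
    simp only [zero_add]
  | succ i ih => rw [lk_shift_one, ih]
  | pred i ih =>
    rw [← ih, ← lk_shift_one, sub_add_cancel]

theorem lk_mul (a b : Fin n) (t : ℤ) (m : ℕ) :
    ((Finset.range (m * D.T)).filter fun i : ℕ => D.ev b a (t + i)).card = m * D.lk a b := by
  induction m with
  | zero => simp
  | succ m ih =>
    have h1 := D.lk_shift a b (t + m * D.T)
    rw [Finset.card_filter] at ih h1 ⊢
    rw [Nat.succ_mul, Finset.sum_range_add, ih, Nat.succ_mul, ← h1]
    congr 1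
    refine Finset.sum_congr rfl fun i _ => ?_
    have h5 : t + ((m * D.T + i : ℕ) : ℤ) = t + m * D.T + i := by
      push_cast
      ring
    rw [h5]

theorem lk_symm (a b : Fin n) : D.lk a b = D.lk b a := by
  by_cases hab : a = b
  · rw [hab]
  have h1 : ∀ t : ℤ, ((if D.pos (t + 1) a < D.pos (t + 1) b then 1 else 0 : ℤ) -
      if D.pos t a < D.pos t b then 1 else 0) =
      (if D.ev a b t then 1 else 0) - if D.ev b a t then 1 else 0 := by
    intro t
    by_cases h2 : D.ev a b t
    · have h3 : ¬ D.ev b a t := fun h3 => by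
        have h4 := h2.pos_lt
        have h5 := h3.pos_lt
        omega
      have h4 := h2.pos_lt
      have h5 := h2.pos_lt'
      rw [if_pos h2, if_neg h3, if_pos h5, if_neg (by omega)]
    · by_cases h3 : D.ev b a t
      · have h4 := h3.pos_lt
        have h5 := h3.pos_lt'
        rw [if_neg h2, if_pos h3, if_neg (by omega), if_pos h4]
      · have h4 : ¬ D.cr a b t := fun h4 => h4.elim h2 h3
        have h5 := keep hab h4
        rw [if_neg h2, if_neg h3]
        by_cases h6 : D.pos t a < D.pos t b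
        · rw [if_pos h6, if_pos (h5.2 h6)]
          ring
        · rw [if_neg h6, if_neg fun h7 => h6 (h5.1 h7)]
  have h2 := Finset.sum_range_sub
    (fun i : ℕ => (if D.pos (i : ℤ) a < D.pos (i : ℤ) b then 1 else 0 : ℤ)) D.T
  have h3 : D.pos ((D.T : ℕ) : ℤ) = D.pos ((0 : ℕ) : ℤ) := by
    have h4 := D.per_pos 0
    rw [zero_add] at h4
    exact h4
  simp only [h3, sub_self] at h2
  have h4 : ∀ i ∈ Finset.range D.T,
      ((if D.pos ((i + 1 : ℕ) : ℤ) a < D.pos ((i + 1 : ℕ) : ℤ) b then 1 else 0 : ℤ) -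
        if D.pos (i : ℤ) a < D.pos (i : ℤ) b then 1 else 0) =
      (if D.ev a b i then 1 else 0) - if D.ev b a i then 1 else 0 := by
    intro i _
    rw [← h1 i, Nat.cast_succ]
  rw [Finset.sum_congr rfl h4, Finset.sum_sub_distrib] at h2
  have h5 : (∑ i ∈ Finset.range D.T, if D.ev a b i then (1 : ℤ) else 0) = D.lk b a := by
    unfold lk
    rw [Finset.card_filter]
    push_cast
    rfl
  have h6 : (∑ i ∈ Finset.range D.T, if D.ev b a i then (1 : ℤ) else 0) = D.lk a b := by
    unfold lk
    rw [Finset.card_filter]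
    push_cast
    rfl
  rw [h5, h6] at h2
  omega

theorem exists_ev {a b : Fin n} (h : 0 < D.lk a b) (t : ℤ) :
    ∃ u, t ≤ u ∧ u < t + D.T ∧ D.ev b a u := by
  rw [← D.lk_shift a b t, Finset.card_pos] at h
  obtain ⟨i, hi⟩ := h
  rw [Finset.mem_filter, Finset.mem_range] at hi
  exact ⟨t + i, by omega, by omega, hi.2⟩

theorem no_ev {a b : Fin n} (h : D.lk a b = 0) (t : ℤ) : ¬ D.ev b a t := by
  intro h1
  rw [← D.lk_shift a b t, Finset.card_eq_zero] at h
  have h2 : (0 : ℕ) ∈ (Finset.range D.T).filter fun i : ℕ => D.ev b a (t + i) := by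
    rw [Finset.mem_filter, Finset.mem_range, Nat.cast_zero, add_zero]
    exact ⟨D.hT, h1⟩
  rw [h] at h2
  exact absurd h2 (Finset.notMem_empty _)

theorem no_cr {a b : Fin n} (h : D.lk a b = 0) (t : ℤ) : ¬ D.cr a b t := by
  rintro (h1 | h1)
  · exact D.no_ev (D.lk_symm a b ▸ h) t h1
  · exact D.no_ev h t h1

theorem lk_self (a : Fin n) : D.lk a a = 0 := by
  unfold lk
  rw [Finset.card_eq_zero, Finset.filter_eq_empty_iff]
  intro i _ h
  exact h.ne rfl

end Dia

theorem exists_first {P : ℤ → Prop} {t : ℤ} (h : ∃ u, t ≤ u ∧ P u) :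
    ∃ u, t ≤ u ∧ P u ∧ ∀ v, t ≤ v → v < u → ¬ P v := by
  obtain ⟨u, ⟨h1, h2⟩, h3⟩ := Int.exists_least_of_bdd (P := fun u => t ≤ u ∧ P u)
    ⟨t, fun z hz => hz.1⟩ h
  refine ⟨u, h1, h2, fun v hv hvu hP => ?_⟩
  have h4 := h3 v ⟨hv, hP⟩
  omega

theorem exists_last {P : ℤ → Prop} {t : ℤ} (h : ∃ u, u < t ∧ P u) :
    ∃ u, u < t ∧ P u ∧ ∀ v, u < v → v < t → ¬ P v := by
  obtain ⟨u, ⟨h1, h2⟩, h3⟩ := Int.exists_greatest_of_bdd (P := fun u => u < t ∧ P u)
    ⟨t, fun z hz => hz.1.le⟩ h
  refine ⟨u, h1, h2, fun v hv hvt hP => ?_⟩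
  have h4 := h3 v ⟨hvt, hP⟩
  omega

end Pool.Agent.H70.AG
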