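import Mathlib
import Pool.Agent.H70.AG.Ord

set_option autoImplicit false

/-! # The walk matrices: composition, periodicity, positivity, row sums

`D.E s t i j`: `i = rm t`: `s (lm t)` at `j = rm t`, `1 - s (lm t)` at `j = lm t`, else `0`; the
other rows are those of the identity. `D.W s t (m+1) = D.E s (t+m) * D.W s t m`.
PROOF. `W_add`: induction on `b` (`Nat.add_assoc`, casts). `E_per`, `W_per`: `rm_per`, `lm_per`.
`W_pow`: `W_add` and `W_per` by induction on `m`. `E_nonneg`, `W_nonneg`: entries, products.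
`E_row`: the row sum is `1` (`Finset.sum_ite_eq`, `lm_ne_rm`), `W_row`: `Matrix.mul_apply`,
`Finset.sum_comm`. `charpoly_base`: it is enough to treat `0 ≤ r < T` (write `t = r + z * T` with
`Int.emod_add_ediv`, use `W_per`) and `m ≥ 1` (`m = 0`: both are `1`). With `A = W s 0 r`,
`B = W s r (m T - r)`: `W s 0 (m T) = B * A` and
`W s r (m T) = W s (m T) r * B = A * B` (`W_add`, `W_per`), and
`Matrix.charpoly_mul_comm`. -/

namespace Pool.Agent.H70.AG

namespace Dia

variable {n : ℕ} (D : Dia n) (s : Fin n → ℝ)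

/-- The one step matrix off the row of the right mover. -/
theorem E_of_ne {t : ℤ} {i : Fin n} (h : i ≠ D.rm t) (j : Fin n) :
    D.E s t i j = if i = j then 1 else 0 := by
  unfold Dia.E
  rw [if_neg h]

theorem E_rm (t : ℤ) : D.E s t (D.rm t) (D.rm t) = s (D.lm t) := by
  unfold Dia.E
  rw [if_pos rfl, if_pos rfl, if_neg (D.lm_ne_rm t).symm, add_zero]

theorem E_go (t : ℤ) : D.E s t (D.rm t) (D.lm t) = 1 - s (D.lm t) := by
  unfold Dia.E
  rw [if_pos rfl, if_neg (D.lm_ne_rm t), if_pos rfl, zero_add]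

theorem E_other {t : ℤ} {j : Fin n} (h1 : j ≠ D.rm t) (h2 : j ≠ D.lm t) :
    D.E s t (D.rm t) j = 0 := by
  unfold Dia.E
  rw [if_pos rfl, if_neg h1, if_neg h2, add_zero]

theorem E_mul_ne {t : ℤ} {i : Fin n} (h : i ≠ D.rm t) (M : Matrix (Fin n) (Fin n) ℝ)
    (j : Fin n) : (D.E s t * M) i j = M i j := by
  rw [Matrix.mul_apply, Finset.sum_eq_single i]
  · rw [E_of_ne D s h, if_pos rfl, one_mul]
  · intro k _ hk
    rw [E_of_ne D s h, if_neg hk.symm, zero_mul]
  · simp

theorem E_mul_rm (t : ℤ) (M : Matrix (Fin n) (Fin n) ℝ) (j : Fin n) :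
    (D.E s t * M) (D.rm t) j = s (D.lm t) * M (D.rm t) j + (1 - s (D.lm t)) * M (D.lm t) j := by
  rw [Matrix.mul_apply, ← Finset.add_sum_erase _ _ (Finset.mem_univ (D.rm t)),
    ← Finset.add_sum_erase _ _ (Finset.mem_erase.mpr ⟨D.lm_ne_rm t, Finset.mem_univ (D.lm t)⟩),
    E_rm, E_go, Finset.sum_eq_zero, add_zero]
  intro k hk
  rw [Finset.mem_erase, Finset.mem_erase] at hk
  rw [E_other D s hk.2.1 hk.1, zero_mul]

theorem W_succ' (t : ℤ) (m : ℕ) : D.W s t (m + 1) = D.E s (t + m) * D.W s t m := rfl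

theorem W_one (t : ℤ) : D.W s t 1 = D.E s t := by
  rw [W_succ']
  simp [Dia.W]

theorem W_add (t : ℤ) (a b : ℕ) : D.W s t (a + b) = D.W s (t + a) b * D.W s t a := by
  induction b with
  | zero => simp [Dia.W]
  | succ b ih =>
    rw [← Nat.add_assoc, W_succ', ih, W_succ', mul_assoc]
    congr 2
    push_cast
    ring

theorem E_per (t z : ℤ) : D.E s (t + z * D.T) = D.E s t := by
  unfold Dia.E
  rw [D.lm_per, D.rm_per]

theorem W_per (t z : ℤ) (m : ℕ) : D.W s (t + z * D.T) m = D.W s t m := by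
  induction m with
  | zero => rfl
  | succ m ih =>
    rw [W_succ', W_succ', ih, show t + z * (D.T : ℤ) + m = t + m + z * D.T by ring, E_per]

theorem W_pow (t : ℤ) (m : ℕ) : D.W s t (m * D.T) = D.W s t D.T ^ m := by
  induction m with
  | zero => simp [Dia.W]
  | succ m ih =>
    have h1 : t + ((m * D.T : ℕ) : ℤ) = t + (m : ℤ) * D.T := by push_cast; ring
    rw [Nat.succ_mul, W_add, h1, W_per, ih, pow_succ']

theorem E_row (t : ℤ) (i : Fin n) : ∑ j, D.E s t i j = 1 := by
  by_cases hi : i = D.rm t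
  · subst hi
    have h1 := E_mul_rm D s t (Matrix.of fun _ _ => (1 : ℝ)) (D.rm t)
    rw [Matrix.mul_apply] at h1
    simp only [Matrix.of_apply, mul_one] at h1
    rw [h1]
    ring
  · have h1 := E_mul_ne D s hi (Matrix.of fun _ _ => (1 : ℝ)) (D.rm t)
    rw [Matrix.mul_apply] at h1
    simp only [Matrix.of_apply, mul_one] at h1
    rw [h1]

theorem W_row (t : ℤ) (m : ℕ) (i : Fin n) : ∑ j, D.W s t m i j = 1 := by
  induction m generalizing i with
  | zero => simp [Dia.W, Matrix.one_apply]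
  | succ m ih =>
    simp only [W_succ', Matrix.mul_apply]
    rw [Finset.sum_comm]
    simp only [← Finset.mul_sum, ih, mul_one]
    exact E_row D s _ i

theorem charpoly_step (t : ℤ) (m : ℕ) :
    (D.W s (t + 1) (m * D.T)).charpoly = (D.W s t (m * D.T)).charpoly := by
  rcases Nat.eq_zero_or_pos (m * D.T) with h | h
  · rw [h]
    rfl
  · obtain ⟨k, hk⟩ : ∃ k, m * D.T = k + 1 := ⟨m * D.T - 1, by omega⟩
    have h1 : D.W s (t + 1) (m * D.T) = D.E s t * D.W s (t + 1) k := by
      rw [hk, W_succ']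
      congr 1
      rw [← E_per D s t (m : ℤ)]
      congr 1
      have : ((m * D.T : ℕ) : ℤ) = ((k + 1 : ℕ) : ℤ) := by rw [hk]
      push_cast at this
      linarith
    have h2 : D.W s t (m * D.T) = D.W s (t + 1) k * D.E s t := by
      rw [hk, Nat.add_comm k 1, W_add, W_one]
      congr 1
    rw [h1, h2, Matrix.charpoly_mul_comm]

theorem charpoly_base (t : ℤ) (m : ℕ) :
    (D.W s t (m * D.T)).charpoly = (D.W s 0 (m * D.T)).charpoly := by
  induction t using Int.induction_on with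
  | zero => rfl
  | succ i ih => rw [charpoly_step, ih]
  | pred i ih =>
    rw [← ih, ← charpoly_step D s (-(i : ℤ) - 1) m]
    congr 2
    ring

variable {s}

theorem E_nonneg (h0 : ∀ i, 0 ≤ s i) (h1 : ∀ i, s i ≤ 1) (t : ℤ) (i j : Fin n) :
    0 ≤ D.E s t i j := by
  by_cases hi : i = D.rm t
  · subst hi
    by_cases h2 : j = D.rm t
    · rw [h2, E_rm]
      exact h0 _
    · by_cases h3 : j = D.lm t
      · rw [h3, E_go]
        linarith [h1 (D.lm t)]
      · rw [E_other D s h2 h3]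
  · rw [E_of_ne D s hi]
    split_ifs <;> norm_num

theorem W_nonneg (h0 : ∀ i, 0 ≤ s i) (h1 : ∀ i, s i ≤ 1) (t : ℤ) (m : ℕ) (i j : Fin n) :
    0 ≤ D.W s t m i j := by
  induction m generalizing i j with
  | zero =>
    simp only [Dia.W, Matrix.one_apply]
    split_ifs <;> norm_num
  | succ m ih =>
    rw [W_succ', Matrix.mul_apply]
    exact Finset.sum_nonneg fun k _ => mul_nonneg (E_nonneg D h0 h1 _ _ _) (ih _ _)

end Dia

end Pool.Agent.H70.AG
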