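import Mathlib
import Pool.Agent.H70.AG.Wk

set_option autoImplicit false

/-! # Lower bounds for entries of walk matrices

`D.stw s i t m`: the weight of the walk that stays on the strand `i` over the times
`t, ..., t + m - 1`.
PROOF. `stw_le`: induction on `m`: `W s t (m+1) i i ≥ E s (t+m) i i * W s t m i i`
(`Finset.single_le_sum` with `W_nonneg`, `E_nonneg`), and `E i i` is the factor of `stw`.
`W_ge`, `W_ge_two`: `W_add`, `Matrix.mul_apply`, one resp. two terms of a sum of nonnegative terms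
(`Finset.single_le_sum`; for two terms `Finset.sum_le_sum_of_subset_of_nonneg` with `{l, l'}`).
`stw_mul`: the product over `m` periods: `∏ over j of (if rm = i then s (lm) else 1)
= ∏ b, s b ^ #{j | ev b i (t+j)}`: for each `j` the factor is
`∏ b, (if ev b i (t+j) then s b else 1)` (`Finset.prod_ite_eq`-like), exchange the products
(`Finset.prod_comm`), `Finset.prod_ite`, `Finset.prod_const`, `lk_mul`.
`stw_pos`: product of positive numbers. `stw_ge`: every factor is at least
`1/2 * (if ev k i (t+j) then s k else 1)`; `Finset.prod_le_prod`, `Finset.prod_mul_distrib`,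
`Finset.prod_const`, `Finset.prod_ite`. -/

namespace Pool.Agent.H70.AG

namespace Dia

variable {n : ℕ} (D : Dia n) (s : Fin n → ℝ)

/-- The weight of the walk that stays on the strand `i`. -/
noncomputable def stw (i : Fin n) (t : ℤ) (m : ℕ) : ℝ :=
  ∏ j ∈ Finset.range m, if D.rm (t + j) = i then s (D.lm (t + j)) else 1

theorem stw_add (i : Fin n) (t : ℤ) (a b : ℕ) :
    D.stw s i t (a + b) = D.stw s i t a * D.stw s i (t + a) b := by
  unfold stw
  rw [Finset.prod_range_add]
  congr 1
  apply Finset.prod_congr rfl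
  intro j _
  push_cast
  rw [add_assoc]

theorem stw_mul (i : Fin n) (t : ℤ) (m : ℕ) :
    D.stw s i t (m * D.T) = ∏ b, s b ^ (m * D.lk i b) := by
  unfold stw
  have h1 : ∀ v ∈ Finset.range (m * D.T), (if D.rm (t + v) = i then s (D.lm (t + v)) else 1)
      = ∏ b, if D.ev b i (t + (v : ℤ)) then s b else 1 := by
    intro v _
    unfold Dia.ev
    by_cases h : D.rm (t + (v : ℤ)) = i
    · rw [if_pos h, Finset.prod_eq_single (D.lm (t + (v : ℤ)))]
      · rw [if_pos ⟨rfl, h⟩]
      · intro b _ hb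
        rw [if_neg (fun hh => hb hh.1.symm)]
      · simp
    · rw [if_neg h, Finset.prod_eq_one]
      intro b _
      rw [if_neg (fun hh => h hh.2)]
  rw [Finset.prod_congr rfl h1, Finset.prod_comm]
  apply Finset.prod_congr rfl
  intro b _
  rw [Finset.prod_ite, Finset.prod_const, Finset.prod_const_one, mul_one, D.lk_mul]

theorem stw_succ (i : Fin n) (t : ℤ) (m : ℕ) : D.stw s i t (m + 1)
    = D.stw s i t m * if D.rm (t + m) = i then s (D.lm (t + m)) else 1 := by
  unfold stw
  rw [Finset.prod_range_succ]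

variable {s}

theorem stw_nonneg (h0 : ∀ i, 0 ≤ s i) (i : Fin n) (t : ℤ) (m : ℕ) : 0 ≤ D.stw s i t m := by
  unfold stw
  apply Finset.prod_nonneg
  intro j _
  split_ifs
  · exact h0 _
  · exact zero_le_one

theorem stw_le (h0 : ∀ i, 0 ≤ s i) (h1 : ∀ i, s i ≤ 1) (i : Fin n) (t : ℤ) (m : ℕ) :
    D.stw s i t m ≤ D.W s t m i i := by
  induction m with
  | zero => simp [stw, Dia.W]
  | succ m ih =>
    rw [W_succ', stw_succ]
    by_cases h : D.rm (t + m) = i
    · rw [if_pos h, ← h, E_mul_rm]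
      rw [← h] at ih
      have h2 : 0 ≤ (1 - s (D.lm (t + m))) * D.W s t m (D.lm (t + m)) (D.rm (t + m)) :=
        mul_nonneg (by linarith [h1 (D.lm (t + m))]) (W_nonneg D h0 h1 _ _ _ _)
      have h3 := mul_le_mul_of_nonneg_left ih (h0 (D.lm (t + m)))
      linarith
    · rw [if_neg h, mul_one, E_mul_ne D s (fun hh => h hh.symm)]
      exact ih

theorem stw_pos {i : Fin n} {t : ℤ} {m : ℕ}
    (h : ∀ j : ℕ, j < m → D.rm (t + j) = i → 0 < s (D.lm (t + j))) : 0 < D.stw s i t m := by
  unfold stw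
  apply Finset.prod_pos
  intro j hj
  rw [Finset.mem_range] at hj
  by_cases hi : D.rm (t + j) = i
  · rw [if_pos hi]
    exact h j hj hi
  · rw [if_neg hi]
    exact zero_lt_one

theorem stw_ge {i k : Fin n} {t : ℤ} {m : ℕ} (hk : 0 ≤ s k)
    (h : ∀ j : ℕ, j < m → D.rm (t + j) = i → D.lm (t + j) ≠ k → 1 / 2 ≤ s (D.lm (t + j))) :
    (1 / 2 : ℝ) ^ m * s k ^ (((Finset.range m).filter fun j : ℕ => D.ev k i (t + j)).card)
      ≤ D.stw s i t m := by
  have e1 : (1 / 2 : ℝ) ^ m * s k ^ (((Finset.range m).filter fun j : ℕ => D.ev k i (t + j)).card)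
      = ∏ j ∈ Finset.range m, ((1 / 2 : ℝ) * if D.ev k i (t + (j : ℤ)) then s k else 1) := by
    rw [Finset.prod_mul_distrib, Finset.prod_const, Finset.card_range, Finset.prod_ite,
      Finset.prod_const, Finset.prod_const_one, mul_one]
  rw [e1]
  unfold stw
  apply Finset.prod_le_prod
  · intro j _
    split_ifs
    · positivity
    · norm_num
  · intro j hj
    rw [Finset.mem_range] at hj
    by_cases hr : D.rm (t + j) = i
    · rw [if_pos hr]
      by_cases hl : D.lm (t + j) = k
      · rw [if_pos ⟨hl, hr⟩, hl]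
        linarith
      · rw [if_neg (fun hh => hl hh.1), mul_one]
        exact h j hj hr hl
    · rw [if_neg hr, if_neg (fun hh => hr hh.2)]
      norm_num

theorem W_ge (h0 : ∀ i, 0 ≤ s i) (h1 : ∀ i, s i ≤ 1) (t : ℤ) (a b : ℕ) (i l j : Fin n) :
    D.W s (t + a) b i l * D.W s t a l j ≤ D.W s t (a + b) i j := by
  rw [W_add, Matrix.mul_apply]
  exact Finset.single_le_sum (f := fun k => D.W s (t + a) b i k * D.W s t a k j)
    (fun k _ => mul_nonneg (W_nonneg D h0 h1 _ _ _ _) (W_nonneg D h0 h1 _ _ _ _))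
    (Finset.mem_univ l)

theorem W_ge_two (h0 : ∀ i, 0 ≤ s i) (h1 : ∀ i, s i ≤ 1) (t : ℤ) (a b : ℕ) (i j : Fin n)
    {l l' : Fin n} (hl : l ≠ l') :
    D.W s (t + a) b i l * D.W s t a l j + D.W s (t + a) b i l' * D.W s t a l' j
      ≤ D.W s t (a + b) i j := by
  rw [W_add, Matrix.mul_apply]
  have h2 : ∀ x : Fin n, 0 ≤ D.W s (t + a) b i x * D.W s t a x j := fun x =>
    mul_nonneg (W_nonneg D h0 h1 _ _ _ _) (W_nonneg D h0 h1 _ _ _ _)
  have h3 := Finset.sum_le_sum_of_subset_of_nonneg (Finset.subset_univ {l, l'})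
    (f := fun x => D.W s (t + a) b i x * D.W s t a x j) (fun x _ _ => h2 x)
  rwa [Finset.sum_pair hl] at h3

end Dia

end Pool.Agent.H70.AG
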