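import Mathlib
import Pool.Agent.H70.AG.Stay
import Pool.Agent.H70.AG.Blk

set_option autoImplicit false

/-! # Walks with colours different from `1` only on a set `S` of strands

Hypothesis `hS : ∀ j, j ∉ S → s j = 1`.
PROOF. `E_closed` (`i ∈ S`, `j ∉ S`): `i ≠ j`; only `i = rm t`, `j = lm t` could be nonzero, the
entry is `1 - s j = 0`. `W_closed`: induction on `m`, `Matrix.mul_apply`, each summand vanishes
(intermediate strand in `S` or not). `W_off` (`i ∉ S`, `j ∉ S`, `i ≠ j`): induction on `m`: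
`∑ l, E (t+m) i l * W s t m l j`: for `l = i` the second factor is `0` by induction; for `l ≠ i` the
first factor is nonzero only for `l = lm`, `i = rm`, with value `1 - s l`, so `l ∈ S`, and then
`W s t m l j = 0` by `W_closed`. `W_off_diag` (`i ∉ S`): the same induction, only `l = i`
contributes: `W s t (m+1) i i = E (t+m) i i * W s t m i i`, so `W s t m i i = stw s i t m`.
`charpoly_off`: `charpoly_univ`, `charpoly_split` with `U = S`, `V = univ \ S` (= `Sᶜ`),
`charpoly_diag` for `V`, and `stw_mul`. -/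

namespace Pool.Agent.H70.AG

open Polynomial

namespace Dia

variable {n : ℕ} (D : Dia n) {s : Fin n → ℝ} {S : Finset (Fin n)}

theorem E_closed (hS : ∀ j, j ∉ S → s j = 1) (t : ℤ) {i j : Fin n} (hi : i ∈ S) (hj : j ∉ S) :
    D.E s t i j = 0 := by
  have hij : i ≠ j := fun h => hj (h ▸ hi)
  by_cases h : i = D.rm t
  · subst h
    by_cases h1 : j = D.lm t
    · rw [h1, E_go, hS _ (h1 ▸ hj), sub_self]
    · exact E_other D s hij.symm h1
  · rw [E_of_ne D s h, if_neg hij]

theorem W_closed (hS : ∀ j, j ∉ S → s j = 1) (t : ℤ) (m : ℕ) {i j : Fin n} (hi : i ∈ S)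
    (hj : j ∉ S) : D.W s t m i j = 0 := by
  induction m generalizing i with
  | zero =>
    simp only [Dia.W, Matrix.one_apply]
    rw [if_neg]
    rintro rfl
    exact hj hi
  | succ m ih =>
    rw [W_succ']
    by_cases h : i = D.rm (t + m)
    · rw [h] at hi ⊢
      rw [E_mul_rm, ih hi, mul_zero, zero_add]
      by_cases hl : D.lm (t + m) ∈ S
      · rw [ih hl, mul_zero]
      · rw [hS _ hl, sub_self, zero_mul]
    · rw [E_mul_ne D s h, ih hi]

theorem W_off (hS : ∀ j, j ∉ S → s j = 1) (t : ℤ) (m : ℕ) {i j : Fin n} (hi : i ∉ S)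
    (hj : j ∉ S) (hij : i ≠ j) : D.W s t m i j = 0 := by
  induction m generalizing i with
  | zero =>
    simp only [Dia.W, Matrix.one_apply]
    rw [if_neg hij]
  | succ m ih =>
    rw [W_succ']
    by_cases h : i = D.rm (t + m)
    · rw [h] at hi hij ⊢
      rw [E_mul_rm, ih hi hij, mul_zero, zero_add]
      by_cases hl : D.lm (t + m) ∈ S
      · rw [W_closed D hS t m hl hj, mul_zero]
      · rw [hS _ hl, sub_self, zero_mul]
    · rw [E_mul_ne D s h, ih hi hij]

theorem W_off_diag (hS : ∀ j, j ∉ S → s j = 1) (t : ℤ) (m : ℕ) {i : Fin n} (hi : i ∉ S) :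
    D.W s t m i i = D.stw s i t m := by
  induction m with
  | zero => simp [stw, Dia.W]
  | succ m ih =>
    rw [W_succ', stw_succ]
    by_cases h : D.rm (t + m) = i
    · rw [if_pos h, ← h, E_mul_rm]
      rw [← h] at ih hi
      rw [ih]
      have h1 : (1 - s (D.lm (t + m))) * D.W s t m (D.lm (t + m)) (D.rm (t + m)) = 0 := by
        by_cases hl : D.lm (t + m) ∈ S
        · rw [W_closed D hS t m hl hi, mul_zero]
        · rw [hS _ hl, sub_self, zero_mul]
      rw [h1, add_zero, mul_comm]
    · rw [if_neg h, mul_one, E_mul_ne D s (fun hh => h hh.symm), ih]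

theorem charpoly_off (hS : ∀ j, j ∉ S → s j = 1) (t : ℤ) (m : ℕ) :
    (D.W s t (m * D.T)).charpoly = (sb (D.W s t (m * D.T)) S).charpoly *
      ∏ i ∈ Sᶜ, (X - C (∏ b, s b ^ (m * D.lk i b))) := by
  have h0 : (D.W s t (m * D.T)).charpoly = (sb (D.W s t (m * D.T)) (S ∪ Sᶜ)).charpoly := by
    rw [Finset.union_compl, charpoly_univ]
  rw [h0, charpoly_split _ disjoint_compl_right
    (fun i hi j hj => W_closed D hS t _ hi (Finset.mem_compl.mp hj))]
  congr 1
  rw [charpoly_diag _ (fun i hi j hj hij =>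
    W_off D hS t _ (Finset.mem_compl.mp hi) (Finset.mem_compl.mp hj) hij)]
  apply Finset.prod_congr rfl
  intro i hi
  rw [W_off_diag D hS t _ (Finset.mem_compl.mp hi), stw_mul]

end Dia

end Pool.Agent.H70.AG
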