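import Mathlib

set_option autoImplicit false

/-! # Generic colours (Mathlib only)

PROOF of `exists_generic`. Let `B` be larger than all `e j`, `e ∈ V`, `j : Fin n`, and `B ≥ 2`.
Put `s j = (1/2) ^ (B ^ (j : ℕ))` for `j ∈ S` and `s j = 1` otherwise. For `e ∈ V` (vanishing off
`S`): `∏ j, s j ^ e j = (1/2) ^ (∑ j, e j * B ^ (j : ℕ))`; `(1/2) ^ x` is injective on natural
numbers, and the numbers `∑ j, e j * B ^ j` with digits `e j < B` determine the digits
(`Nat.ofDigits_inj_of_len_eq` for the lists `List.ofFn e`, or induction on `n` with `Fin.sum_univ_succ`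
and division with remainder by `B`). -/

namespace Pool.Agent.H70.AG

private lemma digits_inj (B : ℕ) : ∀ (n : ℕ) (e f : Fin n → ℕ), (∀ j, e j < B) → (∀ j, f j < B) →
    ∑ j, e j * B ^ (j : ℕ) = ∑ j, f j * B ^ (j : ℕ) → e = f := by
  intro n
  induction n with
  | zero =>
    intro e f _ _ _
    ext j
    exact j.elim0
  | succ n ih =>
    intro e f he hf h
    have hB : 0 < B := lt_of_le_of_lt (Nat.zero_le _) (he 0)
    rw [Fin.sum_univ_succ, Fin.sum_univ_succ] at h
    simp only [Fin.val_zero, pow_zero, mul_one, Fin.val_succ] at h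
    have h1 : ∀ g : Fin (n + 1) → ℕ, ∑ j : Fin n, g j.succ * B ^ ((j : ℕ) + 1)
        = B * ∑ j : Fin n, g j.succ * B ^ (j : ℕ) := by
      intro g
      rw [Finset.mul_sum]
      apply Finset.sum_congr rfl
      intro j _
      ring
    rw [h1 e, h1 f] at h
    have h0 : e 0 = f 0 := by
      have h2 := congrArg (· % B) h
      simp only [Nat.add_mul_mod_self_left] at h2
      rwa [Nat.mod_eq_of_lt (he 0), Nat.mod_eq_of_lt (hf 0)] at h2
    have h3 : ∑ j : Fin n, e j.succ * B ^ (j : ℕ) = ∑ j : Fin n, f j.succ * B ^ (j : ℕ) := by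
      rw [h0] at h
      exact Nat.eq_of_mul_eq_mul_left hB (Nat.add_left_cancel h)
    have h4 := ih (fun j => e j.succ) (fun j => f j.succ) (fun j => he _) (fun j => hf _) h3
    ext j
    refine Fin.cases h0 (fun i => ?_) j
    exact congrFun h4 i

theorem exists_generic {n : ℕ} (S : Finset (Fin n)) (V : Finset (Fin n → ℕ))
    (hV : ∀ e ∈ V, ∀ j, j ∉ S → e j = 0) :
    ∃ s : Fin n → ℝ, (∀ i, 0 < s i) ∧ (∀ i, s i ≤ 1) ∧ (∀ j, j ∉ S → s j = 1) ∧
      (∀ j ∈ S, s j < 1) ∧
      ∀ e ∈ V, ∀ f ∈ V, ∏ i, s i ^ (e i) = ∏ i, s i ^ (f i) → e = f := by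
  classical
  obtain ⟨B, hB0, hB⟩ : ∃ B : ℕ, 0 < B ∧ ∀ e ∈ V, ∀ j, e j < B := by
    refine ⟨(∑ e ∈ V, ∑ j, e j) + 1, by omega, fun e he j => ?_⟩
    have h1 : e j ≤ ∑ j, e j := Finset.single_le_sum (fun _ _ => Nat.zero_le _) (Finset.mem_univ j)
    have h2 : ∑ j, e j ≤ ∑ e ∈ V, ∑ j, e j :=
      Finset.single_le_sum (f := fun e : Fin n → ℕ => ∑ j, e j) (fun _ _ => Nat.zero_le _) he
    omega
  refine ⟨fun j => if j ∈ S then (1 / 2 : ℝ) ^ (B ^ (j : ℕ)) else 1, ?_, ?_, ?_, ?_, ?_⟩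
  · intro i
    beta_reduce
    split_ifs
    · positivity
    · norm_num
  · intro i
    beta_reduce
    split_ifs
    · exact pow_le_one₀ (by norm_num) (by norm_num)
    · exact le_rfl
  · intro j hj
    beta_reduce
    rw [if_neg hj]
  · intro j hj
    beta_reduce
    rw [if_pos hj]
    exact pow_lt_one₀ (by norm_num) (by norm_num) (pow_pos hB0 _).ne'
  · have key : ∀ e ∈ V, ∏ i, (if i ∈ S then (1 / 2 : ℝ) ^ (B ^ (i : ℕ)) else 1) ^ (e i)
        = (1 / 2 : ℝ) ^ (∑ j, e j * B ^ (j : ℕ)) := by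
      intro e he
      rw [← Finset.prod_pow_eq_pow_sum]
      apply Finset.prod_congr rfl
      intro i _
      by_cases hi : i ∈ S
      · rw [if_pos hi, ← pow_mul, mul_comm]
      · rw [if_neg hi, hV e he i hi, zero_mul, pow_zero, pow_zero]
    intro e he f hf hef
    rw [key e he, key f hf] at hef
    have hinj : Function.Injective (fun a : ℕ => (1 / 2 : ℝ) ^ a) :=
      pow_right_injective₀ (by norm_num) (by norm_num)
    exact digits_inj B n e f (hB e he) (hB f hf) (hinj hef)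

end Pool.Agent.H70.AG
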