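import Mathlib
import Pool.Agent.H70.AG.Cls
import Pool.Agent.H70.AG.Gnr

set_option autoImplicit false

/-! # The multiset of exponents of a set of strands

`res S e`: the vector `e` on `S`, `0` outside. `D.IsE S E`: the characteristic polynomial of the
block `S` of the walk matrix over `m` periods, with colours `1` off `S`, is the product of the
`X - s ^ (m e)`, `e ∈ E`.
PROOF of `exists_E`. Let `Ex` be the multiset of `Rigid`, `E0 = Ex.map (res S)` and
`L0 = Sᶜ.val.map fun i => res S (D.lk i)`. For `s` with `s j = 1` off `S` the products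
`∏ i, s i ^ (m * e i)` do not change when `e` is replaced by `res S e` (`prod_res`). So by `Rigid`,
`charpoly_base` and `charpoly_off`, for all such `s` in `[0,1]^n`, all `t`, `m`:
(1) `(sb (W s t (m T)) S).charpoly * (L0.map (X - s ^ (m e))).prod = (E0.map (X - s ^ (m e))).prod`.
Claim `L0 ≤ E0`: take `s` from `exists_generic` for `V = (E0 + L0).toFinset`, `m = 1`, `t = 0` in
(1) and compare roots (`Polynomial.roots_mul`, `Polynomial.roots_multiset_prod_X_sub_C`):
`L0.map v ≤ E0.map v` with `v e = ∏ i, s i ^ e i` injective on `V`; hence `L0 ≤ E0`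
(`Multiset.le_iff_count` and `Multiset.count_map_eq_count` for maps injective on the elements; if
`e ∈ L0` is not in `E0` its value is not in `E0.map v`). Put `E = E0 - L0`, `E0 = E + L0`
(`tsub_add_cancel_of_le`), and cancel the nonzero polynomial of `L0` in (1). -/

namespace Pool.Agent.H70.AG

open Polynomial

/-- Restriction of an exponent vector. -/
def res {n : ℕ} (S : Finset (Fin n)) (e : Fin n → ℕ) : Fin n → ℕ := fun j => if j ∈ S then e j else 0

theorem prod_res {n : ℕ} {S : Finset (Fin n)} {s : Fin n → ℝ} (hS : ∀ j, j ∉ S → s j = 1)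
    (e : Fin n → ℕ) (m : ℕ) : ∏ i, s i ^ (m * res S e i) = ∏ i, s i ^ (m * e i) := by
  refine Finset.prod_congr rfl fun i _ => ?_
  by_cases h : i ∈ S
  · rw [res, if_pos h]
  · rw [hS i h, one_pow, one_pow]

/-- counting is not changed by a map which is injective on the relevant elements -/
theorem count_map_of_inj {α β : Type*} [DecidableEq α] [DecidableEq β] {V : Finset α} {v : α → β}
    (hv : ∀ e ∈ V, ∀ f ∈ V, v e = v f → e = f) {M : Multiset α} (hM : ∀ e ∈ M, e ∈ V) {a : α}
    (ha : a ∈ V) : (M.map v).count (v a) = M.count a := by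
  rw [Multiset.count_map, Multiset.count_eq_card_filter_eq]
  congr 1
  refine Multiset.filter_congr fun x hx => ?_
  exact ⟨fun h => hv a ha x (hM x hx) h, fun h => by rw [h]⟩

/-- roots of a product of linear factors -/
theorem roots_factors {α : Type*} (M : Multiset α) (v : α → ℝ) :
    (M.map fun e => (X - C (v e) : ℝ[X])).prod.roots = M.map v := by
  have h := Polynomial.roots_multiset_prod_X_sub_C (M.map v)
  rw [Multiset.map_map] at h
  exact h

/-- Two multisets of vectors with the same linear factors for all colours are equal. -/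
theorem eq_of_factors {n : ℕ} {S : Finset (Fin n)} {E E' : Multiset (Fin n → ℕ)}
    (hE : ∀ e ∈ E, ∀ j, j ∉ S → e j = 0) (hE' : ∀ e ∈ E', ∀ j, j ∉ S → e j = 0)
    (h : ∀ s : Fin n → ℝ, (∀ i, 0 ≤ s i) → (∀ i, s i ≤ 1) → (∀ j, j ∉ S → s j = 1) →
      (E.map fun e => (X - C (∏ i, s i ^ (e i)) : ℝ[X])).prod
        = (E'.map fun e => (X - C (∏ i, s i ^ (e i)) : ℝ[X])).prod) : E = E' := by
  classical
  obtain ⟨s, h1, h2, h3, -, h5⟩ := exists_generic S (E + E').toFinset (fun e he => by
    rcases Multiset.mem_add.1 (Multiset.mem_toFinset.1 he) with h | h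
    · exact hE e h
    · exact hE' e h)
  have h6 := congrArg Polynomial.roots (h s (fun i => (h1 i).le) h2 h3)
  rw [roots_factors, roots_factors] at h6
  refine Multiset.ext.2 fun a => ?_
  by_cases ha : a ∈ (E + E').toFinset
  · rw [← count_map_of_inj (v := fun e => ∏ i, s i ^ (e i)) h5
      (fun e he => Multiset.mem_toFinset.2 (Multiset.mem_add.2 (Or.inl he))) ha,
      ← count_map_of_inj (v := fun e => ∏ i, s i ^ (e i)) h5
      (fun e he => Multiset.mem_toFinset.2 (Multiset.mem_add.2 (Or.inr he))) ha, h6]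
  · have h7 : a ∉ E ∧ a ∉ E' := by
      constructor
      · exact fun h => ha (Multiset.mem_toFinset.2 (Multiset.mem_add.2 (Or.inl h)))
      · exact fun h => ha (Multiset.mem_toFinset.2 (Multiset.mem_add.2 (Or.inr h)))
    rw [Multiset.count_eq_zero_of_notMem h7.1, Multiset.count_eq_zero_of_notMem h7.2]

namespace Dia

variable {n : ℕ} (D : Dia n)

/-- `E` is the multiset of exponents of the set `S` of strands. -/
def IsE (S : Finset (Fin n)) (E : Multiset (Fin n → ℕ)) : Prop :=
  (∀ e ∈ E, ∀ j, j ∉ S → e j = 0) ∧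
    ∀ (s : Fin n → ℝ), (∀ i, 0 ≤ s i) → (∀ i, s i ≤ 1) → (∀ j, j ∉ S → s j = 1) →
      ∀ (t : ℤ) (m : ℕ), (sb (D.W s t (m * D.T)) S).charpoly
        = (E.map fun e => (X - C (∏ i, s i ^ (m * e i)) : ℝ[X])).prod

variable {D}

theorem exists_E (h : D.Rigid) (S : Finset (Fin n)) : ∃ E, D.IsE S E := by
  classical
  obtain ⟨Ex, hEx⟩ := h
  set E0 : Multiset (Fin n → ℕ) := Ex.map (res S) with hE0
  set L0 : Multiset (Fin n → ℕ) := Sᶜ.val.map fun i => res S (D.lk i) with hL0
  have hres : ∀ (e : Fin n → ℕ) (j : Fin n), j ∉ S → res S e j = 0 := fun e j hj => by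
    rw [res, if_neg hj]
  have hE0S : ∀ e ∈ E0, ∀ j, j ∉ S → e j = 0 := by
    intro e he
    obtain ⟨e', -, rfl⟩ := Multiset.mem_map.1 he
    exact hres e'
  have hL0S : ∀ e ∈ L0, ∀ j, j ∉ S → e j = 0 := by
    intro e he
    obtain ⟨e', -, rfl⟩ := Multiset.mem_map.1 he
    exact hres _
  have key : ∀ (s : Fin n → ℝ), (∀ i, 0 ≤ s i) → (∀ i, s i ≤ 1) → (∀ j, j ∉ S → s j = 1) →
      ∀ (t : ℤ) (m : ℕ), (sb (D.W s t (m * D.T)) S).charpoly *
        (L0.map fun e => (X - C (∏ i, s i ^ (m * e i)) : ℝ[X])).prod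
        = (E0.map fun e => (X - C (∏ i, s i ^ (m * e i)) : ℝ[X])).prod := by
    intro s h0 h1 hS t m
    have e1 : (L0.map fun e => (X - C (∏ i, s i ^ (m * e i)) : ℝ[X])).prod =
        ∏ i ∈ Sᶜ, (X - C (∏ b, s b ^ (m * D.lk i b)) : ℝ[X]) := by
      rw [hL0, Multiset.map_map, Finset.prod_eq_multiset_prod]
      congr 1
      refine Multiset.map_congr rfl fun i _ => ?_
      show (X - C (∏ b, s b ^ (m * res S (D.lk i) b)) : ℝ[X]) = _
      rw [prod_res hS]
    have e2 : (E0.map fun e => (X - C (∏ i, s i ^ (m * e i)) : ℝ[X])).prod =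
        (Ex.map fun e => (X - C (∏ i, s i ^ (m * e i)) : ℝ[X])).prod := by
      rw [hE0, Multiset.map_map]
      congr 1
      refine Multiset.map_congr rfl fun e _ => ?_
      show (X - C (∏ b, s b ^ (m * res S e b)) : ℝ[X]) = _
      rw [prod_res hS]
    rw [e1, e2, ← hEx m s h0 h1, ← D.charpoly_base s t m, D.charpoly_off hS t m]
  have hle : L0 ≤ E0 := by
    obtain ⟨s, h1, h2, h3, -, h5⟩ := exists_generic S (E0 + L0).toFinset (fun e he => by
      rcases Multiset.mem_add.1 (Multiset.mem_toFinset.1 he) with h | h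
      · exact hE0S e h
      · exact hL0S e h)
    have h6 := key s (fun i => (h1 i).le) h2 h3 0 1
    simp only [one_mul] at h6
    have hne : (sb (D.W s 0 D.T) S).charpoly *
        (L0.map fun e => (X - C (∏ i, s i ^ (e i)) : ℝ[X])).prod ≠ 0 := by
      rw [h6]
      exact (Polynomial.monic_multiset_prod_of_monic _ _ fun e _ =>
        Polynomial.monic_X_sub_C _).ne_zero
    have h7 := congrArg Polynomial.roots h6
    rw [Polynomial.roots_mul hne, roots_factors, roots_factors] at h7
    rw [Multiset.le_iff_count]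
    intro a
    by_cases ha : a ∈ (E0 + L0).toFinset
    · rw [← count_map_of_inj (v := fun e => ∏ i, s i ^ (e i)) h5
        (fun e he => Multiset.mem_toFinset.2 (Multiset.mem_add.2 (Or.inr he))) ha,
        ← count_map_of_inj (v := fun e => ∏ i, s i ^ (e i)) h5
        (fun e he => Multiset.mem_toFinset.2 (Multiset.mem_add.2 (Or.inl he))) ha, ← h7]
      exact Multiset.count_le_of_le _ (Multiset.le_add_left _ _)
    · have h8 : a ∉ L0 := fun h =>
        ha (Multiset.mem_toFinset.2 (Multiset.mem_add.2 (Or.inr h)))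
      rw [Multiset.count_eq_zero_of_notMem h8]
      exact Nat.zero_le _
  refine ⟨E0 - L0, fun e he => hE0S e (Multiset.mem_of_le (tsub_le_self) he), ?_⟩
  intro s h0 h1 hS t m
  have h2 := key s h0 h1 hS t m
  have h3 : E0 = (E0 - L0) + L0 := (tsub_add_cancel_of_le hle).symm
  rw [h3, Multiset.map_add, Multiset.prod_add] at h2
  have hne : (L0.map fun e => (X - C (∏ i, s i ^ (m * e i)) : ℝ[X])).prod ≠ 0 :=
    (Polynomial.monic_multiset_prod_of_monic _ _ fun e _ => Polynomial.monic_X_sub_C _).ne_zero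
  exact mul_right_cancel₀ hne h2

end Dia

end Pool.Agent.H70.AG
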