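import Mathlib
import Pool.Agent.H70.AG.ExE

set_option autoImplicit false

/-! # Properties of the multiset of exponents

PROOF. `card_eq`: the degree of the characteristic polynomial is `S.card`
(`Matrix.charpoly_natDegree_eq_dim`, `Polynomial.natDegree_multiset_prod_X_sub_C_eq_card`), for any
`s` (for instance `s = 1`).
`zero_mem` (`S` nonempty): take `s j = 1/2` for `j ∈ S`, `1` otherwise, `m = 1`, `t = 0`. The block
`S` of `W s 0 T` has row sums `1` (`W_row`, `W_closed`: entries outside `S` vanish), so `1` is a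
root (`isRoot_one`), so some `e ∈ E` has `∏ i, s i ^ e i = 1`, hence `e j = 0` for `j ∈ S`
(otherwise the product is `≤ 1/2`), and `e = 0`.
`restrict` (`j ∈ S`): for `s` in `[0,1]^n` with `s = 1` off `S.erase j` (hence off `S`) compare the
two factorisations of `(W s 0 T).charpoly` from `charpoly_off` for `S` and for `S.erase j`
(`(S.erase j)ᶜ = insert j Sᶜ`), cancel the factors of `Sᶜ`:
`∏ over E of (X - s ^ e) = (X - s ^ (lk j)) * ∏ over E' of (X - s ^ e)`, replace `e` by
`res (S.erase j) e` (`prod_res` with `m = 1`), and use `eq_of_factors` for `S.erase j`.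
`coord` (`k ∈ S`): for the colours `s k = 1/2` and `1` otherwise (these are `1` off `S` and off
`{k}`), `m = 1`, `t = 0`: `charpoly_off` for `S` and for `{k}`:
`(sb W S).charpoly * ∏ i ∉ S, (X - (1/2)^(lk i k))
= (sb W {k}).charpoly * ∏ i ≠ k, (X - (1/2)^(lk i k))`, and `(sb W {k}).charpoly = X - C (W k k)`
(`charpoly_diag`), `W k k = 1` (row sum and `W_closed` for `{k}`). Cancel the factors of `Sᶜ`, so
`∏ over E of (X - (1/2)^(e k)) = (X - 1) * ∏ over a ∈ S.erase k of (X - (1/2)^(lk a k))`; the roots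
and the injectivity of `(1/2)^x` give the claim (`Multiset.map_injective`,
`Polynomial.roots_multiset_prod_X_sub_C`). -/

namespace Pool.Agent.H70.AG

open Polynomial

namespace Dia

variable {n : ℕ} {D : Dia n} {S : Finset (Fin n)} {E : Multiset (Fin n → ℕ)}

theorem IsE.card_eq (hE : D.IsE S E) : Multiset.card E = S.card := by
  have h1 := hE.2 (fun _ => 1) (fun _ => zero_le_one) (fun _ => le_rfl) (fun _ _ => rfl) 0 0
  have h2 := congrArg Polynomial.natDegree h1
  have h3 : (E.map fun e : Fin n → ℕ => (X - C (∏ i, (1 : ℝ) ^ (0 * e i)) : ℝ[X]))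
      = (E.map fun e : Fin n → ℕ => ∏ i, (1 : ℝ) ^ (0 * e i)).map (fun a => X - C a) := by
    rw [Multiset.map_map]
    rfl
  rw [Matrix.charpoly_natDegree_eq_dim, h3, Polynomial.natDegree_multiset_prod_X_sub_C_eq_card,
    Multiset.card_map, Fintype.card_coe] at h2
  exact h2.symm

/-- The row sums of the block of `S`. -/
theorem row_closed {s : Fin n → ℝ} (hS : ∀ j, j ∉ S → s j = 1) (t : ℤ) (m : ℕ) {i : Fin n}
    (hi : i ∈ S) : ∑ j ∈ S, D.W s t m i j = 1 := by
  rw [← W_row D s t m i]
  exact Finset.sum_subset (Finset.subset_univ _) fun j _ hj => W_closed D hS t _ hi hj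

theorem IsE.zero_mem (hE : D.IsE S E) (hS : S.Nonempty) : (0 : Fin n → ℕ) ∈ E := by
  set s : Fin n → ℝ := fun j => if j ∈ S then 1 / 2 else 1 with hs
  have h0 : ∀ i, 0 ≤ s i := fun i => by
    simp only [hs]
    split_ifs <;> norm_num
  have h1 : ∀ i, s i ≤ 1 := fun i => by
    simp only [hs]
    split_ifs <;> norm_num
  have hoff : ∀ j, j ∉ S → s j = 1 := fun j hj => by
    simp only [hs]
    rw [if_neg hj]
  have h2 := hE.2 s h0 h1 hoff 0 1
  have h3 : ((sb (D.W s 0 (1 * D.T)) S).charpoly).IsRoot 1 :=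
    isRoot_one _ hS fun i hi => row_closed hoff 0 _ hi
  rw [h2, Polynomial.IsRoot.def, Polynomial.eval_multiset_prod, Multiset.prod_eq_zero_iff,
    Multiset.mem_map] at h3
  obtain ⟨p, hp, hp0⟩ := h3
  rw [Multiset.mem_map] at hp
  obtain ⟨e, he, rfl⟩ := hp
  rw [Polynomial.eval_sub, Polynomial.eval_X, Polynomial.eval_C] at hp0
  have h4 : ∏ i, s i ^ (1 * e i) = 1 := by linarith
  have h5 : e = 0 := by
    funext j
    by_contra hj
    have hj' : e j ≠ 0 := hj
    have hjS : j ∈ S := by
      by_contra h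
      exact hj' (hE.1 e he j h)
    have h6 : ∏ i, s i ^ (1 * e i) ≤ 1 / 2 := by
      rw [← Finset.mul_prod_erase _ _ (Finset.mem_univ j)]
      have h7 : s j ^ (1 * e j) ≤ 1 / 2 := by
        have : s j = 1 / 2 := by simp only [hs]; rw [if_pos hjS]
        rw [this, one_mul]
        calc (1 / 2 : ℝ) ^ e j ≤ (1 / 2 : ℝ) ^ 1 :=
              pow_le_pow_of_le_one (by norm_num) (by norm_num) (Nat.pos_of_ne_zero hj')
          _ = 1 / 2 := by norm_num
      have h8 : ∏ i ∈ Finset.univ.erase j, s i ^ (1 * e i) ≤ 1 :=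
        Finset.prod_le_one (fun i _ => pow_nonneg (h0 i) _) fun i _ => pow_le_one₀ (h0 i) (h1 i)
      have h9 : 0 ≤ ∏ i ∈ Finset.univ.erase j, s i ^ (1 * e i) :=
        Finset.prod_nonneg fun i _ => pow_nonneg (h0 i) _
      have h10 : 0 ≤ s j ^ (1 * e j) := pow_nonneg (h0 j) _
      nlinarith
    rw [h4] at h6
    norm_num at h6
  rwa [h5] at he

/-- The factor of a multiset of vectors. -/
theorem map_X_sub_C (E : Multiset (Fin n → ℕ)) (v : (Fin n → ℕ) → ℝ) :
    (E.map fun e => (X - C (v e) : ℝ[X])) = (E.map v).map fun a => X - C a := by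
  rw [Multiset.map_map]
  rfl

theorem IsE.restrict (hE : D.IsE S E) {j : Fin n} (hj : j ∈ S) {E' : Multiset (Fin n → ℕ)}
    (hE' : D.IsE (S.erase j) E') :
    E.map (res (S.erase j)) = res (S.erase j) (D.lk j) ::ₘ E' := by
  have hres : ∀ e : Fin n → ℕ, ∀ i, i ∉ S.erase j → res (S.erase j) e i = 0 := fun e i hi => by
    unfold res
    rw [if_neg hi]
  refine eq_of_factors (S := S.erase j) ?_ ?_ ?_
  · intro e he i hi
    rw [Multiset.mem_map] at he
    obtain ⟨e', _, rfl⟩ := he
    exact hres e' i hi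
  · intro e he i hi
    rw [Multiset.mem_cons] at he
    rcases he with rfl | he
    · exact hres _ i hi
    · exact hE'.1 e he i hi
  · intro s h0 h1 hoff
    have hoff' : ∀ i, i ∉ S → s i = 1 := fun i hi =>
      hoff i fun h => hi (Finset.mem_of_mem_erase h)
    have e1 := D.charpoly_off hoff' 0 1
    have e2 := D.charpoly_off hoff 0 1
    rw [hE.2 s h0 h1 hoff' 0 1] at e1
    rw [hE'.2 s h0 h1 hoff 0 1] at e2
    have hcompl : (S.erase j)ᶜ = insert j Sᶜ := by
      rw [Finset.compl_erase]
    rw [hcompl, Finset.prod_insert (by simpa using hj)] at e2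
    rw [e2] at e1
    have hne : ∏ i ∈ Sᶜ, (X - C (∏ b, s b ^ (1 * D.lk i b)) : ℝ[X]) ≠ 0 :=
      (monic_prod_of_monic _ _ fun i _ => monic_X_sub_C _).ne_zero
    rw [← mul_assoc] at e1
    have e3 := mul_right_cancel₀ hne e1
    rw [Multiset.map_map, Multiset.map_cons, Multiset.prod_cons]
    have e4 : (E.map ((fun e : Fin n → ℕ => (X - C (∏ i, s i ^ (e i)) : ℝ[X])) ∘ res (S.erase j)))
        = E.map fun e => (X - C (∏ i, s i ^ (1 * e i)) : ℝ[X]) := by
      apply Multiset.map_congr rfl
      intro e _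
      have := prod_res hoff e 1
      simp only [one_mul] at this ⊢
      simp only [Function.comp_apply, this]
    have e5 : ∏ i, s i ^ (res (S.erase j) (D.lk j) i) = ∏ b, s b ^ (1 * D.lk j b) := by
      have := prod_res hoff (D.lk j) 1
      simpa only [one_mul] using this
    have e6 : (E'.map fun e => (X - C (∏ i, s i ^ (e i)) : ℝ[X]))
        = E'.map fun e => (X - C (∏ i, s i ^ (1 * e i)) : ℝ[X]) := by
      apply Multiset.map_congr rfl
      intro e _
      simp only [one_mul]
    rw [e4, e5, e6, ← e3, mul_comm]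

theorem IsE.coord (hE : D.IsE S E) {k : Fin n} (hk : k ∈ S) :
    E.map (fun e => e k) = 0 ::ₘ (S.erase k).val.map (fun a => D.lk a k) := by
  set s : Fin n → ℝ := fun j => if j = k then 1 / 2 else 1 with hs
  have h0 : ∀ i, 0 ≤ s i := fun i => by
    simp only [hs]
    split_ifs <;> norm_num
  have h1 : ∀ i, s i ≤ 1 := fun i => by
    simp only [hs]
    split_ifs <;> norm_num
  have hoffk : ∀ j, j ∉ ({k} : Finset (Fin n)) → s j = 1 := fun j hj => by
    simp only [hs]
    rw [if_neg (by simpa using hj)]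
  have hoff : ∀ j, j ∉ S → s j = 1 := fun j hj => by
    have hjk : j ≠ k := fun h => hj (h.symm ▸ hk)
    simp [hs, hjk]
  have hmon : ∀ e : Fin n → ℕ, ∏ i, s i ^ (1 * e i) = (1 / 2 : ℝ) ^ e k := by
    intro e
    rw [Finset.prod_eq_single k]
    · simp [hs]
    · intro i _ hi
      simp [hs, hi]
    · simp
  have e1 := D.charpoly_off hoff 0 1
  have e2 := D.charpoly_off hoffk 0 1
  rw [hE.2 s h0 h1 hoff 0 1] at e1
  have e3 : (sb (D.W s 0 (1 * D.T)) {k}).charpoly = X - C ((1 / 2 : ℝ) ^ 0) := by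
    rw [charpoly_diag _ (by
      intro i hi j hj hij
      rw [Finset.mem_singleton] at hi hj
      exact absurd (hi.trans hj.symm) hij), Finset.prod_singleton]
    have := row_closed (D := D) hoffk 0 (1 * D.T) (Finset.mem_singleton_self k)
    rw [Finset.sum_singleton] at this
    rw [this, pow_zero]
  rw [e3] at e2
  have hcompl : ({k} : Finset (Fin n))ᶜ = S.erase k ∪ Sᶜ := by
    ext i
    simp only [Finset.mem_compl, Finset.mem_singleton, Finset.mem_union, Finset.mem_erase]
    constructor
    · intro h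
      by_cases hi : i ∈ S
      · exact Or.inl ⟨h, hi⟩
      · exact Or.inr hi
    · rintro (⟨h, _⟩ | h)
      · exact h
      · rintro rfl
        exact h hk
  have hdisj : Disjoint (S.erase k) Sᶜ := by
    rw [Finset.disjoint_left]
    intro i hi hi'
    exact (Finset.mem_compl.mp hi') (Finset.mem_of_mem_erase hi)
  rw [hcompl, Finset.prod_union hdisj, ← mul_assoc, e1] at e2
  have hne : ∏ i ∈ Sᶜ, (X - C (∏ b, s b ^ (1 * D.lk i b)) : ℝ[X]) ≠ 0 :=
    (monic_prod_of_monic _ _ fun i _ => monic_X_sub_C _).ne_zero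
  have e4 := mul_right_cancel₀ hne e2
  have e5 : (E.map fun e => (X - C (∏ i, s i ^ (1 * e i)) : ℝ[X]))
      = ((E.map fun e => e k).map fun x => (1 / 2 : ℝ) ^ x).map fun a => X - C a := by
    rw [Multiset.map_map, Multiset.map_map]
    apply Multiset.map_congr rfl
    intro e _
    simp only [Function.comp_apply, hmon]
  have e6 : (X - C ((1 / 2 : ℝ) ^ 0)) * ∏ i ∈ S.erase k, (X - C (∏ b, s b ^ (1 * D.lk i b)) : ℝ[X])
      = ((((0 ::ₘ (S.erase k).val.map (fun a => D.lk a k)).map fun x => (1 / 2 : ℝ) ^ x)).map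
          fun a => X - C a).prod := by
    rw [Multiset.map_cons, Multiset.map_cons, Multiset.prod_cons, Multiset.map_map,
      Multiset.map_map]
    congr 1
    apply congrArg Multiset.prod
    apply Multiset.map_congr rfl
    intro i _
    simp only [Function.comp_apply, hmon]
  rw [e5, e6] at e4
  have e7 := congrArg Polynomial.roots e4
  rw [Polynomial.roots_multiset_prod_X_sub_C, Polynomial.roots_multiset_prod_X_sub_C] at e7
  refine Multiset.map_injective ?_ e7
  intro a b hab
  exact pow_right_injective₀ (by norm_num) (by norm_num) hab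

end Dia

end Pool.Agent.H70.AG
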