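import Mathlib
import Pool.Agent.H70.AG.UnE

set_option autoImplicit false

/-! # The wall

`V ⊆ S` nonempty, colours `0` on `V`, `1` off `S`. `D.Lf S V t`: the strands of `S` to the left of
all strands of `V` at time `t` (the left part). Read backwards in time the walk never goes from the
right part (the rest of `S`) to the left part.
PROOF of `E_wall` (`i ∈ S`, `i ∉ Lf (t+1)`, `j ∈ Lf t`): if `i ≠ rm t` then the entry is nonzero
only for `i = j`; then `i ∈ Lf t`, `i ∉ Lf (t+1)`: some `y ∈ V` has `pos (t+1) y ≤ pos (t+1) i` and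
`pos t i < pos t y`; `i ≠ y`, so they cross at `t` (`keep`), and `cr_of_lt` gives `ev y i t`, so
`i = rm t`, contradiction. If `i = rm t`: the entry is nonzero only for `j = i` or `j = lm t`.
`j = i = rm t`, in `Lf t`: in the same way `ev y i t` for some `y ∈ V`, so `lm t = y` and the entry is
`s y = 0`. `j = lm t ∈ Lf t`: `pos t i + 1 = pos t j`, so for all `y ∈ V` (`y ≠ j` as `j ∈ Lf t` is
left of `y`) `pos t i < pos t j < pos t y`, hence `i ∈ Lf t` and `i` does not cross `y`
(`y ≠ lm t`, `y ≠ rm t`), so `pos (t+1) i < pos (t+1) y` (`keep`): `i ∈ Lf (t+1)`, contradiction.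
`W_wall`: induction on `m`; in `∑ l, E (t+m) i l * W s t m l j` the strand `l` is in `S`
(`E_closed`); if `l ∈ Lf (t+m)` the first factor is `0`, otherwise the second one.
`Lf_per`: `pos_per`. `charpoly_wall`: `S = (S \ Lf) ∪ Lf`, `charpoly_split` with `U = S \ Lf t`,
`V = Lf t` and `W_wall` (`Lf (t + m T) = Lf t`). `root_right`: the rows `i ∈ S \ Lf t` have row sum
`1` over `S \ Lf t` (`W_row`; entries outside `S` vanish by `W_closed`, entries in `Lf t` by
`W_wall`), it is nonempty (contains `V`), `isRoot_one`.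
`wall_ineq`: `trace_le` with `U = Lf t`, `q` the polynomial of `S \ Lf t`, `L` the multiset of the
`∏ i, s i ^ (m * e i)`, `e ∈ E` (`IsE`).
`wall_root`: `isRoot_row` for `U = Lf t`: `W r r` is a root of the polynomial of `Lf t`, hence of
that of `S`, which is the product of the `X - s ^ (m e)`. -/

namespace Pool.Agent.H70.AG

open Polynomial

namespace Dia

variable {n : ℕ} (D : Dia n)

/-- The left part of `S` with respect to the wall `V`. -/
def Lf (S V : Finset (Fin n)) (t : ℤ) : Finset (Fin n) :=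
  S.filter fun i => ∀ y ∈ V, D.pos t i < D.pos t y

theorem mem_Lf {S V : Finset (Fin n)} {t : ℤ} {i : Fin n} :
    i ∈ D.Lf S V t ↔ i ∈ S ∧ ∀ y ∈ V, D.pos t i < D.pos t y := by
  simp [Lf]

variable {D} {s : Fin n → ℝ} {S V : Finset (Fin n)}

theorem E_wall (hS : ∀ j, j ∉ S → s j = 1) (hV : ∀ y ∈ V, s y = 0) {t : ℤ} {i j : Fin n}
    (hi : i ∈ S) (hi' : i ∉ D.Lf S V (t + 1)) (hj : j ∈ D.Lf S V t) : D.E s t i j = 0 := by
  rw [mem_Lf] at hi' hj
  have h1 : ∃ y ∈ V, D.pos (t + 1) y ≤ D.pos (t + 1) i := by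
    by_contra hcon
    push Not at hcon
    exact hi' ⟨hi, hcon⟩
  obtain ⟨y, hy, hpos⟩ := h1
  have hadj := D.adj t
  have hl := D.step_lm t
  have hr := D.step_rm t
  have hjy := hj.2 y hy
  by_cases h : i = D.rm t
  · subst h
    by_cases hj1 : j = D.rm t
    · subst hj1
      rw [E_rm]
      apply hV
      by_cases hyl : y = D.lm t
      · rw [← hyl]
        exact hy
      · exfalso
        by_cases hyr : y = D.rm t
        · rw [hyr] at hjy
          omega
        · rw [D.step t y hyl hyr] at hpos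
          have h2 : D.pos t y ≠ D.pos t (D.lm t) := fun he => hyl (D.inj t he)
          omega
    · by_cases hj2 : j = D.lm t
      · exfalso
        rw [hj2] at hjy
        by_cases hyl : y = D.lm t
        · rw [hyl] at hjy
          omega
        · by_cases hyr : y = D.rm t
          · rw [hyr] at hjy
            omega
          · rw [D.step t y hyl hyr] at hpos
            omega
      · exact E_other D s hj1 hj2
  · rw [E_of_ne D s h, if_neg]
    rintro rfl
    by_cases hil : i = D.lm t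
    · rw [hil, hl] at hpos
      rw [hil] at hjy
      by_cases hyr : y = D.rm t
      · rw [hyr] at hjy
        omega
      · by_cases hyl : y = D.lm t
        · rw [hyl] at hjy
          omega
        · rw [D.step t y hyl hyr] at hpos
          omega
    · rw [D.step t i hil h] at hpos
      by_cases hyl : y = D.lm t
      · rw [hyl, hl] at hpos
        rw [hyl] at hjy
        have h2 : D.pos t i ≠ D.pos t (D.rm t) := fun he => h (D.inj t he)
        omega
      · by_cases hyr : y = D.rm t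
        · rw [hyr, hr] at hpos
          rw [hyr] at hjy
          omega
        · rw [D.step t y hyl hyr] at hpos
          omega

theorem W_wall (hS : ∀ j, j ∉ S → s j = 1) (hV : ∀ y ∈ V, s y = 0) {t : ℤ} {m : ℕ} {i j : Fin n}
    (hi : i ∈ S) (hi' : i ∉ D.Lf S V (t + m)) (hj : j ∈ D.Lf S V t) : D.W s t m i j = 0 := by
  induction m generalizing i with
  | zero =>
    simp only [Dia.W, Matrix.one_apply]
    rw [if_neg]
    rintro rfl
    simp only [Nat.cast_zero, add_zero] at hi'
    exact hi' hj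
  | succ m ih =>
    rw [W_succ', Matrix.mul_apply]
    apply Finset.sum_eq_zero
    intro l _
    by_cases hl : l ∈ S
    · by_cases hl' : l ∈ D.Lf S V (t + m)
      · rw [E_wall hS hV hi (by
          have : t + (m : ℤ) + 1 = t + ((m + 1 : ℕ) : ℤ) := by push_cast; ring
          rw [this]
          exact hi') hl', zero_mul]
      · rw [ih hl hl', mul_zero]
    · rw [E_closed D hS _ hi hl, zero_mul]

theorem Lf_per (t z : ℤ) : D.Lf S V (t + z * D.T) = D.Lf S V t := by
  unfold Lf
  rw [D.pos_per]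

theorem Lf_subset (t : ℤ) : D.Lf S V t ⊆ S := Finset.filter_subset _ _

theorem charpoly_wall (hS : ∀ j, j ∉ S → s j = 1) (hV : ∀ y ∈ V, s y = 0) (t : ℤ) (m : ℕ) :
    (sb (D.W s t (m * D.T)) S).charpoly
      = (sb (D.W s t (m * D.T)) (D.Lf S V t)).charpoly *
        (sb (D.W s t (m * D.T)) (S \ D.Lf S V t)).charpoly := by
  have h0 : (sb (D.W s t (m * D.T)) S).charpoly
      = (sb (D.W s t (m * D.T)) (S \ D.Lf S V t ∪ D.Lf S V t)).charpoly := by
    rw [Finset.sdiff_union_of_subset (Lf_subset t)]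
  rw [h0, charpoly_split _ Finset.sdiff_disjoint, mul_comm]
  intro i hi j hj
  rw [Finset.mem_sdiff] at hi
  refine W_wall hS hV hi.1 ?_ hj
  have : t + ((m * D.T : ℕ) : ℤ) = t + (m : ℤ) * D.T := by push_cast; ring
  rw [this, Lf_per]
  exact hi.2

theorem root_right (hS : ∀ j, j ∉ S → s j = 1) (hV : ∀ y ∈ V, s y = 0) (hVS : V ⊆ S)
    (hne : V.Nonempty) (t : ℤ) (m : ℕ) :
    ((sb (D.W s t (m * D.T)) (S \ D.Lf S V t)).charpoly).IsRoot 1 := by
  apply isRoot_one
  · obtain ⟨y, hy⟩ := hne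
    refine ⟨y, Finset.mem_sdiff.mpr ⟨hVS hy, ?_⟩⟩
    rw [mem_Lf]
    intro h
    exact lt_irrefl _ (h.2 y hy)
  · intro i hi
    rw [Finset.mem_sdiff] at hi
    rw [← W_row D s t (m * D.T) i]
    apply Finset.sum_subset (Finset.subset_univ _)
    intro j _ hj
    rw [Finset.mem_sdiff] at hj
    by_cases hjS : j ∈ S
    · have hjL : j ∈ D.Lf S V t := by
        by_contra h
        exact hj ⟨hjS, h⟩
      refine W_wall hS hV hi.1 ?_ hjL
      have : t + ((m * D.T : ℕ) : ℤ) = t + (m : ℤ) * D.T := by push_cast; ring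
      rw [this, Lf_per]
      exact hi.2
    · exact W_closed D hS t _ hi.1 hjS

theorem wall_ineq {E : Multiset (Fin n → ℕ)} (hE : D.IsE S E) (h0 : ∀ i, 0 ≤ s i)
    (h1 : ∀ i, s i ≤ 1) (hS : ∀ j, j ∉ S → s j = 1) (hV : ∀ y ∈ V, s y = 0) (hVS : V ⊆ S)
    (hne : V.Nonempty) (t : ℤ) (m : ℕ) :
    ∑ i ∈ D.Lf S V t, D.W s t (m * D.T) i i
      ≤ (E.map fun e => ∏ i, s i ^ (m * e i)).sum - 1 := by
  have h2 := hE.2 s h0 h1 hS t m
  rw [charpoly_wall hS hV] at h2
  refine trace_le (D.W s t (m * D.T)) (U := D.Lf S V t)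
    (q := (sb (D.W s t (m * D.T)) (S \ D.Lf S V t)).charpoly)
    (L := E.map fun e => ∏ i, s i ^ (m * e i)) ?_ (root_right hS hV hVS hne t m) ?_
  · intro x hx
    rw [Multiset.mem_map] at hx
    obtain ⟨e, _, rfl⟩ := hx
    exact Finset.prod_nonneg fun i _ => pow_nonneg (h0 i) _
  · rw [h2, Multiset.map_map]
    rfl

theorem wall_root {E : Multiset (Fin n → ℕ)} (hE : D.IsE S E) (h0 : ∀ i, 0 ≤ s i)
    (h1 : ∀ i, s i ≤ 1) (hS : ∀ j, j ∉ S → s j = 1) (hV : ∀ y ∈ V, s y = 0) (t : ℤ) (m : ℕ)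
    {r : Fin n} (hr : r ∈ D.Lf S V t)
    (h : ∀ j ∈ D.Lf S V t, j ≠ r → D.W s t (m * D.T) r j = 0) :
    ∃ e ∈ E, ∏ i, s i ^ (m * e i) = D.W s t (m * D.T) r r := by
  have h2 := hE.2 s h0 h1 hS t m
  rw [charpoly_wall hS hV] at h2
  have h3 := isRoot_row (D.W s t (m * D.T)) hr h
  have h4 := congrArg (Polynomial.eval (D.W s t (m * D.T) r r)) h2
  rw [Polynomial.eval_mul, h3, zero_mul, Polynomial.eval_multiset_prod, eq_comm,
    Multiset.prod_eq_zero_iff, Multiset.mem_map] at h4
  obtain ⟨p, hp, hp0⟩ := h4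
  rw [Multiset.mem_map] at hp
  obtain ⟨e, he, rfl⟩ := hp
  refine ⟨e, he, ?_⟩
  rw [Polynomial.eval_sub, Polynomial.eval_X, Polynomial.eval_C] at hp0
  linarith

end Dia

end Pool.Agent.H70.AG
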