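import Mathlib
import Pool.Agent.H70.AG.Wal

set_option autoImplicit false

/-! # First trace bound

`S` with a strand `k ∈ S` and all other strands `a ∈ S` linked with `k` in the same way:
`lk a k = F > 0`.
PROOF. `coord_vals`: `IsE.coord`: the multiset of the `e k` is `0` together with `S.card - 1` times
`F` (`Multiset.map_congr`, `Multiset.map_const`), so every `e k` is `0` or `F`.
`boundA`: `wall_ineq` with `V = {z}`. In the sum over `E` every term is at most
`s k ^ (m * e k)` (the other factors are in `[0,1]`: `Finset.prod_le_one`-like, split off the factor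
`k` with `Finset.mul_prod_erase`), so the sum is at most
`∑ over E of s k ^ (m * e k) = 1 + (S.card - 1) * s k ^ (m * F)` by the multiset of the `e k`. -/

namespace Pool.Agent.H70.AG

namespace Dia

variable {n : ℕ} {D : Dia n} {S : Finset (Fin n)} {k : Fin n} {F : ℕ}

theorem coord_vals {E : Multiset (Fin n → ℕ)} (hE : D.IsE S E) (hk : k ∈ S)
    (hF : ∀ a ∈ S, a ≠ k → D.lk a k = F) :
    E.map (fun e => e k) = 0 ::ₘ Multiset.replicate (S.card - 1) F := by
  rw [hE.coord hk]
  congr 1
  have h1 : (S.erase k).val.map (fun a => D.lk a k) = (S.erase k).val.map (fun _ => F) := by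
    apply Multiset.map_congr rfl
    intro a ha
    have ha' : a ∈ S.erase k := ha
    rw [Finset.mem_erase] at ha'
    exact hF a ha'.2 ha'.1
  rw [h1, Multiset.map_const']
  congr 1
  rw [Finset.card_val, Finset.card_erase_of_mem hk]

theorem boundA (h : D.Rigid) (hk : k ∈ S) (hF : ∀ a ∈ S, a ≠ k → D.lk a k = F) {z : Fin n}
    (hz : z ∈ S) {s : Fin n → ℝ} (h0 : ∀ i, 0 ≤ s i) (h1 : ∀ i, s i ≤ 1)
    (hS : ∀ j, j ∉ S → s j = 1) (hsz : s z = 0) (t : ℤ) (m : ℕ) :
    ∑ i ∈ D.Lf S {z} t, D.W s t (m * D.T) i i ≤ (S.card - 1 : ℕ) * s k ^ (m * F) := by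
  obtain ⟨E, hE⟩ := exists_E h S
  have h2 := wall_ineq hE h0 h1 hS (V := {z}) (by
    intro y hy
    rw [Finset.mem_singleton] at hy
    rw [hy, hsz]) (by simpa using hz) (Finset.singleton_nonempty z) t m
  have h3 : (E.map fun e => ∏ i, s i ^ (m * e i)).sum ≤ (E.map fun e => s k ^ (m * e k)).sum := by
    apply Multiset.sum_map_le_sum_map
    intro e _
    rw [← Finset.mul_prod_erase Finset.univ _ (Finset.mem_univ k)]
    have h4 : ∏ i ∈ Finset.univ.erase k, s i ^ (m * e i) ≤ 1 :=
      Finset.prod_le_one (fun i _ => pow_nonneg (h0 i) _) fun i _ => pow_le_one₀ (h0 i) (h1 i)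
    exact mul_le_of_le_one_right (pow_nonneg (h0 k) _) h4
  have h5 : (E.map fun e => s k ^ (m * e k)).sum = 1 + (S.card - 1 : ℕ) * s k ^ (m * F) := by
    have h6 : E.map (fun e => s k ^ (m * e k))
        = (E.map fun e => e k).map (fun x => s k ^ (m * x)) := by
      rw [Multiset.map_map]
      rfl
    rw [h6, coord_vals hE hk hF, Multiset.map_cons, Multiset.sum_cons, Multiset.map_replicate,
      Multiset.sum_replicate, mul_zero, pow_zero, nsmul_eq_mul]
  linarith

end Dia

end Pool.Agent.H70.AG
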