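import Mathlib
import Pool.Agent.H70.AG.Wal

set_option autoImplicit false

/-! # Second trace bound

`(y, z)` a zero pair with outsiders `k` (and `k'`); `F = lk k y = lk k z > 0`,
`F' = lk k' y = lk k' z > 0` (also `lk y k = F` etc. by `lk_symm`; `lk y z = lk z y = 0`). The
strands `y`, `z`, `k`, `k'` are different (`lk_self`). `van e`: `e y = 0 ∧ e z = 0`.
PROOF of `two`: `IsE {y, z} E2`: by `IsE.coord` at `y` and at `z` all `e y = 0` and `e z = 0`; the
vectors vanish off `{y, z}`; `card_eq`: `E2 = {0, 0}`.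
PROOF of `three`: `IsE {y, z, k} E3`. `IsE.restrict` for `j = k` (`{y,z,k}.erase k = {y,z}`,
`exists_E` for `{y,z}` and `two`): `E3.map (res {y,z}) = res {y,z} (lk k) ::ₘ {0, 0}`, and
`res {y,z} (lk k)` has the value `F > 0` at `y`. So exactly two elements of `E3` (with multiplicity)
satisfy `van`. `0 ∈ E3` (`zero_mem`) is one of them; let `e1` be the other one. `coord` at `k`:
`E3.map (· k) = {0, F, F}` (multiset; `lk y k = lk z k = F`), and `0 ∈ E3` takes the value `0`, so
`e1 k = F` (as elements of the multiset `E3 = 0 ::ₘ E3'`: `E3'.map (· k) = {F, F}`). So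
`E3.filter van = {0, F δ_k}` with `F δ_k = Pi.single k F` (the vector vanishes at `y`, `z` and off
`{y, z, k}`).
PROOF of `four`: `IsE {y,z,k,k'} E4`. `restrict` for `j = k'`: `E4.map (res {y,z,k})
= res {y,z,k} (lk k') ::ₘ E3`; `res .. (lk k')` is `F' > 0` at `y`, so the multiset of the
`res {y,z,k} e`, `e ∈ E4`, `van e`, is `E3.filter van = {0, F δ_k}`; in the same way with `k`, `k'`
exchanged: `{0, F' δ_k'}`. `0 ∈ E4`. So `E4.filter van = {0, e1}` with `e1 k = F`, `e1 k' = F'`,
i.e. `e1 = Pi.single k F + Pi.single k' F'`.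
`boundB3`, `boundB4` (`1 ≤ m`, `s y = s z = 0`): `wall_ineq` with `V = {z}`, `y ∈ Lf` (`left`), all
diagonal entries are `≥ 0`, so `W y y ≤ ∑ over E of s ^ (m e) - 1`. A vector `e` with `e y > 0` or
`e z > 0` contributes `0` (`m * e y > 0`, `0 ^ _ = 0`); the sum over `E.filter van` is
`1 + s k ^ (m F)` resp. `1 + s k ^ (m F) * s k' ^ (m F')`. -/

namespace Pool.Agent.H70.AG

namespace Dia

variable {n : ℕ} {D : Dia n} {y z k k' : Fin n}

/-- Both coordinates vanish. -/
def van (y z : Fin n) (e : Fin n → ℕ) : Prop := e y = 0 ∧ e z = 0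

theorem two (h0 : D.lk y z = 0) (hyz : y ≠ z) {E : Multiset (Fin n → ℕ)} (hE : D.IsE {y, z} E) :
    E = {0, 0} := by
  have hcard := hE.card_eq
  rw [Finset.card_pair hyz] at hcard
  have hval : ∀ (a b : Fin n), a ≠ b → ({a, b} : Finset (Fin n)).erase a = {b} := by
    intro a b hab
    rw [Finset.erase_insert (by simpa using hab)]
  have hy : ∀ e ∈ E, e y = 0 := by
    intro e he
    have h1 := hE.coord (k := y) (by simp)
    rw [hval y z hyz, Finset.singleton_val, Multiset.map_singleton, lk_symm, h0] at h1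
    have h2 : e y ∈ E.map (fun e => e y) := Multiset.mem_map_of_mem _ he
    rw [h1] at h2
    simpa using h2
  have hz : ∀ e ∈ E, e z = 0 := by
    intro e he
    have h1 := hE.coord (k := z) (by simp)
    rw [Finset.pair_comm, hval z y hyz.symm, Finset.singleton_val, Multiset.map_singleton, h0] at h1
    have h2 : e z ∈ E.map (fun e => e z) := Multiset.mem_map_of_mem _ he
    rw [h1] at h2
    simpa using h2
  have hall : ∀ e ∈ E, e = 0 := by
    intro e he
    funext j
    by_cases hj : j = y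
    · rw [hj]; exact hy e he
    · by_cases hj' : j = z
      · rw [hj']; exact hz e he
      · exact hE.1 e he j (by simp [hj, hj'])
  have h1 : E = Multiset.replicate 2 0 := Multiset.eq_replicate.2 ⟨hcard, hall⟩
  rw [h1]
  rfl

theorem three (h : D.Rigid) (hz : D.ZP y z k) {E : Multiset (Fin n → ℕ)}
    (hE : D.IsE {y, z, k} E) :
    E.filter (fun e => e y = 0 ∧ e z = 0) = {0, Pi.single k (D.lk k y)} := by
  classical
  have hyz : y ≠ z := by
    rintro rfl
    exact lt_irrefl _ (hz.left 0)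
  have hpos := hz.pos
  have hsame := hz.same
  have hky : k ≠ y := by
    rintro rfl
    rw [lk_self] at hpos
    exact lt_irrefl _ hpos
  have hkz : k ≠ z := by
    rintro rfl
    rw [hsame, lk_self] at hpos
    exact lt_irrefl _ hpos
  have her : ({y, z, k} : Finset (Fin n)).erase k = {y, z} := by
    ext x
    simp only [Finset.mem_erase, Finset.mem_insert, Finset.mem_singleton]
    constructor
    · rintro ⟨h1, h2 | h2 | h2⟩
      · exact Or.inl h2
      · exact Or.inr h2
      · exact absurd h2 h1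
    · rintro (h1 | h1)
      · subst h1; exact ⟨hky.symm, Or.inl rfl⟩
      · subst h1; exact ⟨hkz.symm, Or.inr (Or.inl rfl)⟩
  obtain ⟨E2, hE2⟩ := exists_E h {y, z}
  have hE2' := two hz.zero hyz hE2
  have hres := hE.restrict (j := k) (by simp) (by rw [her]; exact hE2)
  rw [her, hE2'] at hres
  have h0 := hE.zero_mem ⟨y, by simp⟩
  obtain ⟨E', rfl⟩ := Multiset.exists_cons_of_mem h0
  -- the number of vectors which vanish at y and z
  have hpred : ∀ e : Fin n → ℕ, (e y = 0 ∧ e z = 0) ↔
      ((res {y, z} e) y = 0 ∧ (res {y, z} e) z = 0) := by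
    intro e
    have e1 : (res {y, z} e) y = e y := by rw [res, if_pos (by simp)]
    have e2 : (res {y, z} e) z = e z := by rw [res, if_pos (by simp)]
    rw [e1, e2]
  have hfm : ((0 ::ₘ E').filter (fun e => e y = 0 ∧ e z = 0)).map (res {y, z}) = {0, 0} := by
    have e1 : (fun e : Fin n → ℕ => e y = 0 ∧ e z = 0)
        = (fun e => e y = 0 ∧ e z = 0) ∘ res {y, z} := by
      funext e
      exact propext (hpred e)
    have e2 := Multiset.filter_map (fun e : Fin n → ℕ => e y = 0 ∧ e z = 0) (res {y, z}) (0 ::ₘ E')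
    have e3 : (0 ::ₘ E').filter (fun e => e y = 0 ∧ e z = 0)
        = (0 ::ₘ E').filter ((fun e => e y = 0 ∧ e z = 0) ∘ res {y, z}) := by
      apply Multiset.filter_congr
      intro e _
      exact hpred e
    rw [e3, ← e2, hres, Multiset.filter_cons_of_neg]
    · rfl
    · rintro ⟨h1, _⟩
      rw [res, if_pos (by simp)] at h1
      omega
  rw [Multiset.filter_cons_of_pos _ (by simp), Multiset.map_cons] at hfm
  have hr0 : res {y, z} (0 : Fin n → ℕ) = 0 := by
    funext j
    simp [res]
  have hfm' : (E'.filter (fun e => e y = 0 ∧ e z = 0)).map (res {y, z}) = {0} := by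
    rw [hr0] at hfm
    exact (Multiset.cons_inj_right 0).1 hfm
  obtain ⟨e1, he1, _⟩ := Multiset.map_eq_singleton.1 hfm'
  rw [Multiset.filter_cons_of_pos _ (by simp), he1]
  have hmem : e1 ∈ E'.filter (fun e => e y = 0 ∧ e z = 0) := by rw [he1]; simp
  rw [Multiset.mem_filter] at hmem
  -- the coordinate at k
  have hc := hE.coord (k := k) (by simp)
  have hv : (({y, z, k} : Finset (Fin n)).erase k).val.map (fun a => D.lk a k)
      = {D.lk k y, D.lk k y} := by
    rw [her]
    have e3 : ({y, z} : Finset (Fin n)).val = {y, z} := by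
      show (insert y ({z} : Finset (Fin n))).val = _
      rw [Finset.insert_val_of_notMem (by simpa using hyz)]
      rfl
    rw [e3]
    show D.lk y k ::ₘ {D.lk z k} = _
    rw [lk_symm D y k, lk_symm D z k, ← hsame]
    rfl
  rw [hv, Multiset.map_cons] at hc
  have hc' : E'.map (fun e => e k) = {D.lk k y, D.lk k y} := by
    have e4 : (0 : Fin n → ℕ) k = 0 := rfl
    rw [e4] at hc
    exact (Multiset.cons_inj_right 0).1 hc
  have hk1 : e1 k = D.lk k y := by
    have h2 : e1 k ∈ E'.map (fun e => e k) := Multiset.mem_map_of_mem _ hmem.1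
    rw [hc'] at h2
    simpa using h2
  have he : e1 = Pi.single k (D.lk k y) := by
    funext j
    by_cases hj : j = k
    · subst hj
      rw [Pi.single_eq_same, hk1]
    · rw [Pi.single_eq_of_ne hj]
      by_cases hjy : j = y
      · rw [hjy]; exact hmem.2.1
      · by_cases hjz : j = z
        · rw [hjz]; exact hmem.2.2
        · exact hE.1 e1 (Multiset.mem_cons_of_mem hmem.1) j (by simp [hj, hjy, hjz])
  rw [he]
  rfl

/-- The vectors vanishing at `y`, `z` after a restriction. -/
theorem four_aux (h : D.Rigid) (hz : D.ZP y z k) (hz' : D.ZP y z k') (hk : k ≠ k')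
    {E : Multiset (Fin n → ℕ)} (hE : D.IsE {y, z, k, k'} E) :
    (E.filter (fun e => e y = 0 ∧ e z = 0)).map (res {y, z, k})
      = {0, Pi.single k (D.lk k y)} := by
  classical
  have hpos' := hz'.pos
  have hsame' := hz'.same
  have hky : k' ≠ y := by
    rintro rfl
    rw [lk_self] at hpos'
    exact lt_irrefl _ hpos'
  have hkz : k' ≠ z := by
    rintro rfl
    rw [hsame', lk_self] at hpos'
    exact lt_irrefl _ hpos'
  have her : ({y, z, k, k'} : Finset (Fin n)).erase k' = {y, z, k} := by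
    ext x
    simp only [Finset.mem_erase, Finset.mem_insert, Finset.mem_singleton]
    constructor
    · rintro ⟨h1, h2 | h2 | h2 | h2⟩
      · exact Or.inl h2
      · exact Or.inr (Or.inl h2)
      · exact Or.inr (Or.inr h2)
      · exact absurd h2 h1
    · rintro (h1 | h1 | h1)
      · subst h1; exact ⟨hky.symm, Or.inl rfl⟩
      · subst h1; exact ⟨hkz.symm, Or.inr (Or.inl rfl)⟩
      · subst h1; exact ⟨hk, Or.inr (Or.inr (Or.inl rfl))⟩
  obtain ⟨E3, hE3⟩ := exists_E h {y, z, k}
  have hres := hE.restrict (j := k') (by simp) (by rw [her]; exact hE3)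
  rw [her] at hres
  have hpred : ∀ e : Fin n → ℕ, (e y = 0 ∧ e z = 0) ↔
      ((res {y, z, k} e) y = 0 ∧ (res {y, z, k} e) z = 0) := by
    intro e
    have e1 : (res {y, z, k} e) y = e y := by rw [res, if_pos (by simp)]
    have e2 : (res {y, z, k} e) z = e z := by rw [res, if_pos (by simp)]
    rw [e1, e2]
  have e2 := Multiset.filter_map (fun e : Fin n → ℕ => e y = 0 ∧ e z = 0) (res {y, z, k}) E
  have e3 : E.filter (fun e => e y = 0 ∧ e z = 0)
      = E.filter ((fun e => e y = 0 ∧ e z = 0) ∘ res {y, z, k}) := by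
    apply Multiset.filter_congr
    intro e _
    exact hpred e
  rw [e3, ← e2, hres, Multiset.filter_cons_of_neg]
  · exact three h hz hE3
  · rintro ⟨h1, _⟩
    rw [res, if_pos (by simp)] at h1
    omega

theorem four (h : D.Rigid) (hz : D.ZP y z k) (hz' : D.ZP y z k') (hk : k ≠ k')
    {E : Multiset (Fin n → ℕ)} (hE : D.IsE {y, z, k, k'} E) :
    E.filter (fun e => e y = 0 ∧ e z = 0)
      = {0, Pi.single k (D.lk k y) + Pi.single k' (D.lk k' y)} := by
  classical
  have h1 := four_aux h hz hz' hk hE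
  have hset : ({y, z, k, k'} : Finset (Fin n)) = {y, z, k', k} := by
    ext x
    simp only [Finset.mem_insert, Finset.mem_singleton]
    tauto
  have h2 := four_aux h hz' hz hk.symm (E := E) (by rw [← hset]; exact hE)
  have h0 := hE.zero_mem ⟨y, by simp⟩
  have h0' : (0 : Fin n → ℕ) ∈ E.filter (fun e => e y = 0 ∧ e z = 0) :=
    Multiset.mem_filter.2 ⟨h0, rfl, rfl⟩
  obtain ⟨G, hG⟩ := Multiset.exists_cons_of_mem h0'
  have hr0 : ∀ S : Finset (Fin n), res S (0 : Fin n → ℕ) = 0 := by
    intro S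
    funext j
    simp [res]
  rw [hG, Multiset.map_cons, hr0] at h1 h2
  have h1' : G.map (res {y, z, k}) = {Pi.single k (D.lk k y)} := (Multiset.cons_inj_right 0).1 h1
  have h2' : G.map (res {y, z, k'}) = {Pi.single k' (D.lk k' y)} :=
    (Multiset.cons_inj_right 0).1 h2
  obtain ⟨e1, he1, hr1⟩ := Multiset.map_eq_singleton.1 h1'
  rw [he1, Multiset.map_singleton, Multiset.singleton_inj] at h2'
  have hmem : e1 ∈ E.filter (fun e => e y = 0 ∧ e z = 0) := by rw [hG, he1]; simp
  rw [Multiset.mem_filter] at hmem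
  have hk1 : e1 k = D.lk k y := by
    have h3 := congrFun hr1 k
    rw [Pi.single_eq_same, res, if_pos (by simp)] at h3
    exact h3
  have hk2 : e1 k' = D.lk k' y := by
    have h3 := congrFun h2' k'
    rw [Pi.single_eq_same, res, if_pos (by simp)] at h3
    exact h3
  have he : e1 = Pi.single k (D.lk k y) + Pi.single k' (D.lk k' y) := by
    funext j
    rw [Pi.add_apply]
    by_cases hj : j = k
    · subst hj
      rw [Pi.single_eq_same, Pi.single_eq_of_ne hk, add_zero, hk1]
    · rw [Pi.single_eq_of_ne hj]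
      by_cases hj' : j = k'
      · subst hj'
        rw [Pi.single_eq_same, zero_add, hk2]
      · rw [Pi.single_eq_of_ne hj', add_zero]
        by_cases hjy : j = y
        · rw [hjy]; exact hmem.2.1
        · by_cases hjz : j = z
          · rw [hjz]; exact hmem.2.2
          · exact hE.1 e1 hmem.1 j (by simp [hj, hj', hjy, hjz])
  rw [hG, he1, he]
  rfl

/-- The common part of the two bounds. -/
theorem bound_aux {S : Finset (Fin n)} (hyS : y ∈ S) (hzS : z ∈ S)
    (hleft : ∀ t, D.pos t y < D.pos t z) {E : Multiset (Fin n → ℕ)} (hE : D.IsE S E)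
    {s : Fin n → ℝ} (h0 : ∀ i, 0 ≤ s i) (h1 : ∀ i, s i ≤ 1) (hS : ∀ j, j ∉ S → s j = 1)
    (hy : s y = 0) (hz0 : s z = 0) (t : ℤ) {m : ℕ} (hm : 1 ≤ m) :
    D.W s t (m * D.T) y y
      ≤ ((E.filter (fun e => e y = 0 ∧ e z = 0)).map fun e => ∏ i, s i ^ (m * e i)).sum - 1 := by
  classical
  have hw := wall_ineq (V := {z}) hE h0 h1 hS (by simpa using hz0) (by simpa using hzS)
    (Finset.singleton_nonempty z) t m
  have hyL : y ∈ D.Lf S {z} t := by
    rw [mem_Lf]
    refine ⟨hyS, ?_⟩
    intro x hx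
    rw [Finset.mem_singleton] at hx
    rw [hx]
    exact hleft t
  have h2 : D.W s t (m * D.T) y y ≤ ∑ i ∈ D.Lf S {z} t, D.W s t (m * D.T) i i :=
    Finset.single_le_sum (f := fun i => D.W s t (m * D.T) i i)
      (fun i _ => W_nonneg D h0 h1 t _ i i) hyL
  have h3 : (E.map fun e => ∏ i, s i ^ (m * e i)).sum
      = ((E.filter (fun e => e y = 0 ∧ e z = 0)).map fun e => ∏ i, s i ^ (m * e i)).sum := by
    have e1 := Multiset.filter_add_not (fun e : Fin n → ℕ => e y = 0 ∧ e z = 0) E
    conv_lhs => rw [← e1]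
    rw [Multiset.map_add, Multiset.sum_add]
    have e2 : ((E.filter (fun e => ¬ (e y = 0 ∧ e z = 0))).map
        fun e => ∏ i, s i ^ (m * e i)).sum = 0 := by
      apply Multiset.sum_eq_zero
      intro x hx
      obtain ⟨e, he, rfl⟩ := Multiset.mem_map.1 hx
      rw [Multiset.mem_filter] at he
      by_cases hey : e y = 0
      · have hez : e z ≠ 0 := fun h => he.2 ⟨hey, h⟩
        apply Finset.prod_eq_zero (Finset.mem_univ z)
        rw [hz0, zero_pow]
        exact Nat.mul_ne_zero (by omega) hez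
      · apply Finset.prod_eq_zero (Finset.mem_univ y)
        rw [hy, zero_pow]
        exact Nat.mul_ne_zero (by omega) hey
    rw [e2, add_zero]
  linarith

theorem boundB3 (h : D.Rigid) (hz : D.ZP y z k) {s : Fin n → ℝ} (h0 : ∀ i, 0 ≤ s i)
    (h1 : ∀ i, s i ≤ 1) (hS : ∀ j, j ∉ ({y, z, k} : Finset (Fin n)) → s j = 1) (hy : s y = 0)
    (hz0 : s z = 0) (t : ℤ) {m : ℕ} (hm : 1 ≤ m) :
    D.W s t (m * D.T) y y ≤ s k ^ (m * D.lk k y) := by
  classical
  obtain ⟨E, hE⟩ := exists_E h {y, z, k}
  have hb := bound_aux (by simp) (by simp) hz.left hE h0 h1 hS hy hz0 t hm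
  rw [three h hz hE] at hb
  have e1 : (({0, Pi.single k (D.lk k y)} : Multiset (Fin n → ℕ)).map
      fun e => ∏ i, s i ^ (m * e i)).sum = 1 + s k ^ (m * D.lk k y) := by
    show ((0 ::ₘ {Pi.single k (D.lk k y)} : Multiset (Fin n → ℕ)).map
      fun e => ∏ i, s i ^ (m * e i)).sum = _
    rw [Multiset.map_cons, Multiset.sum_cons, Multiset.map_singleton, Multiset.sum_singleton]
    have e2 : ∏ i, s i ^ (m * (0 : Fin n → ℕ) i) = 1 := by simp
    have e3 : ∏ i, s i ^ (m * (Pi.single k (D.lk k y) : Fin n → ℕ) i) = s k ^ (m * D.lk k y) := by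
      rw [Finset.prod_eq_single k]
      · rw [Pi.single_eq_same]
      · intro i _ hi
        rw [Pi.single_eq_of_ne hi, mul_zero, pow_zero]
      · intro hk
        exact absurd (Finset.mem_univ _) hk
    rw [e2, e3]
  rw [e1] at hb
  linarith

theorem boundB4 (h : D.Rigid) (hz : D.ZP y z k) (hz' : D.ZP y z k') (hk : k ≠ k')
    {s : Fin n → ℝ} (h0 : ∀ i, 0 ≤ s i) (h1 : ∀ i, s i ≤ 1)
    (hS : ∀ j, j ∉ ({y, z, k, k'} : Finset (Fin n)) → s j = 1) (hy : s y = 0) (hz0 : s z = 0)
    (t : ℤ) {m : ℕ} (hm : 1 ≤ m) :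
    D.W s t (m * D.T) y y ≤ s k ^ (m * D.lk k y) * s k' ^ (m * D.lk k' y) := by
  classical
  obtain ⟨E, hE⟩ := exists_E h {y, z, k, k'}
  have hb := bound_aux (by simp) (by simp) hz.left hE h0 h1 hS hy hz0 t hm
  rw [four h hz hz' hk hE] at hb
  have e1 : (({0, Pi.single k (D.lk k y) + Pi.single k' (D.lk k' y)} : Multiset (Fin n → ℕ)).map
      fun e => ∏ i, s i ^ (m * e i)).sum
      = 1 + s k ^ (m * D.lk k y) * s k' ^ (m * D.lk k' y) := by
    show ((0 ::ₘ {Pi.single k (D.lk k y) + Pi.single k' (D.lk k' y)} : Multiset (Fin n → ℕ)).map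
      fun e => ∏ i, s i ^ (m * e i)).sum = _
    rw [Multiset.map_cons, Multiset.sum_cons, Multiset.map_singleton, Multiset.sum_singleton]
    have e2 : ∏ i, s i ^ (m * (0 : Fin n → ℕ) i) = 1 := by simp
    have e4 : ∀ (a : Fin n) (c : ℕ), ∏ i, s i ^ (m * (Pi.single a c : Fin n → ℕ) i)
        = s a ^ (m * c) := by
      intro a c
      rw [Finset.prod_eq_single a]
      · rw [Pi.single_eq_same]
      · intro i _ hi
        rw [Pi.single_eq_of_ne hi, mul_zero, pow_zero]
      · intro hk
        exact absurd (Finset.mem_univ _) hk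
    have e3 : ∏ i, s i ^ (m * (Pi.single k (D.lk k y) + Pi.single k' (D.lk k' y) : Fin n → ℕ) i)
        = s k ^ (m * D.lk k y) * s k' ^ (m * D.lk k' y) := by
      rw [← e4 k, ← e4 k', ← Finset.prod_mul_distrib]
      apply Finset.prod_congr rfl
      intro i _
      rw [Pi.add_apply, mul_add, pow_add]
    rw [e2, e3]
  rw [e1] at hb
  linarith

end Dia

end Pool.Agent.H70.AG
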