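import Mathlib
import Pool.Agent.H70.AG.Ord

set_option autoImplicit false

/-! # The last crossing

`D.last k y z t`: the last crossing of `k` with `y` or `z` before time `t` is one with `y`.
PROOF. `last_excl`: two witnesses `u`, `u'`: if `u < u'` then `cr k z u'` contradicts the first one,
if `u' < u` the second one; `u = u'` gives `y = z` (`cr_unique`). `last_or`: `exists_last` for
`P u = cr k y u ∨ cr k z u` (there is `u < t` with `cr k y u`: `exists_ev` in the window
`[t - T, t)`). Steps: unfold; the witness for `t + 1` is `t` itself or a witness for `t`.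
`last_per`: shift the witness by `± z T` (`cr_per`). `last_iff_not`: from `last_or`, `last_excl`. -/

namespace Pool.Agent.H70.AG

namespace Dia

variable {n : ℕ} {D : Dia n}

theorem last_excl {k y z : Fin n} (hyz : y ≠ z) {t : ℤ} (h : D.last k y z t) :
    ¬ D.last k z y t := by
  rintro ⟨u', hu1', hu2', hu3'⟩
  obtain ⟨u, hu1, hu2, hu3⟩ := h
  rcases lt_trichotomy u u' with e | e | e
  · exact (hu3 u' e hu1').2 hu2'
  · subst e
    exact hyz (cr_unique hu2 hu2')
  · exact (hu3' u e hu1).2 hu2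

theorem last_or {k y : Fin n} (z : Fin n) (h : 0 < D.lk k y) (t : ℤ) :
    D.last k y z t ∨ D.last k z y t := by
  obtain ⟨v, hv1, hv2, hv3⟩ := D.exists_ev h (t - D.T)
  obtain ⟨u, hu1, hu2, hu3⟩ := exists_last (P := fun u => D.cr k y u ∨ D.cr k z u) (t := t)
    ⟨v, by omega, Or.inl (Or.inr hv3)⟩
  rcases hu2 with e | e
  · left
    exact ⟨u, hu1, e, fun w hw1 hw2 => not_or.1 (hu3 w hw1 hw2)⟩
  · right
    exact ⟨u, hu1, e, fun w hw1 hw2 => (not_or.1 (hu3 w hw1 hw2)).symm⟩

theorem last_iff_not {k y z : Fin n} (hyz : y ≠ z) (h : 0 < D.lk k y) (t : ℤ) :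
    D.last k z y t ↔ ¬ D.last k y z t := by
  constructor
  · intro h1 h2
    exact last_excl hyz h2 h1
  · intro h1
    rcases last_or z h t with e | e
    · exact absurd e h1
    · exact e

theorem last_step_none {k y z : Fin n} {t : ℤ} (h1 : ¬ D.cr k y t) (h2 : ¬ D.cr k z t) :
    D.last k y z (t + 1) ↔ D.last k y z t := by
  constructor
  · rintro ⟨u, hu1, hu2, hu3⟩
    have hut : u ≠ t := by
      rintro rfl
      exact h1 hu2
    exact ⟨u, by omega, hu2, fun v hv1 hv2 => hu3 v hv1 (by omega)⟩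
  · rintro ⟨u, hu1, hu2, hu3⟩
    refine ⟨u, by omega, hu2, fun v hv1 hv2 => ?_⟩
    rcases lt_or_eq_of_le (show v ≤ t by omega) with e | e
    · exact hu3 v hv1 e
    · subst e
      exact ⟨h1, h2⟩

theorem last_step_fst {k y z : Fin n} {t : ℤ} (h : D.cr k y t) : D.last k y z (t + 1) :=
  ⟨t, by omega, h, fun v hv1 hv2 => by omega⟩

theorem last_step_snd {k y z : Fin n} (hyz : y ≠ z) {t : ℤ} (h : D.cr k z t) :
    ¬ D.last k y z (t + 1) := by
  rintro ⟨u, hu1, hu2, hu3⟩
  rcases lt_or_eq_of_le (show u ≤ t by omega) with e | e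
  · exact (hu3 t e (by omega)).2 h
  · subst e
    exact hyz (cr_unique hu2 h)

theorem last_per (k y z : Fin n) (t x : ℤ) : D.last k y z (t + x * D.T) ↔ D.last k y z t := by
  have key : ∀ t x : ℤ, D.last k y z t → D.last k y z (t + x * D.T) := by
    rintro t x ⟨u, hu1, hu2, hu3⟩
    refine ⟨u + x * D.T, by omega, (D.cr_per _ _ _ _).2 hu2, fun v hv1 hv2 => ?_⟩
    have h1 := hu3 (v - x * D.T) (by omega) (by omega)
    have h2 := D.cr_per k y (v - x * D.T) x
    have h3 := D.cr_per k z (v - x * D.T) x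
    rw [sub_add_cancel] at h2 h3
    exact ⟨fun hc => h1.1 (h2.1 hc), fun hc => h1.2 (h3.1 hc)⟩
  constructor
  · intro h
    have := key _ (-x) h
    rwa [neg_mul, add_neg_cancel_right] at this
  · exact key t x

theorem last_self_iff {k y : Fin n} (h : 0 < D.lk k y) (t : ℤ) : D.last k y y t := by
  rcases last_or y h t with e | e <;> exact e

end Dia

end Pool.Agent.H70.AG
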