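import Mathlib
import Pool.Agent.H70.AG.Last
import Pool.Agent.H70.AG.BdB

set_option autoImplicit false

/-! # Rule P, first statement

`ev y k t`: `lm t = y`, `rm t = k`. `F = lk k y > 0`.
PROOF. Let `u > t` be the first time with `cr k y u ∨ cr k z u` (`exists_first` from `t + 1`; by
`exists_ev` for the window `[t+1, t+1+T)` we get `u ≤ t + T`).
Case `cr k z u`: `pos (t+1) k = pos t y`, `z` is not involved at `t` and
`pos t y < pos t z`, so `pos (t+1) k < pos (t+1) z`; `keep_Ico` up to `u`; `cr_of_lt`: `ev z k u`.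
Case `cr k y u`: `pos (t+1) y < pos (t+1) k`, `keep_Ico`, so `ev k y u` (`cr_of_lt`). Then `u < t + T`
(at `t + T` the crossing is `ev y k`). Let `s = 0` at `y`, `z`, `1/2` at `k`, `1` otherwise,
`u = t + d`, `1 ≤ d`, `d + 1 ≤ T`. `W_ge_two` with `a = d`, `b = T - d`, `i = j = y`, `l = y`,
`l' = k`:
* `W s (t+d) (T-d) y y * W s t d y y ≥ stw y (t+d) (T-d) * stw y t d = stw y t T` (`stw_le`,
  `stw_add`) and by `stw_mul` (with `m = 1`) this is `∏ b, s b ^ lk y b = (1/2) ^ F`, because
  `lk y k = F` (`lk_symm`), `lk y z = 0`, `lk y y = 0`.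
* `W s (t+d) (T-d) y k ≥ W s (t+d+1) (T-d-1) y y * E s (t+d) y k` (`W_ge` with `a = 1`, `W_one`),
  `E s u y k = 1 - s k = 1/2` (`E_go`), and `stw y` over `(u, t+T)` is positive (`stw_pos`: if
  `rm v = y` then `lm v ≠ z` as `y`, `z` never cross, `lm v ≠ y`, so `s (lm v) > 0`).
* `W s t d k y ≥ W s (t+1) (d-1) k k * E s t k y`, `E s t k y = 1 - s y = 1`, and `stw k` over
  `(t, u)` is positive (if `rm v = k` then `lm v ≠ y`, `lm v ≠ z` by the choice of `u`).
So `W s t T y y > (1/2) ^ F`, contradicting `boundB3` with `m = 1`. -/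

namespace Pool.Agent.H70.AG

namespace Dia

variable {n : ℕ} {D : Dia n}

/-- The colours used for rule P. -/
private noncomputable def colP (y z k : Fin n) : Fin n → ℝ := fun i =>
  if i = y ∨ i = z then 0 else if i = k then 1 / 2 else 1

private lemma colP_nonneg (y z k i : Fin n) : 0 ≤ colP y z k i := by
  unfold colP
  split_ifs <;> norm_num

private lemma colP_le (y z k i : Fin n) : colP y z k i ≤ 1 := by
  unfold colP
  split_ifs <;> norm_num

private lemma colP_pos {y z k i : Fin n} (h1 : i ≠ y) (h2 : i ≠ z) : 0 < colP y z k i := by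
  unfold colP
  rw [if_neg (by tauto)]
  split_ifs <;> norm_num

/-- Rule P, first half: after `k` has moved right over `y` its next crossing with `y` or `z` is
the move right over `z`. -/
theorem rule_P1 (h : D.Rigid) {y z k : Fin n} (hz : D.ZP y z k) {t : ℤ} (ht : D.ev y k t) :
    ∃ u : ℤ, t < u ∧ D.ev z k u ∧ ∀ v : ℤ, t < v → v < u → ¬ D.cr k y v ∧ ¬ D.cr k z v := by
  classical
  have hyk : y ≠ k := ht.ne
  have hF : 0 < D.lk k y := hz.pos
  have hyz : y ≠ z := by
    rintro rfl
    exact lt_irrefl _ (hz.left t)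
  have hkz : k ≠ z := by
    rintro rfl
    have h1 := hz.same
    rw [D.lk_self] at h1
    omega
  -- the first crossing after `t`
  obtain ⟨u0, hu1, hu2, hu3⟩ := D.exists_ev hF (t + 1)
  obtain ⟨u, h1, h2, h3⟩ := exists_first (P := fun u => D.cr k y u ∨ D.cr k z u) (t := t + 1)
    ⟨u0, hu1, Or.inl (Or.inr hu3)⟩
  have hno : ∀ v : ℤ, t < v → v < u → ¬ D.cr k y v ∧ ¬ D.cr k z v := by
    intro v hv1 hv2
    have := h3 v (by omega) hv2
    tauto
  have huT : u ≤ t + D.T := by
    by_contra hcon
    exact h3 u0 hu1 (by omega) (Or.inl (Or.inr hu3))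
  rcases h2 with h2 | h2
  · exfalso
    -- the crossing is `ev k y u`
    have hp : D.pos (t + 1) y < D.pos (t + 1) k := ht.pos_lt'
    have hp2 : D.pos u y < D.pos u k := by
      rw [keep_Ico hyk (by omega : t + 1 ≤ u)]
      · exact hp
      · intro v hv1 hv2 hc
        exact (hno v (by omega) hv2).1 (cr_comm.1 hc)
    have hev : D.ev k y u := cr_of_lt (cr_comm.1 h2) hp2
    have huT' : u ≠ t + D.T := by
      rintro rfl
      have h5 := (D.ev_per y k t 1).2 ht
      rw [one_mul] at h5
      exact hyk (h5.1.symm.trans hev.1)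
    obtain ⟨d, hd⟩ : ∃ d : ℕ, u = t + 1 + d := ⟨(u - (t + 1)).toNat, by omega⟩
    obtain ⟨e, he⟩ : ∃ e : ℕ, (D.T : ℕ) = d + 2 + e := ⟨D.T - (d + 2), by omega⟩
    set s := colP y z k with hs
    have h0 : ∀ i, 0 ≤ s i := colP_nonneg y z k
    have h1' : ∀ i, s i ≤ 1 := colP_le y z k
    have hlyz : D.lk y z = 0 := hz.zero
    have hlyk : D.lk y k = D.lk k y := D.lk_symm y k
    have hbd := boundB3 h hz h0 h1' (by
      intro j hj
      simp only [Finset.mem_insert, Finset.mem_singleton, not_or] at hj
      simp only [hs, colP]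
      rw [if_neg (by tauto), if_neg hj.2.2]) (by simp [hs, colP]) (by simp [hs, colP]) t
      (le_refl 1)
    rw [one_mul, one_mul] at hbd
    have hT : D.T = (d + 1) + (e + 1) := by omega
    have hsplit := D.W_ge_two h0 h1' t (d + 1) (e + 1) y y hyk
    rw [← hT] at hsplit
    -- first term
    have hst : D.stw s y t D.T = s k ^ (D.lk k y) := by
      have h5 := D.stw_mul s y t 1
      rw [one_mul] at h5
      rw [h5, ← hlyk]
      rw [Finset.prod_eq_single k]
      · rw [one_mul]
      · intro b _ hbk
        by_cases hby : b = y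
        · subst hby
          rw [D.lk_self]
          simp
        · by_cases hbz : b = z
          · subst hbz
            rw [hlyz]
            simp
          · have : s b = 1 := by
              simp only [hs, colP]
              rw [if_neg (by tauto), if_neg hbk]
            rw [this, one_pow]
      · intro hk
        exact absurd (Finset.mem_univ k) hk
    have hA : s k ^ (D.lk k y) ≤ D.W s (t + (d + 1 : ℕ)) (e + 1) y y * D.W s t (d + 1) y y := by
      rw [← hst, hT, D.stw_add, mul_comm]
      exact mul_le_mul (D.stw_le h0 h1' _ _ _) (D.stw_le h0 h1' _ _ _) (D.stw_nonneg h0 _ _ _)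
        (D.W_nonneg h0 h1' _ _ _ _)
    -- second term
    have hu : t + ((d + 1 : ℕ) : ℤ) = u := by
      rw [hd]; push_cast; ring
    rw [hu] at hA hsplit
    have hB1 : 0 < D.W s u (e + 1) y k := by
      have h6 := D.W_ge h0 h1' u 1 e y y k
      rw [W_one] at h6
      have h7 : D.E s u y k = 1 / 2 := by
        have h8 := D.E_go s u
        rw [hev.1, hev.2] at h8
        rw [h8]
        have h12 : s k = 1 / 2 := by
          rw [hs]
          unfold colP
          rw [if_neg (by tauto), if_pos rfl]
        rw [h12]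
        norm_num
      have h9 : 0 < D.stw s y (u + (1 : ℕ)) e := by
        apply stw_pos
        intro j hj hrm
        apply colP_pos
        · intro hl
          exact D.lm_ne_rm _ (hl.trans hrm.symm)
        · intro hl
          exact D.no_cr hlyz (u + (1 : ℕ) + j) (Or.inr ⟨hl, hrm⟩)
      have h10 := D.stw_le h0 h1' y (u + (1 : ℕ)) e
      have h11 : 0 < D.W s (u + (1 : ℕ)) e y y * D.E s u y k := by
        rw [h7]
        exact mul_pos (lt_of_lt_of_le h9 h10) (by norm_num)
      rw [Nat.add_comm 1 e] at h6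
      exact lt_of_lt_of_le h11 h6
    have hB2 : 0 < D.W s t (d + 1) k y := by
      have h6 := D.W_ge h0 h1' t 1 d k k y
      rw [W_one] at h6
      have h7 : D.E s t k y = 1 := by
        have h8 := D.E_go s t
        rw [ht.1, ht.2] at h8
        rw [h8]
        simp only [hs, colP]
        rw [if_pos (by tauto)]
        norm_num
      have h9 : 0 < D.stw s k (t + (1 : ℕ)) d := by
        apply stw_pos
        intro j hj hrm
        have hv := hno (t + (1 : ℕ) + j) (by push_cast; omega) (by push_cast; omega)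
        apply colP_pos
        · intro hl
          exact hv.1 (Or.inr ⟨hl, hrm⟩)
        · intro hl
          exact hv.2 (Or.inr ⟨hl, hrm⟩)
      have h10 := D.stw_le h0 h1' k (t + (1 : ℕ)) d
      have h11 : 0 < D.W s (t + (1 : ℕ)) d k k * D.E s t k y := by
        rw [h7, mul_one]
        exact lt_of_lt_of_le h9 h10
      rw [Nat.add_comm 1 d] at h6
      exact lt_of_lt_of_le h11 h6
    have hB := mul_pos hB1 hB2
    linarith
  · have hp : D.pos (t + 1) k < D.pos (t + 1) z := by
      have e1 : D.pos (t + 1) k = D.pos t y := by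
        have := D.step_rm t
        rw [ht.2, ht.1] at this
        exact this
      have e2 : D.pos (t + 1) z = D.pos t z := by
        apply D.step
        · rw [ht.1]; exact hyz.symm
        · rw [ht.2]; exact hkz.symm
      rw [e1, e2]
      exact hz.left t
    have hp2 : D.pos u k < D.pos u z := by
      rw [keep_Ico hkz (by omega : t + 1 ≤ u)]
      · exact hp
      · intro v hv1 hv2 hc
        exact (hno v (by omega) hv2).2 hc
    exact ⟨u, by omega, cr_of_lt h2 hp2, hno⟩

end Dia

end Pool.Agent.H70.AG
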