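import Mathlib
import Pool.Agent.H70.AG.RP1

set_option autoImplicit false

/-! # Rule P, the other statements

PROOF of `last_of_left` (`k` left of `y` at `t`): by `last_or` suppose `last k z y t`, witness `u`:
`cr k z u`, `k` does not cross `y` in `(u, t)`. `keep_Ico`: `pos (u+1) k < pos (u+1) y`. After the
crossing at `u` the strands `k`, `z` are neighbours at `u + 1` (`step_lm`, `step_rm`, `adj`), but
`pos (u+1) k < pos (u+1) y < pos (u+1) z`. Contradiction. `last_of_right` in the same way.
PROOF of `rule_P3` (`ev k y t`): by `last_or` suppose `last k y z t`, witness `u`. `pos t y < pos t k`,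
so `pos (u+1) y < pos (u+1) k` (`keep_Ico`), so `ev y k u` (the other case `ev k y u` gives
`pos (u+1) k < pos (u+1) y`). `rule_P1` at `u` gives `u' > u` with `ev z k u'` and no crossing of `k`
with `y`, `z` in `(u, u')`; as `cr k y t`, `u' ≤ t`; as there is none in `(u, t)`, `u' = t`; but
`ev z k t` and `ev k y t` contradict each other.
PROOF of `rule_P4`. Let `g t = 1` if `last k y z t ∧ pos t y < pos t k`, else `0`. Claim:
`g (t+1) = g t + [ev y k t] - [ev z k t ∧ g t = 1]` (integers; brackets are indicators):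
* `ev y k t`: `g t = 0` (`pos t k < pos t y`), `g (t+1) = 1`;
* `ev k y t`: `g (t+1) = 0` (`pos (t+1) k < pos (t+1) y`), `g t = 0` by `rule_P3` and `last_excl`;
* `ev z k t`: `g (t+1) = 0` (`last_step_snd`);
* `ev k z t`: `g (t+1) = 0`, `g t = 0` by `last_of_right` (`pos t z < pos t k`);
* none of these: `last_step_none`, `keep`.
Sum over `t = 0, ..., T-1` (telescoping, `g T = g 0` by `last_per`, `pos_per`):
`#{ev y k} = #{ev z k ∧ g = 1}`, i.e. `lk k y = #{ev z k ∧ g = 1} ≤ #{ev z k} = lk k z = lk k y`, so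
every `t` in `[0,T)` with `ev z k t` has `g t = 1`, i.e. `last k y z t`; for general `t` reduce mod
`T` (`Int.emod_add_ediv`, `ev_per`, `last_per`).
PROOF of `rule_P2` (`ev k z t`): let `u > t` be the first time with `cr k y u ∨ cr k z u`
(`exists_ev`, `exists_first`). If `cr k z u`: `k` is left of `z` at `t + 1` and at `u` (`keep_Ico`), so
`ev z k u`, `rule_P4`: `last k y z u`; but `last k z y u` with witness `t`: `last_excl`. So `cr k y u`;
`pos t y < pos t z < pos t k`, so `pos (t+1) y < pos (t+1) k` (`keep`, no crossing of `k`, `y` at `t`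
as `cr k z t`), `keep_Ico`, `ev k y u`. -/

namespace Pool.Agent.H70.AG

namespace Dia

variable {n : ℕ} {D : Dia n}

private lemma zp_ne {y z k : Fin n} (hz : D.ZP y z k) : y ≠ z ∧ k ≠ y ∧ k ≠ z := by
  refine ⟨?_, ?_, ?_⟩
  · rintro rfl
    exact lt_irrefl _ (hz.left 0)
  · rintro rfl
    have h1 := hz.pos
    rw [D.lk_self] at h1
    omega
  · rintro rfl
    have h1 := hz.same
    have h2 := hz.pos
    rw [D.lk_self] at h1
    omega

/-- After a crossing the two strands are neighbours. -/
private lemma cr_adj {a b : Fin n} {t : ℤ} (h : D.cr a b t) :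
    D.pos (t + 1) a = D.pos (t + 1) b + 1 ∨ D.pos (t + 1) b = D.pos (t + 1) a + 1 := by
  have h1 := D.step_lm t
  have h2 := D.step_rm t
  have h3 := D.adj t
  rcases h with h | h
  · rw [h.1, h.2] at *
    omega
  · rw [h.1, h.2] at *
    omega

theorem last_of_left {y z k : Fin n} (hz : D.ZP y z k) {t : ℤ} (h : D.pos t k < D.pos t y) :
    D.last k y z t := by
  obtain ⟨hyz, hky, hkz⟩ := zp_ne hz
  rcases last_or z hz.pos t with h1 | h1
  · exact h1
  · exfalso
    obtain ⟨u, hu, hc, hno⟩ := h1
    have h2 : D.pos (u + 1) k < D.pos (u + 1) y := by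
      rw [← keep_Ico hky (by omega : u + 1 ≤ t)]
      · exact h
      · intro v hv1 hv2
        exact (hno v (by omega) hv2).2
    have h3 := cr_adj hc
    have h4 := hz.left (u + 1)
    omega

theorem last_of_right {y z k : Fin n} (hz : D.ZP y z k) {t : ℤ} (h : D.pos t z < D.pos t k) :
    D.last k z y t := by
  obtain ⟨hyz, hky, hkz⟩ := zp_ne hz
  rcases last_or z hz.pos t with h1 | h1
  · exfalso
    obtain ⟨u, hu, hc, hno⟩ := h1
    have h2 : D.pos (u + 1) z < D.pos (u + 1) k := by
      rw [← keep_Ico hkz.symm (by omega : u + 1 ≤ t)]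
      · exact h
      · intro v hv1 hv2 hcc
        exact (hno v (by omega) hv2).2 (cr_comm.1 hcc)
    have h3 := cr_adj hc
    have h4 := hz.left (u + 1)
    omega
  · exact h1

theorem rule_P3 (h : D.Rigid) {y z k : Fin n} (hz : D.ZP y z k) {t : ℤ} (ht : D.ev k y t) :
    D.last k z y t := by
  obtain ⟨hyz, hky, hkz⟩ := zp_ne hz
  rcases last_or z hz.pos t with h1 | h1
  · exfalso
    obtain ⟨u, hu, hc, hno⟩ := h1
    have h2 : D.pos (u + 1) y < D.pos (u + 1) k := by
      rw [← keep_Ico hky.symm (by omega : u + 1 ≤ t)]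
      · exact ht.pos_lt
      · intro v hv1 hv2 hcc
        exact (hno v (by omega) hv2).1 (cr_comm.1 hcc)
    have h3 : D.ev y k u := by
      rcases hc with hc | hc
      · have := hc.pos_lt'
        omega
      · exact hc
    obtain ⟨u', h4, h5, h6⟩ := rule_P1 h hz h3
    have h7 : u' ≤ t := by
      by_contra hcon
      exact (h6 t hu (by omega)).1 (Or.inl ht)
    rcases lt_or_eq_of_le h7 with h8 | h8
    · exact (hno u' h4 h8).2 (Or.inr h5)
    · subst h8
      exact hkz (ht.1.symm.trans h5.1)
  · exact h1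

/-- The indicator used for the counting argument. -/
private noncomputable def gP (D : Dia n) (y z k : Fin n) (t : ℤ) : ℤ :=
  open Classical in if D.last k y z t ∧ D.pos t y < D.pos t k then 1 else 0

private lemma gP_step (h : D.Rigid) {y z k : Fin n} (hz : D.ZP y z k) (t : ℤ) :
    gP D y z k (t + 1) = gP D y z k t + (if D.ev y k t then 1 else 0)
      - (if D.ev z k t then gP D y z k t else 0) := by
  classical
  obtain ⟨hyz, hky, hkz⟩ := zp_ne hz
  by_cases c1 : D.ev y k t
  · have e1 : gP D y z k t = 0 := by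
      unfold gP
      rw [if_neg]
      rintro ⟨-, h2⟩
      have := c1.pos_lt
      omega
    have e2 : gP D y z k (t + 1) = 1 := by
      unfold gP
      rw [if_pos]
      exact ⟨last_step_fst (Or.inr c1), c1.pos_lt'⟩
    have e3 : ¬ D.ev z k t := fun hc => hyz (c1.1.symm.trans hc.1)
    rw [e1, e2, if_pos c1, if_neg e3]
    norm_num
  · by_cases c2 : D.ev k y t
    · have e1 : gP D y z k t = 0 := by
        unfold gP
        rw [if_neg]
        rintro ⟨h2, -⟩
        exact last_excl hyz h2 (rule_P3 h hz c2)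
      have e2 : gP D y z k (t + 1) = 0 := by
        unfold gP
        rw [if_neg]
        rintro ⟨-, h2⟩
        have := c2.pos_lt'
        omega
      have e3 : ¬ D.ev z k t := fun hc => hkz (c2.1.symm.trans hc.1)
      rw [e1, e2, if_neg c1, if_neg e3]
      norm_num
    · by_cases c3 : D.ev z k t
      · have e2 : gP D y z k (t + 1) = 0 := by
          unfold gP
          rw [if_neg]
          rintro ⟨h2, -⟩
          exact last_step_snd hyz (Or.inr c3) h2
        rw [e2, if_neg c1, if_pos c3]
        ring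
      · by_cases c4 : D.ev k z t
        · have e1 : gP D y z k t = 0 := by
            unfold gP
            rw [if_neg]
            rintro ⟨h2, -⟩
            exact last_excl hyz h2 (last_of_right hz c4.pos_lt)
          have e2 : gP D y z k (t + 1) = 0 := by
            unfold gP
            rw [if_neg]
            rintro ⟨h2, -⟩
            exact last_step_snd hyz (Or.inl c4) h2
          rw [e1, e2, if_neg c1, if_neg c3]
          norm_num
        · have e1 : ¬ D.cr k y t := by
            rintro (hc | hc)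
            · exact c2 hc
            · exact c1 hc
          have e2 : ¬ D.cr k z t := by
            rintro (hc | hc)
            · exact c4 hc
            · exact c3 hc
          have e3 : gP D y z k (t + 1) = gP D y z k t := by
            unfold gP
            have h1 := last_step_none e1 e2
            have h2 := keep (D := D) hky.symm (fun hc => e1 (cr_comm.1 hc))
            simp only [h1, h2]
          rw [e3, if_neg c1, if_neg c3]
          ring

private lemma gP_per (y z k : Fin n) (t x : ℤ) : gP D y z k (t + x * D.T) = gP D y z k t := by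
  unfold gP
  rw [D.pos_per]
  have h1 := last_per (D := D) k y z t x
  by_cases h2 : D.last k y z t
  · have h3 := h1.2 h2
    simp only [h2, h3]
  · have h3 : ¬ D.last k y z (t + x * D.T) := fun h4 => h2 (h1.1 h4)
    simp only [h2, h3]

theorem rule_P4 (h : D.Rigid) {y z k : Fin n} (hz : D.ZP y z k) {t : ℤ} (ht : D.ev z k t) :
    D.last k y z t := by
  classical
  obtain ⟨hyz, hky, hkz⟩ := zp_ne hz
  have h1 : ∀ m : ℕ, gP D y z k (m : ℤ) = gP D y z k 0
      + ∑ i ∈ Finset.range m, ((if D.ev y k (i : ℤ) then 1 else 0)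
      - (if D.ev z k (i : ℤ) then gP D y z k (i : ℤ) else 0)) := by
    intro m
    induction m with
    | zero => simp
    | succ m ih =>
      rw [Finset.sum_range_succ, ← add_assoc, ← ih]
      push_cast
      rw [gP_step h hz]
      ring
  have h2 := h1 D.T
  have h3 : gP D y z k (D.T : ℤ) = gP D y z k 0 := by
    have := gP_per (D := D) y z k 0 1
    rwa [zero_add, one_mul] at this
  rw [h3] at h2
  have h4 : ∑ i ∈ Finset.range D.T, (if D.ev y k (i : ℤ) then (1 : ℤ) else 0) = D.lk k y := by
    rw [Finset.sum_boole, lk]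
  have h5 : ∑ i ∈ Finset.range D.T, (if D.ev z k (i : ℤ) then (1 : ℤ) else 0) = D.lk k z := by
    rw [Finset.sum_boole, lk]
  rw [Finset.sum_sub_distrib, h4, hz.same, ← h5] at h2
  have h6 : ∑ i ∈ Finset.range D.T, (if D.ev z k (i : ℤ) then gP D y z k (i : ℤ) else 0)
      = ∑ i ∈ Finset.range D.T, (if D.ev z k (i : ℤ) then (1 : ℤ) else 0) := by linarith
  have hle : ∀ i ∈ Finset.range D.T, (if D.ev z k (i : ℤ) then gP D y z k (i : ℤ) else 0)
      ≤ (if D.ev z k (i : ℤ) then (1 : ℤ) else 0) := by
    intro i _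
    split_ifs
    · unfold gP
      split_ifs <;> norm_num
    · exact le_rfl
  have h7 := (Finset.sum_eq_sum_iff_of_le hle).1 h6
  have hT : (0 : ℤ) < D.T := by exact_mod_cast D.hT
  have hmod : t = (t % D.T) + (t / D.T) * D.T := by
    have := Int.emod_add_mul_ediv t D.T
    linarith
  have hr0 : 0 ≤ t % D.T := Int.emod_nonneg _ hT.ne'
  have hr1 : t % D.T < D.T := Int.emod_lt_of_pos _ hT
  obtain ⟨i, hi⟩ : ∃ i : ℕ, t % D.T = i := ⟨(t % D.T).toNat, by omega⟩
  rw [hi] at hmod hr1
  rw [hmod, D.ev_per] at ht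
  rw [hmod, last_per]
  have h8 := h7 i (Finset.mem_range.2 (by exact_mod_cast hr1))
  rw [if_pos ht, if_pos ht] at h8
  unfold gP at h8
  by_contra hcon
  rw [if_neg (by tauto)] at h8
  norm_num at h8

theorem rule_P2 (h : D.Rigid) {y z k : Fin n} (hz : D.ZP y z k) {t : ℤ} (ht : D.ev k z t) :
    ∃ u : ℤ, t < u ∧ D.ev k y u ∧ ∀ v : ℤ, t < v → v < u → ¬ D.cr k y v ∧ ¬ D.cr k z v := by
  obtain ⟨hyz, hky, hkz⟩ := zp_ne hz
  obtain ⟨u0, hu1, hu2, hu3⟩ := D.exists_ev hz.pos (t + 1)
  obtain ⟨u, h1, h2, h3⟩ := exists_first (P := fun u => D.cr k y u ∨ D.cr k z u) (t := t + 1)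
    ⟨u0, hu1, Or.inl (Or.inr hu3)⟩
  have hno : ∀ v : ℤ, t < v → v < u → ¬ D.cr k y v ∧ ¬ D.cr k z v := by
    intro v hv1 hv2
    have := h3 v (by omega) hv2
    tauto
  rcases h2 with h2 | h2
  · have hp1 : D.pos t y < D.pos t k := lt_trans (hz.left t) ht.pos_lt
    have hp2 : D.pos (t + 1) y < D.pos (t + 1) k := by
      rw [keep hky.symm]
      · exact hp1
      · intro hc
        exact hyz (cr_unique (cr_comm.1 hc) (Or.inl ht))
    have hp3 : D.pos u y < D.pos u k := by
      rw [keep_Ico hky.symm (by omega : t + 1 ≤ u)]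
      · exact hp2
      · intro v hv1 hv2 hc
        exact (hno v (by omega) hv2).1 (cr_comm.1 hc)
    exact ⟨u, by omega, cr_of_lt (cr_comm.1 h2) hp3, hno⟩
  · exfalso
    have hp3 : D.pos u k < D.pos u z := by
      rw [keep_Ico hkz (by omega : t + 1 ≤ u)]
      · exact ht.pos_lt'
      · intro v hv1 hv2 hc
        exact (hno v (by omega) hv2).2 hc
    have h4 : D.last k y z u := rule_P4 h hz (cr_of_lt h2 hp3)
    have h5 : D.last k z y u := by
      refine ⟨t, by omega, Or.inl ht, ?_⟩
      intro v hv1 hv2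
      exact ⟨(hno v hv1 hv2).2, (hno v hv1 hv2).1⟩
    exact last_excl hyz h4 h5

end Dia

end Pool.Agent.H70.AG
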