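import Mathlib
import Pool.Agent.H70.AG.RP2

set_option autoImplicit false

/-! # Rule A: the parity is constant

`D.Par x x' z z' k t`: an even number of the four statements `last k x z t`, `last k x z' t`,
`last k x' z t`, `last k x' z' t` holds.
PROOF of `par_step` (`x ≠ x'`, `z ≠ z'`; also `x, x'` are different from `z, z'` and from `k`: `ZP`
with `left`, and `lk_self` with `pos`):
* `cr k x t`: the statements for `x'` are unchanged (`last_step_none`: `k` crosses only `x` at `t`,
  `cr_unique`). `last k x z (t+1)` and `last k x z' (t+1)` hold. Before: if `ev k x t` both are false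
  (`rule_P3` and `last_excl`); if `ev x k t` then `pos t k < pos t x` and both are true
  (`last_of_left`). In both cases `(last k x z t ↔ last k x z' t)` is true before and after.
* `cr k x' t`: the same with `x`, `x'` exchanged.
* `cr k z t`: the statements for `z'` are unchanged, `last k x z (t+1)`, `last k x' z (t+1)` are
  false (`last_step_snd`). Before: both true if `ev z k t` (`rule_P4`), both false if `ev k z t`
  (`last_of_right`, `last_excl`). So `last k x z` and `last k x' z` are equivalent before and after.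
* `cr k z' t`: the same.
* otherwise all four are unchanged.
`par_all`: `par_step`, induction in both directions (or periodicity `last_per`).
PROOF of `par_xL` (`ev k x t`): `rule_P3`: `last k z x t`, `last k z' x t`, so
`last k x z t`, `last k x z' t` are false (`last_excl`), and `(last k x z t ↔ last k x z' t)` is true;
so `(last k x' z t ↔ last k x' z' t)` is false. If `pos t k < pos t x'` both are true
(`last_of_left`), contradiction; so `pos t x' < pos t k = pos t x + 1` (`k ≠ x'`), and `x ≠ x'` gives
`pos t x' < pos t x`. One of `last k x' z t`, `last k x' z' t` is false, say the one for `w`; then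
`last k w x' t` (`last_or`), and `last k w x t`. -/

namespace Pool.Agent.H70.AG

namespace Dia

variable {n : ℕ} (D : Dia n)

/-- The parity of the four labels is even. -/
def Par (x x' z z' k : Fin n) (t : ℤ) : Prop :=
  (D.last k x z t ↔ D.last k x z' t) ↔ (D.last k x' z t ↔ D.last k x' z' t)

variable {D}

private lemma zp_ne {y z k : Fin n} (hz : D.ZP y z k) : y ≠ z ∧ k ≠ y ∧ k ≠ z := by
  refine ⟨?_, ?_, ?_⟩
  · rintro rfl
    exact lt_irrefl _ (hz.left 0)
  · rintro rfl
    have h1 := hz.pos
    rw [D.lk_self] at h1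
    omega
  · rintro rfl
    have h1 := hz.same
    have h2 := hz.pos
    rw [D.lk_self] at h1
    omega

/-- A crossing with `x`: the two statements about `x` are equivalent before. -/
private lemma par_aux1 (h : D.Rigid) {x z z' k : Fin n} (h1 : D.ZP x z k) (h2 : D.ZP x z' k)
    {t : ℤ} (hc : D.cr k x t) : (D.last k x z t ↔ D.last k x z' t) := by
  rcases hc with hc | hc
  · -- `ev x k t`: `D.ev k x`?
    have e1 : ¬ D.last k x z t := fun hh => last_excl (zp_ne h1).1 hh (rule_P3 h h1 hc)
    have e2 : ¬ D.last k x z' t := fun hh => last_excl (zp_ne h2).1 hh (rule_P3 h h2 hc)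
    tauto
  · have hp := hc.pos_lt
    have e1 : D.last k x z t := last_of_left h1 hp
    have e2 : D.last k x z' t := last_of_left h2 hp
    tauto

/-- A crossing with `z`: the two statements about `z` are equivalent before. -/
private lemma par_aux2 (h : D.Rigid) {x x' z k : Fin n} (h1 : D.ZP x z k) (h3 : D.ZP x' z k)
    {t : ℤ} (hc : D.cr k z t) : (D.last k x z t ↔ D.last k x' z t) := by
  rcases hc with hc | hc
  · have hp := hc.pos_lt
    have e1 : ¬ D.last k x z t := fun hh => last_excl (zp_ne h1).1 hh (last_of_right h1 hp)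
    have e2 : ¬ D.last k x' z t := fun hh => last_excl (zp_ne h3).1 hh (last_of_right h3 hp)
    tauto
  · have e1 : D.last k x z t := rule_P4 h h1 hc
    have e2 : D.last k x' z t := rule_P4 h h3 hc
    tauto

private lemma logic1 {A B C E A' B' C' E' : Prop} (l1 : ¬ A') (l2 : ¬ C') (l3 : B' ↔ B)
    (l4 : E' ↔ E) (l5 : A ↔ C) : ((A' ↔ B') ↔ (C' ↔ E')) ↔ ((A ↔ B) ↔ (C ↔ E)) := by
  rw [l3, l4, l5, iff_false_intro l1, iff_false_intro l2]
  by_cases hC : C
  · rw [iff_true_intro hC]
    tauto
  · rw [iff_false_intro hC]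

private lemma logic2 {A B C E A' B' C' E' : Prop} (l1 : ¬ B') (l2 : ¬ E') (l3 : A' ↔ A)
    (l4 : C' ↔ C) (l5 : B ↔ E) : ((A' ↔ B') ↔ (C' ↔ E')) ↔ ((A ↔ B) ↔ (C ↔ E)) := by
  rw [l3, l4, l5, iff_false_intro l1, iff_false_intro l2]
  by_cases hE : E
  · rw [iff_true_intro hE]
    tauto
  · rw [iff_false_intro hE]

theorem par_step (h : D.Rigid) {x x' z z' k : Fin n} (h1 : D.ZP x z k) (h2 : D.ZP x z' k)
    (h3 : D.ZP x' z k) (h4 : D.ZP x' z' k) (hx : x ≠ x') (hz : z ≠ z') (t : ℤ) :
    D.Par x x' z z' k (t + 1) ↔ D.Par x x' z z' k t := by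
  have nxz := (zp_ne h1).1
  have nxz' := (zp_ne h2).1
  have nx'z := (zp_ne h3).1
  have nx'z' := (zp_ne h4).1
  unfold Par
  by_cases c1 : D.cr k x t
  · have e1 : ¬ D.cr k x' t := fun hc => hx (cr_unique c1 hc)
    have e2 : ¬ D.cr k z t := fun hc => nxz (cr_unique c1 hc)
    have e3 : ¬ D.cr k z' t := fun hc => nxz' (cr_unique c1 hc)
    have l1 : D.last k x z (t + 1) := last_step_fst c1
    have l2 : D.last k x z' (t + 1) := last_step_fst c1
    have l3 := last_step_none e1 e2
    have l4 := last_step_none e1 e3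
    have l5 := par_aux1 h h1 h2 c1
    rw [l3, l4, iff_true_intro l1, iff_true_intro l2, iff_true_intro l5, iff_self]
  · by_cases c2 : D.cr k x' t
    · have e2 : ¬ D.cr k z t := fun hc => nx'z (cr_unique c2 hc)
      have e3 : ¬ D.cr k z' t := fun hc => nx'z' (cr_unique c2 hc)
      have l1 : D.last k x' z (t + 1) := last_step_fst c2
      have l2 : D.last k x' z' (t + 1) := last_step_fst c2
      have l3 := last_step_none c1 e2
      have l4 := last_step_none c1 e3
      have l5 := par_aux1 h h3 h4 c2
      rw [l3, l4, iff_true_intro l1, iff_true_intro l2, iff_true_intro l5, iff_self]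
    · by_cases c3 : D.cr k z t
      · have e3 : ¬ D.cr k z' t := fun hc => hz (cr_unique c3 hc)
        have l1 : ¬ D.last k x z (t + 1) := last_step_snd nxz c3
        have l2 : ¬ D.last k x' z (t + 1) := last_step_snd nx'z c3
        have l3 := last_step_none c1 e3
        have l4 := last_step_none c2 e3
        have l5 := par_aux2 h h1 h3 c3
        exact logic1 l1 l2 l3 l4 l5
      · by_cases c4 : D.cr k z' t
        · have l1 : ¬ D.last k x z' (t + 1) := last_step_snd nxz' c4
          have l2 : ¬ D.last k x' z' (t + 1) := last_step_snd nx'z' c4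
          have l3 := last_step_none c1 c3
          have l4 := last_step_none c2 c3
          have l5 := par_aux2 h h2 h4 c4
          exact logic2 l1 l2 l3 l4 l5
        · rw [last_step_none c1 c3, last_step_none c1 c4, last_step_none c2 c3,
            last_step_none c2 c4]

theorem par_all (h : D.Rigid) {x x' z z' k : Fin n} (h1 : D.ZP x z k) (h2 : D.ZP x z' k)
    (h3 : D.ZP x' z k) (h4 : D.ZP x' z' k) (hx : x ≠ x') (hz : z ≠ z') (t u : ℤ) :
    D.Par x x' z z' k t ↔ D.Par x x' z z' k u := by
  have key : ∀ (d : ℕ) (v : ℤ), D.Par x x' z z' k (v + d) ↔ D.Par x x' z z' k v := by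
    intro d
    induction d with
    | zero => intro v; simp
    | succ d ih =>
      intro v
      have e : v + ((d + 1 : ℕ) : ℤ) = (v + d) + 1 := by push_cast; ring
      rw [e, par_step h h1 h2 h3 h4 hx hz, ih]
  rcases le_total t u with htu | htu
  · obtain ⟨d, hd⟩ : ∃ d : ℕ, u = t + d := ⟨(u - t).toNat, by omega⟩
    rw [hd, key]
  · obtain ⟨d, hd⟩ : ∃ d : ℕ, t = u + d := ⟨(t - u).toNat, by omega⟩
    rw [hd, key]

theorem par_xL (h : D.Rigid) {x x' z z' k : Fin n} (h1 : D.ZP x z k) (h2 : D.ZP x z' k)
    (h3 : D.ZP x' z k) (h4 : D.ZP x' z' k) (hx : x ≠ x') (hz : z ≠ z') {t : ℤ}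
    (hp : ¬ D.Par x x' z z' k t) (ht : D.ev k x t) :
    D.pos t x' < D.pos t x ∧ ∃ w, (w = z ∨ w = z') ∧ D.last k w x t ∧ D.last k w x' t := by
  have a1 := rule_P3 h h1 ht
  have a2 := rule_P3 h h2 ht
  have b1 : ¬ D.last k x z t := fun hh => last_excl (zp_ne h1).1 hh a1
  have b2 : ¬ D.last k x z' t := fun hh => last_excl (zp_ne h2).1 hh a2
  have b3 : ¬ (D.last k x' z t ↔ D.last k x' z' t) := by
    unfold Par at hp
    tauto
  have hkx' : k ≠ x' := (zp_ne h3).2.1
  constructor
  · by_contra hcon
    have c1 : D.pos t k < D.pos t x' := by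
      have e1 := ht.adj
      have e2 := D.pos_ne hx t
      have e3 := D.pos_ne hkx' t
      omega
    exact b3 ⟨fun _ => last_of_left h4 c1, fun _ => last_of_left h3 c1⟩
  · by_cases c : D.last k x' z t
    · have d : ¬ D.last k x' z' t := by tauto
      refine ⟨z', Or.inr rfl, a2, ?_⟩
      rcases last_or z' h4.pos t with e | e
      · exact absurd e d
      · exact e
    · refine ⟨z, Or.inl rfl, a1, ?_⟩
      rcases last_or z h3.pos t with e | e
      · exact absurd e c
      · exact e

/-- The parity does not change when `x` and `x'` are exchanged. -/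
theorem par_comm {x x' z z' k : Fin n} {t : ℤ} :
    D.Par x x' z z' k t ↔ D.Par x' x z z' k t := by
  unfold Par
  exact ⟨fun h => h.symm, fun h => h.symm⟩

end Dia

end Pool.Agent.H70.AG
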