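import Mathlib
import Pool.Agent.H70.AG.RA1
import Pool.Agent.H70.AG.Wal

set_option autoImplicit false

/-! # Rule A: dynamics of functions vanishing on the right part

Colours `s`: `0` at `x`, `x'`, `z`, `z'`, `c` at `k`, `1` otherwise; `S = {x, x', z, z', k}`,
`V = {z, z'}`. `f` vanishes on `S \ Lf S V t0`; `f_m = W s t0 m *ᵥ f`.
PROOF of `vanish`: `i ∈ S \ Lf (t0+m)`: in `∑ j, W s t0 m i j * f j` the entry vanishes for `j ∉ S`
(`W_closed`) and for `j ∈ Lf t0` (`W_wall`), and `f j = 0` for the other `j`.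
`step_mulVec`: `f_(m+1) = E s (t0+m) *ᵥ f_m`; by `E_of_ne`, `E_rm`, `E_go`, `E_other`:
`f_(m+1) i = f_m i` for `i ≠ rm`, `f_(m+1) (rm) = s (lm) f_m (rm) + (1 - s (lm)) f_m (lm)`.
PROOF of `k_zero` (`k ∉ Lf S V t0`, i.e. some `w ∈ V` is left of `k` at `t0`; statement: if some
`w ∈ {z, z'}` has `last k w x` and `last k w x'` at time `t0 + m` then `f_m k = 0`). Induction on `m`.
`m = 0`: `k ∈ S \ Lf`. Step, `t = t0 + m`, assume the condition for `w` at `t + 1`. If
`k ∉ Lf (t+1)`: `vanish`. Otherwise `k ∈ Lf (t+1)`, i.e. left of `z`, `z'` at `t + 1`.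
- If `k ∉ Lf t`: some `w' ∈ V` is left of `k` at `t` and right of `k` at `t + 1`, so they cross
  (`keep`), `ev k w' t` (`cr_of_lt`), `lm t = k`, so `k ≠ rm t` and `f_(m+1) k = f_m k = 0` by `vanish`
  at `t`.
- If `k ∈ Lf t`: `k` crosses neither `z` nor `z'` at `t` (a crossing changes the order), and neither
  `x` nor `x'` (`cr k x t` would give `last k x w (t+1)`, against `last_excl`; the same for `x'`). So
  the condition for `w` holds at `t` (`last_step_none`), `f_m k = 0` by induction; if `k ≠ rm t`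
  then `f_(m+1) k = f_m k`; if `k = rm t` then `lm t ∉ S`, so `s (lm t) = 1` and again
  `f_(m+1) k = f_m k`.
PROOF of `run_r`: `rt x x' t` is the right one of `x`, `x'` at time `t`. Induction on `m`,
`t = t0 + m`, `r = rt t`.
- `cr x x' t`, say `ev b a t`, `{a, b} = {x, x'}`: `r = b` (`pos t a < pos t b`), `rt (t+1) = a = rm t`
  (`ev.pos_lt'`), `s (lm t) = s b = 0`, so `f_(m+1) a = f_m b`; the count does not change
  (`lm t ≠ k`).
- no crossing of `x`, `x'`: `rt (t+1) = rt t` (`keep`). If `rm t ≠ r`: the value is unchanged, and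
  the count, too: `ev k x t` or `ev k x' t` would give `rm t = r` by `par_xL` (for `x'` use it with
  `x`, `x'` exchanged and `par_comm`). If `rm t = r` and `lm t = k`: the count increases by one and
  `f_(m+1) r = c f_m r + (1 - c) f_m k` with `f_m k = 0` by `par_xL` and `k_zero`. If `rm t = r` and
  `lm t = b ≠ k`: `b ≠ z, z'` (`no_cr`), `b ≠ x, x'`, so `s b = 1`, unchanged, count unchanged. -/

namespace Pool.Agent.H70.AG

open Matrix

namespace Dia

variable {n : ℕ} (D : Dia n)

/-- The right one of `x`, `x'`. -/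
def rt (x x' : Fin n) (t : ℤ) : Fin n := if D.pos t x' < D.pos t x then x else x'

/-- The colours of rule A. -/
noncomputable def colA (x x' z z' k : Fin n) (c : ℝ) : Fin n → ℝ := fun i =>
  if i = x ∨ i = x' ∨ i = z ∨ i = z' then 0 else if i = k then c else 1

/-- The set of strands of rule A. -/
def setA (x x' z z' k : Fin n) : Finset (Fin n) := {x, x', z, z', k}

theorem step_mulVec (s : Fin n → ℝ) (t0 : ℤ) (m : ℕ) (f : Fin n → ℝ) (i : Fin n) :
    (D.W s t0 (m + 1) *ᵥ f) i = if i = D.rm (t0 + m) then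
      s (D.lm (t0 + m)) * (D.W s t0 m *ᵥ f) i + (1 - s (D.lm (t0 + m))) *
        (D.W s t0 m *ᵥ f) (D.lm (t0 + m)) else (D.W s t0 m *ᵥ f) i := by
  have h : (D.W s t0 (m + 1) *ᵥ f) i = ∑ j, (D.E s (t0 + m) * D.W s t0 m) i j * f j := by
    rw [W_succ']
    rfl
  rw [h]
  by_cases hi : i = D.rm (t0 + m)
  · rw [if_pos hi, hi]
    simp only [E_mul_rm, add_mul, Finset.sum_add_distrib, mul_assoc, ← Finset.mul_sum]
    rfl
  · rw [if_neg hi]
    simp only [E_mul_ne D s hi]
    rfl

theorem colA_off {x x' z z' k : Fin n} (c : ℝ) (j : Fin n) (hj : j ∉ setA x x' z z' k) :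
    colA x x' z z' k c j = 1 := by
  simp only [setA, Finset.mem_insert, Finset.mem_singleton, not_or] at hj
  unfold colA
  rw [if_neg (by tauto), if_neg (by tauto)]

theorem colA_wall {x x' z z' k : Fin n} (c : ℝ) (y : Fin n)
    (hy : y ∈ ({z, z'} : Finset (Fin n))) : colA x x' z z' k c y = 0 := by
  simp only [Finset.mem_insert, Finset.mem_singleton] at hy
  unfold colA
  rw [if_pos (by tauto)]

theorem colA_fst {x x' z z' k : Fin n} (c : ℝ) : colA x x' z z' k c x = 0 := by
  unfold colA
  rw [if_pos (Or.inl rfl)]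

theorem colA_snd {x x' z z' k : Fin n} (c : ℝ) : colA x x' z z' k c x' = 0 := by
  unfold colA
  rw [if_pos (Or.inr (Or.inl rfl))]

theorem colA_k {x x' z z' k : Fin n} (c : ℝ) (h : ¬ (k = x ∨ k = x' ∨ k = z ∨ k = z')) :
    colA x x' z z' k c k = c := by
  unfold colA
  rw [if_neg h, if_pos rfl]

variable {D}

theorem vanish {s : Fin n → ℝ} {S V : Finset (Fin n)} (hS : ∀ j, j ∉ S → s j = 1)
    (hV : ∀ y ∈ V, s y = 0) {t0 : ℤ} {f : Fin n → ℝ} (hf : ∀ i ∈ S, i ∉ D.Lf S V t0 → f i = 0)
    (m : ℕ) {i : Fin n} (hi : i ∈ S) (hi' : i ∉ D.Lf S V (t0 + m)) :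
    (D.W s t0 m *ᵥ f) i = 0 := by
  change ∑ j, D.W s t0 m i j * f j = 0
  apply Finset.sum_eq_zero
  intro j _
  by_cases hj : j ∈ S
  · by_cases hj' : j ∈ D.Lf S V t0
    · rw [W_wall hS hV hi hi' hj', zero_mul]
    · rw [hf j hj hj', mul_zero]
  · rw [W_closed D hS _ _ hi hj, zero_mul]

private lemma zpn {y z k : Fin n} (hz : D.ZP y z k) : y ≠ z ∧ k ≠ y ∧ k ≠ z := by
  refine ⟨?_, ?_, ?_⟩
  · rintro rfl
    exact lt_irrefl _ (hz.left 0)
  · rintro rfl
    have h1 := hz.pos
    rw [D.lk_self] at h1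
    omega
  · rintro rfl
    have h1 := hz.same
    have h2 := hz.pos
    rw [D.lk_self] at h1
    omega

theorem k_zero {x x' z z' k : Fin n} (h1 : D.ZP x z k) (h2 : D.ZP x z' k)
    (h3 : D.ZP x' z k) (h4 : D.ZP x' z' k) (c : ℝ) {t0 : ℤ}
    (hk : k ∉ D.Lf (setA x x' z z' k) {z, z'} t0) {f : Fin n → ℝ}
    (hf : ∀ i ∈ setA x x' z z' k, i ∉ D.Lf (setA x x' z z' k) {z, z'} t0 → f i = 0) (m : ℕ)
    (hw : ∃ w, (w = z ∨ w = z') ∧ D.last k w x (t0 + m) ∧ D.last k w x' (t0 + m)) :
    (D.W (colA x x' z z' k c) t0 m *ᵥ f) k = 0 := by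
  have kS : k ∈ setA x x' z z' k := by simp [setA]
  have sS := colA_off (x := x) (x' := x') (z := z) (z' := z') (k := k) c
  have sV := colA_wall (x := x) (x' := x') (z := z) (z' := z') (k := k) c
  induction m with
  | zero =>
    refine vanish sS sV hf 0 kS ?_
    rwa [Nat.cast_zero, add_zero]
  | succ m ih =>
    by_cases hk1 : k ∈ D.Lf (setA x x' z z' k) {z, z'} (t0 + (m + 1 : ℕ))
    swap
    · exact vanish sS sV hf (m + 1) kS hk1
    obtain ⟨w, hw1, hw2, hw3⟩ := hw
    have e : t0 + ((m + 1 : ℕ) : ℤ) = t0 + m + 1 := by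
      push_cast
      ring
    have hwV : w ∈ ({z, z'} : Finset (Fin n)) := by
      simp only [Finset.mem_insert, Finset.mem_singleton]
      exact hw1
    have hwx : w ≠ x := by
      rcases hw1 with rfl | rfl
      · exact (zpn h1).1.symm
      · exact (zpn h2).1.symm
    have hwx' : w ≠ x' := by
      rcases hw1 with rfl | rfl
      · exact (zpn h3).1.symm
      · exact (zpn h4).1.symm
    rw [e] at hw2 hw3 hk1
    rw [step_mulVec]
    rw [mem_Lf] at hk1
    by_cases hk2 : k ∈ D.Lf (setA x x' z z' k) {z, z'} (t0 + m)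
    · rw [mem_Lf] at hk2
      have ncr : ∀ y ∈ ({z, z'} : Finset (Fin n)), ¬ D.cr k y (t0 + m) := by
        intro y hy hc
        have h5 := hk2.2 y hy
        have h6 := hk1.2 y hy
        have h7 := (cr_of_lt hc h5).pos_lt'
        omega
      have ncx : ¬ D.cr k x (t0 + m) := fun hc => last_excl hwx hw2 (last_step_fst hc)
      have ncx' : ¬ D.cr k x' (t0 + m) := fun hc => last_excl hwx' hw3 (last_step_fst hc)
      have hw2' : D.last k w x (t0 + m) := (last_step_none (ncr w hwV) ncx).1 hw2
      have hw3' : D.last k w x' (t0 + m) := (last_step_none (ncr w hwV) ncx').1 hw3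
      have ih' := ih ⟨w, hw1, hw2', hw3'⟩
      by_cases hr : k = D.rm (t0 + m)
      · have hl : D.lm (t0 + m) ∉ setA x x' z z' k := by
          intro hl
          simp only [setA, Finset.mem_insert, Finset.mem_singleton] at hl
          rcases hl with hl | hl | hl | hl | hl
          · exact ncx (Or.inr ⟨hl, hr.symm⟩)
          · exact ncx' (Or.inr ⟨hl, hr.symm⟩)
          · exact ncr z (by simp) (Or.inr ⟨hl, hr.symm⟩)
          · exact ncr z' (by simp) (Or.inr ⟨hl, hr.symm⟩)
          · exact D.lm_ne_rm _ (hl.trans hr)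
        rw [if_pos hr, sS _ hl, ih', mul_zero, sub_self, zero_mul, add_zero]
      · rw [if_neg hr, ih']
    · have hv := vanish sS sV hf m kS hk2
      have hr : k ≠ D.rm (t0 + m) := by
        intro hr
        rw [mem_Lf] at hk2
        have hex : ∃ y ∈ ({z, z'} : Finset (Fin n)), D.pos (t0 + m) y ≤ D.pos (t0 + m) k := by
          by_contra hcon
          push Not at hcon
          exact hk2 ⟨kS, hcon⟩
        obtain ⟨y, hy, hyk⟩ := hex
        have hne : y ≠ k := by
          simp only [Finset.mem_insert, Finset.mem_singleton] at hy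
          rcases hy with rfl | rfl
          · exact (zpn h1).2.2.symm
          · exact (zpn h2).2.2.symm
        have h5 : D.pos (t0 + m) y < D.pos (t0 + m) k := lt_of_le_of_ne hyk (D.pos_ne hne _)
        have h6 := hk1.2 y hy
        have hc : D.cr y k (t0 + m) := by
          by_contra hcon
          have h7 := (keep hne hcon).2 h5
          omega
        exact D.lm_ne_rm _ ((cr_of_lt hc h5).1.trans hr)
      rw [if_neg hr, hv]

theorem run_r (h : D.Rigid) {x x' z z' k : Fin n} (h1 : D.ZP x z k) (h2 : D.ZP x z' k)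
    (h3 : D.ZP x' z k) (h4 : D.ZP x' z' k) (hx : x ≠ x') (hz : z ≠ z')
    (hp : ∀ t, ¬ D.Par x x' z z' k t) (c : ℝ) {t0 : ℤ}
    (hk : k ∉ D.Lf (setA x x' z z' k) {z, z'} t0) {f : Fin n → ℝ}
    (hf : ∀ i ∈ setA x x' z z' k, i ∉ D.Lf (setA x x' z z' k) {z, z'} t0 → f i = 0) (m : ℕ) :
    (D.W (colA x x' z z' k c) t0 m *ᵥ f) (D.rt x x' (t0 + m))
      = c ^ (((Finset.range m).filter fun j : ℕ => D.ev k x (t0 + j) ∨ D.ev k x' (t0 + j)).card)
        * f (D.rt x x' t0) := by
  have nkx := (zpn h1).2.1
  have nkx' := (zpn h3).2.1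
  have nkz := (zpn h1).2.2
  have nkz' := (zpn h2).2.2
  have sS := colA_off (x := x) (x' := x') (z := z) (z' := z') (k := k) c
  induction m with
  | zero =>
    simp only [Dia.W, Matrix.one_mulVec, Nat.cast_zero, add_zero, Finset.range_zero,
      Finset.filter_empty, Finset.card_empty, pow_zero, one_mul]
  | succ m ih =>
    have e : t0 + ((m + 1 : ℕ) : ℤ) = t0 + m + 1 := by
      push_cast
      ring
    have hN : (((Finset.range (m + 1)).filter fun j : ℕ =>
        D.ev k x (t0 + j) ∨ D.ev k x' (t0 + j)).card)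
        = (((Finset.range m).filter fun j : ℕ => D.ev k x (t0 + j) ∨ D.ev k x' (t0 + j)).card)
          + if D.ev k x (t0 + m) ∨ D.ev k x' (t0 + m) then 1 else 0 := by
      rw [Finset.card_filter, Finset.card_filter, Finset.sum_range_succ]
    rw [hN, pow_add, mul_right_comm, ← ih, e, step_mulVec]
    set t : ℤ := t0 + m with ht
    by_cases hc : D.cr x x' t
    · rcases hc with hc | hc
      · have a1 := hc.pos_lt
        have a2 := hc.pos_lt'
        have r1 : D.rt x x' t = x := by
          unfold rt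
          rw [if_pos a1]
        have r2 : D.rt x x' (t + 1) = x' := by
          unfold rt
          rw [if_neg (by omega)]
        have r3 : ¬ (D.ev k x t ∨ D.ev k x' t) := by
          rintro (h5 | h5)
          · exact nkx (h5.1.symm.trans hc.1)
          · exact nkx (h5.1.symm.trans hc.1)
        rw [r1, r2, if_neg r3, if_pos hc.2.symm, hc.1, colA_fst, pow_zero]
        ring
      · have a1 := hc.pos_lt
        have a2 := hc.pos_lt'
        have r1 : D.rt x x' t = x' := by
          unfold rt
          rw [if_neg (by omega)]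
        have r2 : D.rt x x' (t + 1) = x := by
          unfold rt
          rw [if_pos a2]
        have r3 : ¬ (D.ev k x t ∨ D.ev k x' t) := by
          rintro (h5 | h5)
          · exact nkx' (h5.1.symm.trans hc.1)
          · exact nkx' (h5.1.symm.trans hc.1)
        rw [r1, r2, if_neg r3, if_pos hc.2.symm, hc.1, colA_snd, pow_zero]
        ring
    · have r0 : D.rt x x' (t + 1) = D.rt x x' t := by
        unfold rt
        have h5 := keep hx.symm (fun h6 => hc (cr_comm.1 h6))
        by_cases h6 : D.pos t x' < D.pos t x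
        · rw [if_pos h6, if_pos (h5.2 h6)]
        · rw [if_neg h6, if_neg fun h7 => h6 (h5.1 h7)]
      rw [r0]
      have hrm : D.rt x x' t = x ∨ D.rt x x' t = x' := by
        unfold rt
        split_ifs
        · exact Or.inl rfl
        · exact Or.inr rfl
      have hP : (D.ev k x t ∨ D.ev k x' t) → D.rt x x' t = D.rm t ∧
          ∃ w, (w = z ∨ w = z') ∧ D.last k w x t ∧ D.last k w x' t := by
        rintro (h5 | h5)
        · obtain ⟨h6, w, hw1, hw2, hw3⟩ := par_xL h h1 h2 h3 h4 hx hz (hp t) h5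
          refine ⟨?_, w, hw1, hw2, hw3⟩
          unfold rt
          rw [if_pos h6, h5.2]
        · obtain ⟨h6, w, hw1, hw2, hw3⟩ := par_xL h h3 h4 h1 h2 hx.symm hz
            (fun h7 => hp t (par_comm.1 h7)) h5
          refine ⟨?_, w, hw1, hw3, hw2⟩
          unfold rt
          rw [if_neg (by omega), h5.2]
      by_cases hr : D.rt x x' t = D.rm t
      · rw [if_pos hr]
        by_cases hl : D.lm t = k
        · have hev : D.ev k x t ∨ D.ev k x' t := by
            rcases hrm with h5 | h5
            · exact Or.inl ⟨hl, hr.symm.trans h5⟩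
            · exact Or.inr ⟨hl, hr.symm.trans h5⟩
          obtain ⟨-, hw⟩ := hP hev
          rw [if_pos hev, hl, k_zero h1 h2 h3 h4 c hk hf m hw, colA_k c (by tauto), pow_one]
          ring
        · have hev : ¬ (D.ev k x t ∨ D.ev k x' t) := by
            rintro (h5 | h5)
            · exact hl h5.1
            · exact hl h5.1
          have hlS : D.lm t ∉ setA x x' z z' k := by
            intro hlS
            simp only [setA, Finset.mem_insert, Finset.mem_singleton] at hlS
            rcases hrm with h5 | h5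
            · have h6 : D.rm t = x := hr.symm.trans h5
              rcases hlS with h7 | h7 | h7 | h7 | h7
              · exact D.lm_ne_rm t (h7.trans h6.symm)
              · exact hc (Or.inr ⟨h7, h6⟩)
              · exact D.no_cr h1.zero t (Or.inr ⟨h7, h6⟩)
              · exact D.no_cr h2.zero t (Or.inr ⟨h7, h6⟩)
              · exact hl h7
            · have h6 : D.rm t = x' := hr.symm.trans h5
              rcases hlS with h7 | h7 | h7 | h7 | h7
              · exact hc (Or.inl ⟨h7, h6⟩)
              · exact D.lm_ne_rm t (h7.trans h6.symm)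
              · exact D.no_cr h3.zero t (Or.inr ⟨h7, h6⟩)
              · exact D.no_cr h4.zero t (Or.inr ⟨h7, h6⟩)
              · exact hl h7
          rw [if_neg hev, sS _ hlS, pow_zero]
          ring
      · rw [if_neg hr, if_neg fun h5 => hr (hP h5).1, pow_zero, mul_one]

end Dia

end Pool.Agent.H70.AG
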