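import Mathlib
import Pool.Agent.H70.AG.RA2
import Pool.Agent.H70.AG.BdA

set_option autoImplicit false

/-! # Rule A

PROOF. If `z = z'` both inner equivalences are trivially true. Let `z ≠ z'` and suppose the
statement (`Par x x' z z' k t`) fails; by `par_all` it fails at all times. `F = lk k x = lk k z =
lk k z' = lk k x'` (`ZP.same`), `> 0`. By `exists_ev` there is `u` with `ev z k u`; let `t0 = u + 1`:
`pos t0 z < pos t0 k`, so `k ∉ Lf S V t0` with `S = setA ..`, `V = {z, z'}`. Let `s = colA .. (1/2)`,
`W = W s t0 T`, `r = rt x x' t0 ∈ Lf S V t0` (`x`, `x'` are left of `z`, `z'`: `left`).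
`run_r` with `m = T` (`rt` is periodic: `pos_per` with `z = 1`): for `f` vanishing on `S \ Lf`,
`(W *ᵥ f) r = (1/2)^N * f r`, `N = #{j < T | ev k x ∨ ev k x'} = lk x k + lk x' k = 2 F` (disjoint
union, `Finset.filter_or`, `Finset.card_union_of_disjoint`, `lk_shift`, `lk_symm`). With
`f = Pi.single j 1`, `j ∈ Lf` (vanishes on `S \ Lf`): `W r j = 0` for `j ≠ r` and
`W r r = (1/2)^(2F)`. Take `E` with `IsE S E` (`exists_E`). `wall_root` with `m = 1`: some `e ∈ E` has
`∏ i, s i ^ e i = (1/2)^(2F) ≠ 0`, so `e` vanishes at `x`, `x'`, `z`, `z'` and the product is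
`(1/2)^(e k)`, so `e k = 2 F`. But by `coord_vals` (`lk a k = F` for the other `a ∈ S`) `e k` is `0` or
`F`, contradiction as `F > 0`. -/

namespace Pool.Agent.H70.AG

open Matrix

namespace Dia

variable {n : ℕ} {D : Dia n}

/-- Rule A. -/
theorem rule_A (h : D.Rigid) {x x' z z' k : Fin n} (h1 : D.ZP x z k) (h2 : D.ZP x z' k)
    (h3 : D.ZP x' z k) (h4 : D.ZP x' z' k) (hx : x ≠ x') (hl : 0 < D.lk x x') (t : ℤ) :
    (D.last k x z t ↔ D.last k x z' t) ↔ (D.last k x' z t ↔ D.last k x' z' t) := by
  classical
  by_cases hz : z = z'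
  · subst hz
    tauto
  by_contra hcon
  have hp : ∀ u, ¬ D.Par x x' z z' k u := by
    intro u hu
    exact hcon ((par_all h h1 h2 h3 h4 hx hz t u).2 hu)
  have hxk : k ≠ x := by
    rintro rfl
    have := h1.pos
    rw [D.lk_self] at this
    omega
  have hx'k : k ≠ x' := by
    rintro rfl
    have := h3.pos
    rw [D.lk_self] at this
    omega
  set F := D.lk k x with hF
  have hFpos : 0 < F := h1.pos
  have e1 : D.lk k z = F := h1.same.symm
  have e2 : D.lk k x' = F := h3.same.trans e1
  have e3 : D.lk k z' = F := h2.same.symm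
  obtain ⟨u, -, -, hu⟩ := D.exists_ev (by rw [e1]; exact hFpos : 0 < D.lk k z) t
  set S := setA x x' z z' k with hSdef
  set V : Finset (Fin n) := {z, z'} with hV
  set s := colA x x' z z' k (1 / 2) with hs
  have hk : k ∉ D.Lf S V (u + 1) := by
    intro hk
    have h5 := (D.mem_Lf.1 hk).2 z (by simp [hV])
    have h6 := hu.pos_lt'
    omega
  have h0 : ∀ i, 0 ≤ s i := by
    intro i
    rw [hs]
    unfold colA
    split_ifs <;> norm_num
  have h1' : ∀ i, s i ≤ 1 := by
    intro i
    rw [hs]
    unfold colA
    split_ifs <;> norm_num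
  have hS : ∀ j, j ∉ S → s j = 1 := by
    intro j hj
    rw [hSdef] at hj
    simp only [setA, Finset.mem_insert, Finset.mem_singleton, not_or] at hj
    rw [hs]
    unfold colA
    rw [if_neg (by tauto), if_neg (by tauto)]
  have hsV : ∀ y ∈ V, s y = 0 := by
    intro y hy
    rw [hV, Finset.mem_insert, Finset.mem_singleton] at hy
    rw [hs]
    unfold colA
    rw [if_pos (by tauto)]
  have hVS : V ⊆ S := by
    intro y hy
    rw [hV, Finset.mem_insert, Finset.mem_singleton] at hy
    rw [hSdef]
    simp only [setA, Finset.mem_insert, Finset.mem_singleton]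
    tauto
  have hleft : ∀ y, (y = x ∨ y = x') → y ∈ D.Lf S V (u + 1) := by
    intro y hy
    rw [D.mem_Lf]
    constructor
    · rw [hSdef]
      simp only [setA, Finset.mem_insert, Finset.mem_singleton]
      tauto
    · intro w hw
      rw [hV, Finset.mem_insert, Finset.mem_singleton] at hw
      rcases hy with rfl | rfl <;> rcases hw with rfl | rfl
      · exact h1.left _
      · exact h2.left _
      · exact h3.left _
      · exact h4.left _
  set r := D.rt x x' (u + 1) with hr
  have hrr : r = x ∨ r = x' := by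
    rw [hr]
    unfold rt
    split_ifs
    · left; rfl
    · right; rfl
  have hrL : r ∈ D.Lf S V (u + 1) := hleft r hrr
  have hper : D.rt x x' (u + 1 + D.T) = r := by
    rw [hr]
    unfold rt
    have := D.pos_per (u + 1) 1
    rw [one_mul] at this
    rw [this]
  -- the count
  have hcount : ((Finset.range D.T).filter fun j : ℕ => D.ev k x (u + 1 + j) ∨
      D.ev k x' (u + 1 + j)).card = 2 * F := by
    rw [Finset.filter_or, Finset.card_union_of_disjoint]
    · rw [D.lk_shift, D.lk_shift, D.lk_symm x k, D.lk_symm x' k, e2]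
      ring
    · rw [Finset.disjoint_filter]
      intro j _ c1 c2
      exact hx (c1.2.symm.trans c2.2)
  have hrun : ∀ f : Fin n → ℝ, (∀ i ∈ S, i ∉ D.Lf S V (u + 1) → f i = 0) →
      (D.W s (u + 1) D.T *ᵥ f) r = (1 / 2 : ℝ) ^ (2 * F) * f r := by
    intro f hf
    have h5 := run_r h h1 h2 h3 h4 hx hz hp (1 / 2) hk hf D.T
    rw [hper, hcount] at h5
    exact h5
  have hcol : ∀ j, (D.W s (u + 1) D.T *ᵥ Pi.single j 1) r = D.W s (u + 1) D.T r j := by
    intro j
    rw [Matrix.mulVec_single_one]
    rfl
  have hj : ∀ j ∈ D.Lf S V (u + 1), ∀ i ∈ S, i ∉ D.Lf S V (u + 1) →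
      (Pi.single j 1 : Fin n → ℝ) i = 0 := by
    intro j hj i _ hi
    rw [Pi.single_apply, if_neg]
    rintro rfl
    exact hi hj
  obtain ⟨E, hE⟩ := exists_E h S
  obtain ⟨e, he, heq⟩ := wall_root hE h0 h1' hS hsV (u + 1) 1 hrL (by
    intro j hj1 hjr
    rw [one_mul, ← hcol, hrun _ (hj j hj1), Pi.single_apply, if_neg (Ne.symm hjr), mul_zero])
  rw [one_mul, ← hcol, hrun _ (hj r hrL), Pi.single_apply, if_pos rfl, mul_one] at heq
  -- the vector `e`
  have hne : ∀ y, s y = 0 → e y = 0 := by
    intro y hy
    by_contra hey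
    have h5 : ∏ i, s i ^ (1 * e i) = 0 := by
      apply Finset.prod_eq_zero (Finset.mem_univ y)
      rw [hy, one_mul]
      exact zero_pow hey
    rw [h5] at heq
    have : (0 : ℝ) < (1 / 2 : ℝ) ^ (2 * F) := by positivity
    linarith
  have hkS : k ∈ S := by
    rw [hSdef]
    simp only [setA, Finset.mem_insert, Finset.mem_singleton]
    tauto
  have hkz : k ≠ z := by
    rintro rfl
    have := h1.same
    rw [D.lk_self] at this
    omega
  have hkz' : k ≠ z' := by
    rintro rfl
    have := h2.same
    rw [D.lk_self] at this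
    omega
  have hsk : s k = 1 / 2 := by
    rw [hs]
    unfold colA
    rw [if_neg (by tauto), if_pos rfl]
  have hprod : ∏ i, s i ^ (1 * e i) = (1 / 2 : ℝ) ^ (e k) := by
    rw [Finset.prod_eq_single k]
    · rw [hsk, one_mul]
    · intro b _ hbk
      by_cases hb : s b = 0
      · rw [hne b hb]
        simp
      · have : s b = 1 := by
          by_contra hb1
          apply hb
          rw [hs]
          unfold colA
          rw [if_pos]
          by_contra hcc
          apply hb1
          rw [hs]
          unfold colA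
          rw [if_neg hcc, if_neg hbk]
        rw [this, one_pow]
    · intro hh
      exact absurd (Finset.mem_univ k) hh
  rw [hprod] at heq
  have hek : e k = 2 * F := by
    have hinj : Function.Injective (fun a : ℕ => (1 / 2 : ℝ) ^ a) :=
      pow_right_injective₀ (by norm_num) (by norm_num)
    exact hinj heq
  have hmem : e k ∈ E.map (fun e => e k) := Multiset.mem_map_of_mem _ he
  rw [coord_vals hE hkS (F := F) (by
    intro a ha hak
    rw [hSdef] at ha
    simp only [setA, Finset.mem_insert, Finset.mem_singleton] at ha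
    rw [D.lk_symm]
    rcases ha with rfl | rfl | rfl | rfl | rfl
    · rfl
    · exact e2
    · exact e1
    · exact e3
    · exact absurd rfl hak)] at hmem
  rw [Multiset.mem_cons] at hmem
  rcases hmem with h5 | h5
  · omega
  · have := Multiset.eq_of_mem_replicate h5
    omega

end Dia

end Pool.Agent.H70.AG
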