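import Mathlib
import Pool.Agent.H70.AG.RP2
import Pool.Agent.H70.AG.BdA

set_option autoImplicit false

/-! # Rule G

PROOF. `F = lk k x = lk k z = lk k x'` (`ZP.same`), all `> 0`; `lk a k = F` for `a = x, x', z` by
`lk_symm`. At time `t`: `lm = x`, `rm = x'`, `pos t x' < pos t x < pos t k < pos t z`. Suppose both.
* `be < t`: witness of `last k x' z t`: `cr k x' be`, no crossing of `k` with `x'`, `z` in
  `(be, t)`; `k` is right of `x'` at `t`, hence at `be + 1`, so `ev x' k be`.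
  `t - T < be` (`exists_ev` in `[t-T, t)`; at `t - T` the crossing is `ev x x'`).
* witness `c < t` of `last k z x t`: `k` left of `z`, so `ev k z c`; `rule_P2` for `(x, z, k)` at `c`:
  `al > c` with `ev k x al`, no crossing of `k` with `x`, `z` in `(c, al)`; `al > t` (none in
  `(c, t)`, at `t` the crossing is `x`, `x'`); `al < t + T` (`exists_ev`, and at `t + T` the crossing
  is `ev x x'`).
* So `k` does not cross `z` in `(be, al)`: in `(be, t)` by the first, at `t` clear, in `(t, al)` by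
  the second item.
Let `q = (1/2)^(2T+2)`, `s x = s x' = 1/2`, `s z = 0`, `s k = q`, `1` otherwise, `τ = t + 1`.
Lower bound of `W s τ (2T) x' x'` by `W_ge` (several times), reading backwards from `τ + 2T`:
* `E s (t+2T) x' x = 1 - s x = 1/2` (`E_go`, periodicity);
* on `x` over the times `[al+T+1, t+2T)`: `stw_ge` with `i = x`: `≥ (1/2)^m * q^(number of
  `ev k x`)`; the number of `v` with `ev k x v` in `[al+T+1, t+2T)` is that in `[al+1, t+T)`, namely
  `F - 1`: there are `F` in `[t, t+T)` (`lk_shift`), none in `[t, al)`, one at `al`. Other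
  crossings with `rm = x`: `lm ≠ z` (never), `s ≥ 1/2`;
* `E s (al+T) x k = 1 - q ≥ 1/2`;
* on `k` over `[be+T+1, al+T)`: `stw_ge` with `i = k` (`k` itself in the role of `k`, the number of
  `ev k k` is `0`): `lm ≠ z` there, so `s (lm) ≥ 1/2`;
* `E s (be+T) k x' = 1 - s x' = 1/2`;
* on `x'` over `[t+1, be+T)`: `stw_ge` with `i = x'`: the number of `ev k x'` in `[t+1, be+T)` is
  `F`: there are `F` in `[be, be+T)` and none in `[be, t]`.
The lengths add up to `2T`: `W s τ (2T) x' x' ≥ (1/2)^(2T) * q^(2F-1)`. `boundA` for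
`S = {x, x', z, k}` (4 elements), the wall `z`, `m = 2`; `x' ∈ Lf` (`left`), the diagonal entries are
`≥ 0`: `(1/2)^(2T) * q^(2F-1) ≤ 3 * q^(2F)`, i.e. `(1/2)^(2T) ≤ 3 q = 3/4 * (1/2)^(2T)`,
contradiction. -/

namespace Pool.Agent.H70.AG

namespace Dia

variable {n : ℕ} {D : Dia n}

/-- Counting the moves of `k` over `x` in a part of a period. -/
theorem count_part (x k : Fin n) (t : ℤ) {a b : ℕ} (hab : a + b = D.T)
    (hno : ∀ j : ℕ, j < a → ¬ D.ev k x (t + j)) :
    ((Finset.range b).filter fun j : ℕ => D.ev k x (t + a + j)).card = D.lk x k := by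
  rw [← D.lk_shift x k t, ← hab, Finset.card_filter, Finset.card_filter, Finset.sum_range_add]
  have h1 : (∑ j ∈ Finset.range a, if D.ev k x (t + (j : ℤ)) then 1 else 0) = 0 := by
    apply Finset.sum_eq_zero
    intro j hj
    rw [Finset.mem_range] at hj
    rw [if_neg (hno j hj)]
  rw [h1, zero_add]
  apply Finset.sum_congr rfl
  intro j _
  have h2 : t + a + (j : ℤ) = t + ((a + j : ℕ) : ℤ) := by
    push_cast
    ring
  rw [h2]

private lemma zpg {y z k : Fin n} (hz : D.ZP y z k) : y ≠ z ∧ k ≠ y ∧ k ≠ z := by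
  refine ⟨?_, ?_, ?_⟩
  · rintro rfl
    exact lt_irrefl _ (hz.left 0)
  · rintro rfl
    have h1 := hz.pos
    rw [D.lk_self] at h1
    omega
  · rintro rfl
    have h1 := hz.same
    have h2 := hz.pos
    rw [D.lk_self] at h1
    omega

/-- A lower bound: one move. -/
private lemma move_ge {s : Fin n → ℝ} (h0 : ∀ i, 0 ≤ s i) (h1 : ∀ i, s i ≤ 1) {t : ℤ} {m : ℕ}
    {i l : Fin n} (hr : D.rm (t + m) = i) (hl : D.lm (t + m) = l) {j : Fin n} {A B : ℝ}
    (hA : A ≤ 1 - s l) (hB0 : 0 ≤ B) (hB : B ≤ D.W s t m l j) :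
    A * B ≤ D.W s t (m + 1) i j := by
  subst hr hl
  rw [W_succ', E_mul_rm]
  have h2 : 0 ≤ s (D.lm (t + m)) * D.W s t m (D.rm (t + m)) j :=
    mul_nonneg (h0 _) (W_nonneg D h0 h1 _ _ _ _)
  have h3 : A * B ≤ (1 - s (D.lm (t + m))) * D.W s t m (D.lm (t + m)) j :=
    mul_le_mul hA hB hB0 (by linarith [h1 (D.lm (t + m))])
  linarith

/-- A lower bound: staying. -/
private lemma stay_ge {s : Fin n → ℝ} (h0 : ∀ i, 0 ≤ s i) (h1 : ∀ i, s i ≤ 1) {t : ℤ} {m L : ℕ}
    {i j : Fin n} {A B : ℝ} (hA : A ≤ D.stw s i (t + m) L) (hB0 : 0 ≤ B)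
    (hB : B ≤ D.W s t m i j) : A * B ≤ D.W s t (m + L) i j := by
  refine le_trans ?_ (W_ge D h0 h1 t m L i i j)
  exact mul_le_mul (hA.trans (stw_le D h0 h1 _ _ _)) hB hB0 (W_nonneg D h0 h1 _ _ _ _)

/-- The colours of rule G. -/
private noncomputable def colG (x x' z k : Fin n) (q : ℝ) : Fin n → ℝ := fun i =>
  if i = x ∨ i = x' then 1 / 2 else if i = z then 0 else if i = k then q else 1

/-- Rule G. -/
theorem rule_G (h : D.Rigid) {x x' z k : Fin n} (hz : D.ZP x z k) (hz' : D.ZP x' z k)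
    {t : ℤ} (ht : D.ev x x' t) (h1 : D.pos t x < D.pos t k) (h2 : D.pos t k < D.pos t z) :
    ¬ (D.last k x' z t ∧ D.last k z x t) := by
  rintro ⟨⟨be, hbe1, hbe2, hbe3⟩, ⟨c, hc1, hc2, hc3⟩⟩
  obtain ⟨nxz, nkx, nkz⟩ := zpg hz
  obtain ⟨nx'z, nkx', -⟩ := zpg hz'
  have nxx' : x ≠ x' := ht.ne
  have hlt := ht.1
  have hrt := ht.2
  have hx'x := ht.pos_lt
  -- the time `be`
  have hbe4 : D.pos (be + 1) x' < D.pos (be + 1) k := by
    rw [← keep_Ico nkx'.symm (show be + 1 ≤ t by omega) fun v hv1 hv2 hv3 =>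
      (hbe3 v (by omega) hv2).1 (cr_comm.1 hv3)]
    omega
  have hbe : D.ev x' k be := by
    rcases hbe2 with h5 | h5
    · have h6 := h5.pos_lt'
      omega
    · exact h5
  have hF : 0 < D.lk x' k := by
    rw [D.lk_symm]
    exact hz'.pos
  have hFx : 0 < D.lk x k := by
    rw [D.lk_symm]
    exact hz.pos
  have hbeT : t - D.T < be := by
    obtain ⟨u, hu1, hu2, hu3⟩ := D.exists_ev hF (t - D.T)
    have h5 : u ≤ be := by
      by_contra hcon
      exact (hbe3 u (by omega) (by omega)).1 (Or.inl hu3)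
    have h6 : be ≠ t - D.T := by
      intro h6
      have h7 := D.lm_per (t - D.T) 1
      rw [one_mul, sub_add_cancel, ← h6, hbe.1, hlt] at h7
      exact nxx' h7
    omega
  -- the time `al`
  have hc4 : D.pos (c + 1) k < D.pos (c + 1) z := by
    rw [← keep_Ico nkz (show c + 1 ≤ t by omega) fun v hv1 hv2 hv3 =>
      (hc3 v (by omega) hv2).1 hv3]
    exact h2
  have hc : D.ev k z c := by
    rcases hc2 with h5 | h5
    · exact h5
    · have h6 := h5.pos_lt'
      omega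
  obtain ⟨al, hal1, hal2, hal3⟩ := rule_P2 h hz hc
  have halt : t < al := by
    by_contra hcon
    rcases lt_or_eq_of_le (not_lt.1 hcon) with h5 | h5
    · exact (hc3 al hal1 h5).2 (Or.inl hal2)
    · have h6 := hal2.1
      rw [h5, hlt] at h6
      exact nkx h6.symm
  have halT : al < t + D.T := by
    obtain ⟨u, hu1, hu2, hu3⟩ := D.exists_ev hFx (t + 1)
    have h5 : al ≤ u := by
      by_contra hcon
      exact (hal3 u (by omega) (by omega)).1 (Or.inl hu3)
    have h6 : al ≠ t + D.T := by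
      intro h6
      have h7 := D.lm_per t 1
      rw [one_mul, ← h6, hal2.1, hlt] at h7
      exact nkx h7
    omega
  have hkz : ∀ v, be < v → v < al → ¬ D.cr k z v := by
    intro v hv1 hv2
    rcases lt_trichotomy v t with h5 | h5 | h5
    · exact (hbe3 v hv1 h5).2
    · rw [h5]
      rintro (h6 | h6)
      · exact nkx (h6.1.symm.trans hlt)
      · exact nkx' (h6.2.symm.trans hrt)
    · exact (hal3 v (by omega) hv2).2
  obtain ⟨L3, hL3⟩ : ∃ L3 : ℕ, be + D.T = t + 1 + L3 := ⟨(be + D.T - (t + 1)).toNat, by omega⟩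
  obtain ⟨L2, hL2⟩ : ∃ L2 : ℕ, al = be + 1 + L2 := ⟨(al - (be + 1)).toNat, by omega⟩
  obtain ⟨L1, hL1⟩ : ∃ L1 : ℕ, t + D.T = al + 1 + L1 := ⟨(t + D.T - (al + 1)).toNat, by omega⟩
  obtain ⟨a, ha⟩ : ∃ a : ℕ, al = t + a := ⟨(al - t).toNat, by omega⟩
  obtain ⟨b, hb⟩ : ∃ b : ℕ, t + 1 = be + b := ⟨(t + 1 - be).toNat, by omega⟩
  -- the number of moves of `k` over `x`
  have hN1 : ((Finset.range L1).filter fun j : ℕ => D.ev k x (al + 1 + j)).card + 1
      = D.lk x k := by
    have h5 := count_part (D := D) x k t (a := a) (b := L1 + 1) (by omega) (by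
      intro j hj
      rcases Nat.eq_zero_or_pos j with h6 | h6
      · rw [h6, Nat.cast_zero, add_zero]
        intro h7
        exact nkx (h7.1.symm.trans hlt)
      · intro h7
        exact (hal3 (t + j) (by omega) (by omega)).1 (Or.inl h7))
    rw [← h5, Finset.card_filter, Finset.card_filter, Finset.sum_range_succ']
    congr 1
    · apply Finset.sum_congr rfl
      intro j _
      have h6 : t + a + ((j + 1 : ℕ) : ℤ) = al + 1 + j := by
        push_cast
        omega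
      rw [h6]
    · rw [Nat.cast_zero, add_zero, ← ha, if_pos hal2]
  have hN3 : ((Finset.range L3).filter fun j : ℕ => D.ev k x' (t + 1 + j)).card = D.lk x' k := by
    have h5 := count_part (D := D) x' k be (a := b) (b := L3) (by omega) (by
      intro j hj
      rcases Nat.eq_zero_or_pos j with h6 | h6
      · rw [h6, Nat.cast_zero, add_zero]
        intro h7
        exact nkx' (h7.1.symm.trans hbe.1)
      · rcases lt_or_eq_of_le (show be + (j : ℤ) ≤ t by omega) with h7 | h7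
        · intro h8
          exact (hbe3 (be + j) (by omega) h7).1 (Or.inl h8)
        · rw [h7]
          intro h8
          exact nkx (h8.1.symm.trans hlt))
    rw [← hb] at h5
    exact h5
  -- the colours
  obtain ⟨q, hq⟩ : ∃ q : ℝ, q = (1 / 2) ^ (2 * D.T + 2) := ⟨_, rfl⟩
  have hq0 : 0 < q := by
    rw [hq]
    positivity
  have hq1 : q ≤ 1 / 2 := by
    rw [hq, pow_add]
    have h5 : (1 / 2 : ℝ) ^ (2 * D.T) ≤ 1 := pow_le_one₀ (by norm_num) (by norm_num)
    nlinarith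
  obtain ⟨s, hs⟩ : ∃ s : Fin n → ℝ, s = colG x x' z k q := ⟨_, rfl⟩
  have sx : s x = 1 / 2 := by
    rw [hs]
    unfold colG
    rw [if_pos (Or.inl rfl)]
  have sx' : s x' = 1 / 2 := by
    rw [hs]
    unfold colG
    rw [if_pos (Or.inr rfl)]
  have sz : s z = 0 := by
    rw [hs]
    unfold colG
    rw [if_neg (by
      rintro (h5 | h5)
      · exact nxz h5.symm
      · exact nx'z h5.symm), if_pos rfl]
  have sk : s k = q := by
    rw [hs]
    unfold colG
    rw [if_neg (by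
      rintro (h5 | h5)
      · exact nkx h5
      · exact nkx' h5), if_neg nkz, if_pos rfl]
  have sge : ∀ i, i ≠ k → i ≠ z → 1 / 2 ≤ s i := by
    intro i hi1 hi2
    rw [hs]
    unfold colG
    rw [if_neg hi2, if_neg hi1]
    split_ifs <;> norm_num
  have s0 : ∀ i, 0 ≤ s i := by
    intro i
    rw [hs]
    unfold colG
    split_ifs <;> linarith
  have s1 : ∀ i, s i ≤ 1 := by
    intro i
    rw [hs]
    unfold colG
    split_ifs <;> linarith
  have hS : ∀ j, j ∉ ({x, x', z, k} : Finset (Fin n)) → s j = 1 := by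
    intro j hj
    simp only [Finset.mem_insert, Finset.mem_singleton, not_or] at hj
    rw [hs]
    unfold colG
    rw [if_neg (by tauto), if_neg (by tauto), if_neg (by tauto)]
  -- the walk
  have st3 : (1 / 2 : ℝ) ^ L3 * q ^ D.lk x' k ≤ D.stw s x' (t + 1) L3 := by
    have h5 := stw_ge D (s := s) (i := x') (k := k) (t := t + 1) (m := L3) (s0 k) (by
      intro j _ hj2 hj3
      apply sge _ hj3
      intro hj4
      exact D.no_cr hz'.zero _ (Or.inr ⟨hj4, hj2⟩))
    rw [hN3, sk] at h5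
    exact h5
  have st2 : (1 / 2 : ℝ) ^ L2 ≤ D.stw s k (t + 1 + ((L3 + 1 : ℕ) : ℤ)) L2 := by
    have h5 := stw_ge D (s := s) (i := k) (k := k) (t := t + 1 + ((L3 + 1 : ℕ) : ℤ)) (m := L2)
      (s0 k) (by
      intro j hj1 hj2 hj3
      apply sge _ hj3
      intro hj4
      have h6 : t + 1 + ((L3 + 1 : ℕ) : ℤ) + j = (be + 1 + j) + 1 * D.T := by
        push_cast
        omega
      rw [h6] at hj2 hj4
      rw [D.rm_per] at hj2
      rw [D.lm_per] at hj4
      exact hkz (be + 1 + j) (by omega) (by omega) (Or.inr ⟨hj4, hj2⟩))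
    have h6 : ((Finset.range L2).filter fun j : ℕ =>
        D.ev k k (t + 1 + ((L3 + 1 : ℕ) : ℤ) + j)).card = 0 := by
      rw [Finset.card_eq_zero, Finset.filter_eq_empty_iff]
      intro j _ hj
      exact hj.ne rfl
    rw [h6, pow_zero, mul_one] at h5
    exact h5
  have st1 : (1 / 2 : ℝ) ^ L1 * q ^ (D.lk x k - 1)
      ≤ D.stw s x (t + 1 + ((L3 + 1 + L2 + 1 : ℕ) : ℤ)) L1 := by
    have h5 := stw_ge D (s := s) (i := x) (k := k)
      (t := t + 1 + ((L3 + 1 + L2 + 1 : ℕ) : ℤ)) (m := L1) (s0 k) (by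
      intro j _ hj2 hj3
      apply sge _ hj3
      intro hj4
      exact D.no_cr hz.zero _ (Or.inr ⟨hj4, hj2⟩))
    have h6 : ((Finset.range L1).filter fun j : ℕ =>
        D.ev k x (t + 1 + ((L3 + 1 + L2 + 1 : ℕ) : ℤ) + j)).card = D.lk x k - 1 := by
      rw [← hN1, Nat.add_sub_cancel]
      congr 1
      apply Finset.filter_congr
      intro j _
      have h7 : t + 1 + ((L3 + 1 + L2 + 1 : ℕ) : ℤ) + j = (al + 1 + j) + 1 * D.T := by
        push_cast
        omega
      rw [h7, D.ev_per]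
    rw [h6, sk] at h5
    exact h5
  obtain ⟨c1, hc1'⟩ : ∃ c1 : ℝ, c1 = (1 / 2 : ℝ) ^ L3 * q ^ D.lk x' k := ⟨_, rfl⟩
  have hc10 : 0 ≤ c1 := by
    rw [hc1']
    positivity
  have w1 : c1 ≤ D.W s (t + 1) L3 x' x' := by
    rw [hc1']
    exact st3.trans (stw_le D s0 s1 _ _ _)
  have w2 : (1 / 2) * c1 ≤ D.W s (t + 1) (L3 + 1) k x' := by
    have e5 : t + 1 + (L3 : ℤ) = be + 1 * D.T := by omega
    refine move_ge s0 s1 (l := x') ?_ ?_ (by rw [sx']; norm_num) hc10 w1
    · rw [e5, D.rm_per]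
      exact hbe.2
    · rw [e5, D.lm_per]
      exact hbe.1
  have w3 : (1 / 2) ^ L2 * ((1 / 2) * c1) ≤ D.W s (t + 1) (L3 + 1 + L2) k x' :=
    stay_ge s0 s1 st2 (by positivity) w2
  have w4 : (1 / 2) * ((1 / 2) ^ L2 * ((1 / 2) * c1))
      ≤ D.W s (t + 1) (L3 + 1 + L2 + 1) x x' := by
    have e5 : t + 1 + ((L3 + 1 + L2 : ℕ) : ℤ) = al + 1 * D.T := by
      push_cast
      omega
    refine move_ge s0 s1 (l := k) ?_ ?_ (by rw [sk]; linarith) (by positivity) w3
    · rw [e5, D.rm_per]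
      exact hal2.2
    · rw [e5, D.lm_per]
      exact hal2.1
  have w5 : ((1 / 2 : ℝ) ^ L1 * q ^ (D.lk x k - 1)) * ((1 / 2) * ((1 / 2) ^ L2 * ((1 / 2) * c1)))
      ≤ D.W s (t + 1) (L3 + 1 + L2 + 1 + L1) x x' :=
    stay_ge s0 s1 st1 (by positivity) w4
  have w6 : (1 / 2) * (((1 / 2 : ℝ) ^ L1 * q ^ (D.lk x k - 1)) *
      ((1 / 2) * ((1 / 2) ^ L2 * ((1 / 2) * c1))))
      ≤ D.W s (t + 1) (L3 + 1 + L2 + 1 + L1 + 1) x' x' := by
    have e5 : t + 1 + ((L3 + 1 + L2 + 1 + L1 : ℕ) : ℤ) = t + 2 * D.T := by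
      push_cast
      omega
    refine move_ge s0 s1 (l := x) ?_ ?_ (by rw [sx]; norm_num) (by positivity) w5
    · rw [e5, D.rm_per]
      exact hrt
    · rw [e5, D.lm_per]
      exact hlt
  have hlen : L3 + 1 + L2 + 1 + L1 + 1 = 2 * D.T := by omega
  rw [hlen] at w6
  -- the bound
  have hsame : D.lk x' k = D.lk x k := by
    rw [D.lk_symm x' k, D.lk_symm x k, hz'.same, hz.same]
  have hbd := boundA (S := ({x, x', z, k} : Finset (Fin n))) (k := k) (F := D.lk x k) h
    (by simp) (by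
      intro a ha hak
      simp only [Finset.mem_insert, Finset.mem_singleton] at ha
      rcases ha with rfl | rfl | rfl | rfl
      · rfl
      · exact hsame
      · rw [D.lk_symm a k, D.lk_symm x k, hz.same]
      · exact absurd rfl hak) (z := z) (by simp) s0 s1 hS sz (t + 1) 2
  have hmem : x' ∈ D.Lf ({x, x', z, k} : Finset (Fin n)) {z} (t + 1) := by
    rw [mem_Lf]
    refine ⟨by simp, ?_⟩
    intro y hy
    rw [Finset.mem_singleton] at hy
    rw [hy]
    exact hz'.left (t + 1)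
  have hle : D.W s (t + 1) (2 * D.T) x' x'
      ≤ ∑ i ∈ D.Lf ({x, x', z, k} : Finset (Fin n)) {z} (t + 1), D.W s (t + 1) (2 * D.T) i i :=
    Finset.single_le_sum (f := fun i => D.W s (t + 1) (2 * D.T) i i)
      (fun i _ => W_nonneg D s0 s1 _ _ _ _) hmem
  have hcard : ((({x, x', z, k} : Finset (Fin n)).card - 1 : ℕ) : ℝ) ≤ 3 := by
    have h5 : ({x, x', z, k} : Finset (Fin n)).card ≤ 4 := Finset.card_le_four
    have h6 : (({x, x', z, k} : Finset (Fin n)).card - 1 : ℕ) ≤ 3 := by omega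
    exact_mod_cast h6
  rw [sk] at hbd
  have hq2 : 0 < q ^ (2 * D.lk x k) := by positivity
  have hub : (1 / 2) * (((1 / 2 : ℝ) ^ L1 * q ^ (D.lk x k - 1)) *
      ((1 / 2) * ((1 / 2) ^ L2 * ((1 / 2) * c1)))) ≤ 3 * q ^ (2 * D.lk x k) := by
    refine (w6.trans hle).trans (hbd.trans ?_)
    exact mul_le_mul_of_nonneg_right hcard hq2.le
  obtain ⟨G, hG⟩ : ∃ G : ℕ, D.lk x k = G + 1 := ⟨D.lk x k - 1, by omega⟩
  rw [hc1', hsame, hG, Nat.add_sub_cancel] at hub
  have e6 : (1 / 2) * (((1 / 2 : ℝ) ^ L1 * q ^ G) *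
      ((1 / 2) * ((1 / 2) ^ L2 * ((1 / 2) * ((1 / 2) ^ L3 * q ^ (G + 1))))))
      = (1 / 2) ^ (L3 + 1 + L2 + 1 + L1 + 1) * q ^ (2 * G + 1) := by
    rw [show 2 * G + 1 = G + (G + 1) by ring]
    simp only [pow_add, pow_one]
    ring
  have e7 : 3 * q ^ (2 * (G + 1)) = (3 * q) * q ^ (2 * G + 1) := by
    rw [show 2 * (G + 1) = (2 * G + 1) + 1 by ring, pow_succ]
    ring
  rw [e6, e7, hlen] at hub
  have hq3 : 0 < q ^ (2 * G + 1) := by positivity
  have e8 := le_of_mul_le_mul_right hub hq3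
  have e9 : q = (1 / 2) ^ (2 * D.T) * (1 / 4) := by
    rw [hq, pow_add]
    norm_num
  have e10 : (0 : ℝ) < (1 / 2) ^ (2 * D.T) := by positivity
  rw [e9] at e8
  linarith

end Dia

end Pool.Agent.H70.AG
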