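import Mathlib
import Pool.Agent.H70.AG.RP2

set_option autoImplicit false

/-! # Rule S

PROOF. Suppose both. `pos t y < pos t k < pos t k' < pos t z` (`ev.adj`). `k ≠ k'` (`ev.ne`).
* Witness `a < t` of `last k' y z t`: `cr k' y a`, no crossing of `k'` with `y`, `z` in `(a, t)`. `k'`
  is right of `y` at `t`, so (`keep_Ico`) at `a + 1`, so `ev y k' a`.
* Witness `c < t` of `last k z y t`: `k` is left of `z` at `t` and at `c + 1`, so `ev k z c`;
  `rule_P2` at `c`: `u > c`, `ev k y u`, no crossing of `k` with `y`, `z` in `(c, u)`. As there is none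
  in `(c, t)` and the crossing at `t` is one of `k`, `k'` (`cr_unique'`), `t < u`.
* `t - T ≤ a` (`exists_ev` in the window `[t-T, t)` for `ev k' y`) and `u ≤ t + T` (`exists_ev` in
  `[t+1, t+1+T)`), so with `u = a + d`: `d + 1 ≤ 3 T` (note `1 ≤ T`).
Let `s = 0` at `y`, `z`, `1/2` at `k`, `k'`, `1` otherwise. `W_ge_two` at time `a` with lengths `d`
and `3 T - d`, `i = j = y`, `l = y`, `l' = k`:
* first term: `≥ stw y a (3 T) = ∏ b, s b ^ (3 lk y b) = (1/2)^(3 lk y k) * (1/2)^(3 lk y k')`
  (`stw_le`, `stw_add`, `stw_mul`; `lk y z = lk y y = 0`);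
* second term: `W s u (3T-d) y k ≥ stw y (u+1) (3T-d-1) * (1 - s k) > 0` (`E_go` at `u`: `rm = y`,
  `lm = k`; `stw_pos`: `y` never crosses `z`); `W s a d k y ≥ W s (t+1) (u-t-1) k k * E s t k k' *
  W s (a+1) (t-a-1) k' k' * E s a k' y` (`W_ge` three times), with `E s t k k' = 1 - s k' = 1/2`,
  `E s a k' y = 1 - s y = 1`, and the `stw` are positive: in `(t, u)` `k` does not cross `y`, `z`; in
  `(a, t)` `k'` does not cross `y`, `z`.
So `W s a (3 T) y y > (1/2)^(3 lk k y) * (1/2)^(3 lk k' y)`, contradicting `boundB4` with `m = 3`. -/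

namespace Pool.Agent.H70.AG

namespace Dia

variable {n : ℕ} {D : Dia n}

/-- The colours used for rule S. -/
private noncomputable def colS (y z k k' : Fin n) : Fin n → ℝ := fun i =>
  if i = y ∨ i = z then 0 else if i = k ∨ i = k' then 1 / 2 else 1

private lemma colS_nonneg (y z k k' i : Fin n) : 0 ≤ colS y z k k' i := by
  unfold colS
  split_ifs <;> norm_num

private lemma colS_le (y z k k' i : Fin n) : colS y z k k' i ≤ 1 := by
  unfold colS
  split_ifs <;> norm_num

private lemma colS_pos {y z k k' i : Fin n} (h1 : i ≠ y) (h2 : i ≠ z) : 0 < colS y z k k' i := by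
  unfold colS
  rw [if_neg (by tauto)]
  split_ifs <;> norm_num

/-- Rule S. -/
theorem rule_S (h : D.Rigid) {y z k k' : Fin n} (hz : D.ZP y z k) (hz' : D.ZP y z k')
    {t : ℤ} (ht : D.ev k' k t) (h1 : D.pos t y < D.pos t k) (h2 : D.pos t k' < D.pos t z) :
    ¬ (D.last k' y z t ∧ D.last k z y t) := by
  classical
  rintro ⟨⟨a, ha1, ha2, ha3⟩, ⟨c, hc1, hc2, hc3⟩⟩
  have hyz : y ≠ z := by
    rintro rfl
    exact lt_irrefl _ (hz.left t)
  have hky : k ≠ y := by
    rintro rfl
    have h3 := hz.pos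
    rw [D.lk_self] at h3
    omega
  have hk'y : k' ≠ y := by
    rintro rfl
    have h3 := hz'.pos
    rw [D.lk_self] at h3
    omega
  have hkz : k ≠ z := by
    rintro rfl
    have h3 := hz.same
    have h4 := hz.pos
    rw [D.lk_self] at h3
    omega
  have hk'z : k' ≠ z := by
    rintro rfl
    have h3 := hz'.same
    have h4 := hz'.pos
    rw [D.lk_self] at h3
    omega
  have hkk' : k' ≠ k := ht.ne
  have hadj := ht.adj
  -- the move of `k'` to the right over `y`
  have hea : D.ev y k' a := by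
    have e1 : D.pos (a + 1) y < D.pos (a + 1) k' := by
      rw [← keep_Ico hk'y.symm (by omega : a + 1 ≤ t)]
      · omega
      · intro v hv1 hv2 hcc
        exact (ha3 v (by omega) hv2).1 (cr_comm.1 hcc)
    rcases ha2 with e2 | e2
    · have := e2.pos_lt'
      omega
    · exact e2
  -- the move of `k` to the left over `z`
  have hec : D.ev k z c := by
    have e1 : D.pos (c + 1) k < D.pos (c + 1) z := by
      rw [← keep_Ico hkz (by omega : c + 1 ≤ t)]
      · omega
      · intro v hv1 hv2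
        exact (hc3 v (by omega) hv2).1
    rcases hc2 with e2 | e2
    · exact e2
    · have := e2.pos_lt'
      omega
  obtain ⟨u, hu1, hu2, hu3⟩ := rule_P2 h hz hec
  have htu : t < u := by
    by_contra hcon
    rcases lt_or_eq_of_le (show u ≤ t by omega) with e | e
    · exact (hc3 u hu1 e).2 (Or.inl hu2)
    · subst e
      exact hkk' (ht.1.symm.trans hu2.1)
  -- bounds
  have hat : t - D.T ≤ a := by
    obtain ⟨v, hv1, hv2, hv3⟩ := D.exists_ev hz'.pos (t - D.T)
    by_contra hcon
    exact (ha3 v (by omega) (by omega)).1 (Or.inr hv3)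
  have hut : u ≤ t + D.T := by
    obtain ⟨v, hv1, hv2, hv3⟩ := D.exists_ev hz.pos (t + 1)
    by_contra hcon
    exact (hu3 v (by omega) (by omega)).1 (Or.inr hv3)
  have hTpos : 1 ≤ D.T := D.hT
  have hno1 : ∀ v, a < v → v < t → ¬ D.cr k' y v ∧ ¬ D.cr k' z v := ha3
  have hno2 : ∀ v, t < v → v < u → ¬ D.cr k y v ∧ ¬ D.cr k z v := by
    intro v hv1 hv2
    exact hu3 v (by omega) hv2
  -- lengths
  obtain ⟨p, hp⟩ : ∃ p : ℕ, t = a + 1 + p := ⟨(t - (a + 1)).toNat, by omega⟩
  obtain ⟨q, hq⟩ : ∃ q : ℕ, u = t + 1 + q := ⟨(u - (t + 1)).toNat, by omega⟩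
  obtain ⟨r, hr⟩ : ∃ r : ℕ, 3 * D.T = (p + 1 + (q + 1)) + (r + 1) :=
    ⟨3 * D.T - ((p + 1 + (q + 1)) + 1), by omega⟩
  set s := colS y z k k' with hs
  have h0 : ∀ i, 0 ≤ s i := colS_nonneg y z k k'
  have h1' : ∀ i, s i ≤ 1 := colS_le y z k k'
  have hsk : s k = 1 / 2 := by
    rw [hs]
    unfold colS
    rw [if_neg (by tauto), if_pos (by tauto)]
  have hsk' : s k' = 1 / 2 := by
    rw [hs]
    unfold colS
    rw [if_neg (by tauto), if_pos (by tauto)]
  have hsy : s y = 0 := by
    rw [hs]
    unfold colS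
    rw [if_pos (by tauto)]
  have hsz : s z = 0 := by
    rw [hs]
    unfold colS
    rw [if_pos (by tauto)]
  have hlyz : D.lk y z = 0 := hz.zero
  have hbd := boundB4 h hz hz' hkk'.symm h0 h1' (by
    intro j hj
    simp only [Finset.mem_insert, Finset.mem_singleton, not_or] at hj
    rw [hs]
    unfold colS
    rw [if_neg (by tauto), if_neg (by tauto)]) hsy hsz a (by norm_num : 1 ≤ 3)
  have hsplit := D.W_ge_two h0 h1' a (p + 1 + (q + 1)) (r + 1) y y hky.symm
  rw [← hr] at hsplit
  -- first term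
  have hst : D.stw s y a (3 * D.T) = s k ^ (3 * D.lk k y) * s k' ^ (3 * D.lk k' y) := by
    rw [D.stw_mul, ← D.lk_symm y k, ← D.lk_symm y k']
    have e1 : ∀ b, s b ^ (3 * D.lk y b) = (if b = k then s k ^ (3 * D.lk y k) else 1)
        * (if b = k' then s k' ^ (3 * D.lk y k') else 1) := by
      intro b
      by_cases hbk : b = k
      · subst hbk
        rw [if_pos rfl, if_neg hkk'.symm, mul_one]
      · by_cases hbk' : b = k'
        · subst hbk'
          rw [if_neg hbk, if_pos rfl, one_mul]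
        · rw [if_neg hbk, if_neg hbk', mul_one]
          by_cases hby : b = y
          · subst hby
            rw [D.lk_self]
            simp
          · by_cases hbz : b = z
            · subst hbz
              rw [hlyz]
              simp
            · have : s b = 1 := by
                rw [hs]
                unfold colS
                rw [if_neg (by tauto), if_neg (by tauto)]
              rw [this, one_pow]
    rw [Finset.prod_congr rfl fun b _ => e1 b, Finset.prod_mul_distrib, Finset.prod_ite_eq',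
      Finset.prod_ite_eq', if_pos (Finset.mem_univ _), if_pos (Finset.mem_univ _)]
  have hA : s k ^ (3 * D.lk k y) * s k' ^ (3 * D.lk k' y)
      ≤ D.W s (a + (p + 1 + (q + 1) : ℕ)) (r + 1) y y * D.W s a (p + 1 + (q + 1)) y y := by
    rw [← hst, hr, D.stw_add, mul_comm]
    exact mul_le_mul (D.stw_le h0 h1' _ _ _) (D.stw_le h0 h1' _ _ _) (D.stw_nonneg h0 _ _ _)
      (D.W_nonneg h0 h1' _ _ _ _)
  have hu : a + ((p + 1 + (q + 1) : ℕ) : ℤ) = u := by
    rw [hq, hp]; push_cast; ring
  rw [hu] at hA hsplit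
  -- second term, first factor
  have hB1 : 0 < D.W s u (r + 1) y k := by
    have h6 := D.W_ge h0 h1' u 1 r y y k
    rw [W_one] at h6
    have h7 : D.E s u y k = 1 / 2 := by
      have h8 := D.E_go s u
      rw [hu2.1, hu2.2] at h8
      rw [h8, hsk]
      norm_num
    have h9 : 0 < D.stw s y (u + (1 : ℕ)) r := by
      apply stw_pos
      intro j hj hrm
      apply colS_pos
      · intro hl
        exact D.lm_ne_rm _ (hl.trans hrm.symm)
      · intro hl
        exact D.no_cr hlyz (u + (1 : ℕ) + j) (Or.inr ⟨hl, hrm⟩)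
    have h10 := D.stw_le h0 h1' y (u + (1 : ℕ)) r
    have h11 : 0 < D.W s (u + (1 : ℕ)) r y y * D.E s u y k := by
      rw [h7]
      exact mul_pos (lt_of_lt_of_le h9 h10) (by norm_num)
    rw [Nat.add_comm 1 r] at h6
    exact lt_of_lt_of_le h11 h6
  -- from `t` to `u`: `k` stays, at `t` it goes to `k'`
  have hB2 : 0 < D.W s t (q + 1) k k' := by
    have h6 := D.W_ge h0 h1' t 1 q k k k'
    rw [W_one] at h6
    have h7 : D.E s t k k' = 1 / 2 := by
      have h8 := D.E_go s t
      rw [ht.1, ht.2] at h8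
      rw [h8, hsk']
      norm_num
    have h9 : 0 < D.stw s k (t + (1 : ℕ)) q := by
      apply stw_pos
      intro j hj hrm
      have hv := hno2 (t + (1 : ℕ) + j) (by push_cast; omega) (by push_cast; omega)
      apply colS_pos
      · intro hl
        exact hv.1 (Or.inr ⟨hl, hrm⟩)
      · intro hl
        exact hv.2 (Or.inr ⟨hl, hrm⟩)
    have h10 := D.stw_le h0 h1' k (t + (1 : ℕ)) q
    have h11 : 0 < D.W s (t + (1 : ℕ)) q k k * D.E s t k k' := by
      rw [h7]
      exact mul_pos (lt_of_lt_of_le h9 h10) (by norm_num)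
    rw [Nat.add_comm 1 q] at h6
    exact lt_of_lt_of_le h11 h6
  -- from `a` to `t`: `k'` stays, at `a` it goes to `y`
  have hB3 : 0 < D.W s a (p + 1) k' y := by
    have h6 := D.W_ge h0 h1' a 1 p k' k' y
    rw [W_one] at h6
    have h7 : D.E s a k' y = 1 := by
      have h8 := D.E_go s a
      rw [hea.1, hea.2] at h8
      rw [h8, hsy]
      norm_num
    have h9 : 0 < D.stw s k' (a + (1 : ℕ)) p := by
      apply stw_pos
      intro j hj hrm
      have hv := hno1 (a + (1 : ℕ) + j) (by push_cast; omega) (by push_cast; omega)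
      apply colS_pos
      · intro hl
        exact hv.1 (Or.inr ⟨hl, hrm⟩)
      · intro hl
        exact hv.2 (Or.inr ⟨hl, hrm⟩)
    have h10 := D.stw_le h0 h1' k' (a + (1 : ℕ)) p
    have h11 : 0 < D.W s (a + (1 : ℕ)) p k' k' * D.E s a k' y := by
      rw [h7, mul_one]
      exact lt_of_lt_of_le h9 h10
    rw [Nat.add_comm 1 p] at h6
    exact lt_of_lt_of_le h11 h6
  have hB4 : 0 < D.W s a (p + 1 + (q + 1)) k y := by
    have h6 := D.W_ge h0 h1' a (p + 1) (q + 1) k k' y
    have h7 : a + ((p + 1 : ℕ) : ℤ) = t := by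
      rw [hp]; push_cast; ring
    rw [h7] at h6
    exact lt_of_lt_of_le (mul_pos hB2 hB3) h6
  have hB := mul_pos hB1 hB4
  linarith

end Dia

end Pool.Agent.H70.AG
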