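import Pool.Agent.H70.AG.RP1
import Pool.Agent.H70.AG.RP2
import Pool.Agent.H70.AG.RS
import Pool.Agent.H70.AG.RG
import Pool.Agent.H70.AG.RA3

/-! # The rules P, S, G, A for rigid diagrams (proofs 350, part IV)

`rule_P1` (RP1), `rule_P2`, `rule_P3`, `rule_P4`, `last_of_left`, `last_of_right` (RP2), `rule_S`
(RS), `rule_G` (RG), `rule_A` (RA3). -/
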